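import Pool.Agent.MPV.Conn

set_option autoImplicit false

/-!
# MPV EXA : the function `(1 - z)^(-2p)`

PROOFS. `L z = - 2p log (1 - z)` (principal branch, `Re (1 - z) > 0` on the disc), differentiable,
`deriv L z = 2p/(1-z)`, injective on the ball, `|Im L z| = 2p |arg (1-z)| < π p`.
`exa_cls`: change of variables (`L` injective, Jacobian `‖deriv L z‖^2`,
`MeasureTheory.lintegral_image_eq_lintegral_abs_det_fderiv_mul`): the integral over `{Re L < U}` is
`∫⁻ w in L '' {..}, exp (2 Re w) ≤ ∫⁻ w in {Re w < U, |Im w| < π p}, exp (2 Re w) = 2πp ∫_{-∞}^U e^{2x} dx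
= π p e^{2U}` (`Complex.volume_preserving_equiv_real_prod`, Fubini).
`exa_coef`: `exp (L z) = (1-z)^(-2p)`; with `a_k = coef k`, `(1-z) f' = 2p f` gives
`(k+1) a_{k+1} = (k + 2p) a_k`, `a_0 = 1` (or the iterated derivatives
`f^(k) = 2p (2p+1) ... (2p+k-1) (1-z)^(-2p-k)` by induction), so `a_n = ∏_{k=1}^n (1 + (2p-1)/k)`
and `1 + c/k ≥ ((k+1)/k)^c` for `0 ≤ c ≤ 1` (Bernoulli, `rpow_one_add_le_one_add_mul_self`), so
`a_n ≥ (n+1)^(2p-1) ≥ n^(2p-1)`.
-/

open MeasureTheory Metric

namespace MPV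

private theorem exa_det (w : ℂ) :
    ((ContinuousLinearMap.smulRight (1 : ℂ →L[ℂ] ℂ) w).restrictScalars ℝ).det = ‖w‖ ^ 2 := by
  have h1 : (((ContinuousLinearMap.smulRight (1 : ℂ →L[ℂ] ℂ) w).restrictScalars ℝ : ℂ →L[ℝ] ℂ)
      : ℂ →ₗ[ℝ] ℂ) = Algebra.lmul ℝ ℂ w := by
    ext z
    simp [mul_comm]
  rw [ContinuousLinearMap.det, h1]
  have := Algebra.norm_complex_apply w
  rw [Algebra.norm_apply] at this
  rw [this, Complex.normSq_eq_norm_sq]

private lemma exa_re {z : ℂ} (hz : z ∈ ball (0 : ℂ) 1) : 0 < (1 - z).re := by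
  rw [mem_ball_zero_iff] at hz
  have := Complex.re_le_norm z
  simp only [Complex.sub_re, Complex.one_re]
  linarith

private lemma exa_slit {z : ℂ} (hz : z ∈ ball (0 : ℂ) 1) : 1 - z ∈ Complex.slitPlane :=
  Or.inl (exa_re hz)

private lemma exa_deriv (a : ℂ) {z : ℂ} (hz : 0 < (1 - z).re) :
    HasDerivAt (fun z => -a * Complex.log (1 - z)) (a / (1 - z)) z := by
  have h1 : HasDerivAt (fun z : ℂ => 1 - z) (-1) z := by
    simpa using (hasDerivAt_id z).const_sub 1
  have h2 := (h1.clog (Or.inl hz)).const_mul (-a)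
  refine HasDerivAt.congr_deriv h2 ?_
  ring

private lemma exa_lint (U : ℝ) :
    ∫⁻ x in Set.Iio U, ENNReal.ofReal (Real.exp (2 * x)) = ENNReal.ofReal (Real.exp (2 * U) / 2) := by
  rw [← ofReal_integral_eq_lintegral_ofReal]
  · rw [← integral_Iic_eq_integral_Iio, integral_exp_mul_Iic (by norm_num : (0 : ℝ) < 2)]
  · exact (integrableOn_exp_mul_Iic (by norm_num : (0 : ℝ) < 2) U).mono_set Set.Iio_subset_Iic_self
  · exact Filter.Eventually.of_forall (fun x => (Real.exp_pos _).le)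

theorem exa_cls {p : ℝ} (hp : 0 < p) : Cls p (fun z => -(2 * p) * Complex.log (1 - z)) := by
  set L : ℂ → ℂ := fun z => -(2 * p) * Complex.log (1 - z) with hL
  have hp2 : (2 * (p : ℂ)) ≠ 0 := by
    have : (p : ℂ) ≠ 0 := by exact_mod_cast hp.ne'
    exact mul_ne_zero two_ne_zero this
  have hder : ∀ z ∈ ball (0 : ℂ) 1, HasDerivAt L (2 * p / (1 - z)) z :=
    fun z hz => exa_deriv (2 * p) (exa_re hz)
  have hdiff : DifferentiableOn ℂ L (ball 0 1) :=
    fun z hz => (hder z hz).differentiableAt.differentiableWithinAt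
  refine ⟨hdiff, fun U => ?_⟩
  set Tt : Set ℂ := {z | z ∈ ball (0 : ℂ) 1 ∧ (L z).re < U} with hTt
  have hTm : MeasurableSet Tt := by
    have hcont : ContinuousOn (fun z => (L z).re) (ball (0 : ℂ) 1) :=
      Complex.continuous_re.comp_continuousOn hdiff.continuousOn
    exact (hcont.isOpen_inter_preimage isOpen_ball isOpen_Iio).measurableSet
  have hinj : Set.InjOn L Tt := by
    intro z hz w hw hzw
    have h1 : Complex.log (1 - z) = Complex.log (1 - w) := by
      have h2 : -(2 * (p : ℂ)) * Complex.log (1 - z) = -(2 * p) * Complex.log (1 - w) := hzw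
      exact mul_left_cancel₀ (neg_ne_zero.2 hp2) h2
    have h3 := Complex.exp_log (Complex.slitPlane_ne_zero (exa_slit hz.1))
    have h4 := Complex.exp_log (Complex.slitPlane_ne_zero (exa_slit hw.1))
    rw [h1, h4] at h3
    have h5 : z = 1 - (1 - z) := by ring
    rw [h5, ← h3]; ring
  have hcv := lintegral_image_eq_lintegral_abs_det_fderiv_mul volume hTm
    (f := L) (f' := fun z => (ContinuousLinearMap.smulRight (1 : ℂ →L[ℂ] ℂ)
      (deriv L z)).restrictScalars ℝ)
    (fun z hz => by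
      have h1 := (hder z hz.1).differentiableAt.hasDerivAt.hasFDerivAt
      exact (h1.restrictScalars ℝ).hasFDerivWithinAt) hinj
    (fun w => ENNReal.ofReal (Real.exp (2 * w.re)))
  have h1 : ∫⁻ z in Tt, ENNReal.ofReal (Real.exp (2 * (L z).re) * ‖deriv L z‖ ^ 2) =
      ∫⁻ w in L '' Tt, ENNReal.ofReal (Real.exp (2 * w.re)) := by
    rw [hcv]
    refine lintegral_congr (fun z => ?_)
    rw [exa_det, abs_of_nonneg (by positivity), ← ENNReal.ofReal_mul (by positivity), mul_comm]
  rw [h1]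
  set Bx : Set (ℝ × ℝ) := Set.Iio U ×ˢ Set.Ioo (-(Real.pi * p)) (Real.pi * p) with hBx
  have hsub : L '' Tt ⊆ Complex.measurableEquivRealProd ⁻¹' Bx := by
    rintro w ⟨z, hz, rfl⟩
    have h2 := exa_re hz.1
    have h3 : |Complex.arg (1 - z)| < Real.pi / 2 :=
      Complex.abs_arg_lt_pi_div_two_iff.2 (Or.inl h2)
    have h4 : (L z).im = -(2 * p) * Complex.arg (1 - z) := by
      simp only [hL]
      have : (-(2 * (p : ℂ))) = ((-(2 * p) : ℝ) : ℂ) := by push_cast; ring
      rw [this, Complex.im_ofReal_mul, Complex.log_im]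
    show ((L z).re, (L z).im) ∈ Bx
    refine ⟨hz.2, ?_⟩
    rw [abs_lt] at h3
    rw [h4]
    constructor
    · nlinarith [h3.1, h3.2]
    · nlinarith [h3.1, h3.2]
  refine (lintegral_mono_set hsub).trans ?_
  have h5 : ∫⁻ w in Complex.measurableEquivRealProd ⁻¹' Bx, ENNReal.ofReal (Real.exp (2 * w.re)) =
      ∫⁻ q in Bx, ENNReal.ofReal (Real.exp (2 * q.1)) := by
    have := Complex.volume_preserving_equiv_real_prod.setLIntegral_comp_preimage
      (s := Bx) (measurableSet_Iio.prod measurableSet_Ioo)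
      (f := fun q : ℝ × ℝ => ENNReal.ofReal (Real.exp (2 * q.1))) (by fun_prop)
    rw [← this]
    rfl
  rw [h5, hBx, Measure.volume_eq_prod, ← Measure.prod_restrict]
  have h6 : ∫⁻ q : ℝ × ℝ, ENNReal.ofReal (Real.exp (2 * q.1))
      ∂((volume.restrict (Set.Iio U)).prod
        (volume.restrict (Set.Ioo (-(Real.pi * p)) (Real.pi * p)))) =
      (∫⁻ x in Set.Iio U, ENNReal.ofReal (Real.exp (2 * x))) *
        ∫⁻ _y in Set.Ioo (-(Real.pi * p)) (Real.pi * p), 1 := by
    rw [← lintegral_prod_mul (by fun_prop) (by fun_prop)]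
    simp
  rw [h6, exa_lint, setLIntegral_one, Real.volume_Ioo, ← ENNReal.ofReal_mul (by positivity)]
  refine ENNReal.ofReal_le_ofReal (le_of_eq ?_)
  ring

private lemma exa_exp_deriv (a b : ℂ) {z : ℂ} (hz : 0 < (1 - z).re) :
    HasDerivAt (fun z => a * Complex.exp (-b * Complex.log (1 - z)))
      (a * b * Complex.exp (-(b + 1) * Complex.log (1 - z))) z := by
  have h1 := ((exa_deriv b hz).cexp).const_mul a
  refine HasDerivAt.congr_deriv h1 ?_
  have hne : 1 - z ≠ 0 := Complex.slitPlane_ne_zero (Or.inl hz)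
  have h2 : -(b + 1) * Complex.log (1 - z) = -b * Complex.log (1 - z) - Complex.log (1 - z) := by
    ring
  rw [h2, Complex.exp_sub, Complex.exp_log hne]
  field_simp

private lemma exa_iter (a : ℂ) (k : ℕ) : ∀ z : ℂ, 0 < (1 - z).re →
    iteratedDeriv k (fun z => Complex.exp (-a * Complex.log (1 - z))) z =
      (∏ j ∈ Finset.range k, (a + j)) * Complex.exp (-(a + k) * Complex.log (1 - z)) := by
  induction k with
  | zero => intro z _; simp
  | succ k ih =>
    intro z hz
    rw [iteratedDeriv_succ]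
    have hopen : IsOpen {z : ℂ | 0 < (1 - z).re} :=
      isOpen_lt continuous_const (Complex.continuous_re.comp (continuous_const.sub continuous_id))
    have h1 : iteratedDeriv k (fun z => Complex.exp (-a * Complex.log (1 - z))) =ᶠ[nhds z]
        fun z => (∏ j ∈ Finset.range k, (a + j)) * Complex.exp (-(a + k) * Complex.log (1 - z)) := by
      filter_upwards [hopen.mem_nhds hz] with w hw using ih w hw
    rw [h1.deriv_eq, (exa_exp_deriv _ _ hz).deriv, Finset.prod_range_succ]
    push_cast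
    rw [add_assoc a]

private lemma exa_prod (c : ℝ) (hc0 : 0 ≤ c) (hc1 : c ≤ 1) (n : ℕ) :
    ((n : ℝ) + 1) ^ c ≤ ∏ j ∈ Finset.range n, (1 + c / ((j : ℝ) + 1)) := by
  induction n with
  | zero => simp
  | succ n ih =>
    rw [Finset.prod_range_succ]
    have hn : (0 : ℝ) < (n : ℝ) + 1 := by positivity
    have h1 : (1 + 1 / ((n : ℝ) + 1)) ^ c ≤ 1 + c * (1 / ((n : ℝ) + 1)) :=
      rpow_one_add_le_one_add_mul_self (by
        have : 0 < 1 / ((n : ℝ) + 1) := by positivity
        linarith) hc0 hc1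
    have h2 : ((n + 1 : ℕ) : ℝ) + 1 = ((n : ℝ) + 1) * (1 + 1 / ((n : ℝ) + 1)) := by
      push_cast
      field_simp
    rw [h2, Real.mul_rpow (by positivity) (by positivity)]
    have h3 : c * (1 / ((n : ℝ) + 1)) = c / ((n : ℝ) + 1) := by ring
    rw [h3] at h1
    exact mul_le_mul ih h1 (by positivity) (Finset.prod_nonneg (fun j _ => by positivity))

theorem exa_coef {p : ℝ} (hp : 1 / 2 ≤ p) (hp1 : p ≤ 1) (n : ℕ) (hn : 1 ≤ n) :
    (n : ℝ) ^ (2 * p - 1) ≤
      ‖coef (fun z => Complex.exp (-(2 * p) * Complex.log (1 - z))) n‖ := by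
  unfold coef
  rw [exa_iter (2 * p) n 0 (by simp)]
  have h1 : (∏ j ∈ Finset.range n, (2 * (p : ℂ) + j)) *
      Complex.exp (-(2 * p + n) * Complex.log (1 - 0)) / (n.factorial : ℂ) =
      ((∏ j ∈ Finset.range n, (1 + (2 * p - 1) / ((j : ℝ) + 1)) : ℝ) : ℂ) := by
    rw [sub_zero, Complex.log_one, mul_zero, Complex.exp_zero, mul_one,
      ← Finset.prod_range_add_one_eq_factorial]
    push_cast
    rw [← Finset.prod_div_distrib]
    refine Finset.prod_congr rfl (fun j _ => ?_)
    have : ((j : ℂ) + 1) ≠ 0 := by exact_mod_cast Nat.succ_ne_zero j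
    field_simp
    ring
  rw [h1, Complex.norm_real]
  have h2 := exa_prod (2 * p - 1) (by linarith) (by linarith) n
  refine le_trans ?_ ((le_abs_self _).trans_eq (Real.norm_eq_abs _).symm)
  refine le_trans ?_ h2
  exact Real.rpow_le_rpow (Nat.cast_nonneg n) (by linarith) (by linarith)

end MPV
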