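import Mathlib

set_option autoImplicit false

/-!
# MPV = MP_a1ed50_an : definitions

Mean `p`-valent functions, the class `S p`, the maximal coefficients `A p n`, and the working class
`Cls p L` (`f = exp ∘ L` is zero free and (areally) mean `p`-valent).
-/

open MeasureTheory Metric

namespace MPV

/-- The number of solutions `z` in the unit disc of `f z = w`, counted with multiplicity. -/
noncomputable def nval (f : ℂ → ℂ) (w : ℂ) : ENNReal :=
  ∑' z : ball (0 : ℂ) 1, ((analyticOrderAt (fun y => f y - w) (z : ℂ) : ℕ∞) : ENNReal)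

/-- `f` is mean `p`-valent in the unit disc. -/
def MeanValent (p : ℝ) (f : ℂ → ℂ) : Prop :=
  ∀ R : ℝ, 0 < R → ∫⁻ w in ball (0 : ℂ) R, nval f w ≤ ENNReal.ofReal (Real.pi * p * R ^ 2)

/-- The `n`-th Taylor coefficient of `f` at `0`. -/
noncomputable def coef (f : ℂ → ℂ) (n : ℕ) : ℂ := iteratedDeriv n f 0 / (n.factorial : ℂ)

/-- `μ_p(f)`, the maximum of the `|a_ν|` with `0 ≤ ν ≤ p`. -/
noncomputable def mu (p : ℝ) (f : ℂ → ℂ) : ℝ := ⨆ ν : Fin (⌊p⌋₊ + 1), ‖coef f ν‖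

/-- The class `S(p)`. -/
def S (p : ℝ) : Set (ℂ → ℂ) :=
  {f | DifferentiableOn ℂ f (ball 0 1) ∧ MeanValent p f ∧ mu p f = 1}

/-- The maximal coefficients `A_n^{(p)}`, as elements of `[0, ∞]`. -/
noncomputable def A (p : ℝ) (n : ℕ) : ENNReal := ⨆ f ∈ S p, ENNReal.ofReal ‖coef f n‖

/-- Working class: `exp ∘ L` is mean `p`-valent, written for the logarithm `L`. -/
structure Cls (p : ℝ) (L : ℂ → ℂ) : Prop where
  diff : DifferentiableOn ℂ L (ball 0 1)
  area : ∀ U : ℝ, ∫⁻ z in {z | z ∈ ball (0 : ℂ) 1 ∧ (L z).re < U},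
    ENNReal.ofReal (Real.exp (2 * (L z).re) * ‖deriv L z‖ ^ 2) ≤
      ENNReal.ofReal (Real.pi * p * Real.exp (2 * U))

/-- The disc automorphism `z ↦ (z + a) / (1 + conj a z)`. -/
noncomputable def mob (a z : ℂ) : ℂ := (z + a) / (1 + (starRingEnd ℂ) a * z)

/-- The Cayley transform, right half plane to unit disc. -/
noncomputable def cay (Z : ℂ) : ℂ := (1 - Z) / (1 + Z)

/-- Spherical density `4 |g'|^2 / (1 + |g|^2)^2`. -/
noncomputable def KK (g : ℂ → ℂ) (z : ℂ) : ℝ := 4 * ‖deriv g z‖ ^ 2 / (1 + ‖g z‖ ^ 2) ^ 2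

/-- `∮ 2 Re(conj g z g') / (1 + |g|^2) dt` on the circle of radius `r`. -/
noncomputable def BB (g : ℂ → ℂ) (r : ℝ) : ℝ :=
  ∫ t in (0 : ℝ)..2 * Real.pi, 2 * ((starRingEnd ℂ) (g (circleMap 0 r t)) *
    (circleMap 0 r t * deriv g (circleMap 0 r t))).re / (1 + ‖g (circleMap 0 r t)‖ ^ 2)

/-- constant of the `L^1` mean estimate -/
noncomputable def Cm (p : ℝ) : ℝ :=
  2 * Real.pi * 9 ^ p + 16 * Real.pi * p ^ 2 / (2 * p - 1)

end MPV
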