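import Pool.Agent.MPV.Defs

set_option autoImplicit false

/-!
# MPV AREA : the area formula for analytic functions, with multiplicities

PROOF. If `f` is constant (`= c`) on the disc, then `deriv f = 0` there, the right side is `0`, and
`nval f w = 0` for `w ≠ c` (all orders are `0`, `AnalyticAt.analyticOrderAt_eq_zero`), so the left
side is an integral of a function which vanishes off `{c}`.
Otherwise `f` is analytic, `deriv f` is analytic and not identically `0` on the (preconnected) disc, so
its zero set `Z` in the disc is countable (`AnalyticOnNhd.preimage_zero_mem_codiscreteWithin` /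
isolated zeros, or cover by compact discs: finitely many in every closed smaller disc) and has
measure `0`; `f '' Z` is countable.
Every `z` in `D \ Z` has an open ball with rational data (centre in a countable dense set, rational radius)
containing `z`, contained in `D \ Z`, on which `f` is injective (`HasStrictDerivAt` / inverse function theorem,
e.g. `HasStrictDerivAt.toOpenPartialHomeomorph` or `Complex`-lemmas). So `D \ Z` is a countable union of open sets
`U_j` on which `f` is injective; put `S_j = U_j \ ⋃_(i<j) U_i` (measurable, disjoint, union `D \ Z`).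
For `w ∉ f '' Z`: a solution `z` of `f z = w` is in `D \ Z`, its order is `1` (`deriv f z ≠ 0`), and the
other points have order `0`, so `nval f w = Σ_j 1_{f '' S_j}(w)` (`tsum` over the ball of an indicator; every
`S_j` contains at most one solution). Integrate over `E`: `Σ_j vol (f '' S_j ∩ E)` and, with
`f '' S_j ∩ E = f '' (S_j ∩ f⁻¹ E)`, the change of variables
`MeasureTheory.lintegral_abs_det_fderiv_eq_addHaar_image` (the real derivative of `f` at `z` is multiplication
by `deriv f z`, its determinant is `‖deriv f z‖^2`: `Complex.det...`, see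
`LinearMap.det_restrictScalars` / `Complex.smul`), gives `Σ_j ∫⁻ z in S_j ∩ f⁻¹ E, ‖deriv f z‖^2`, which is the
right side as `vol Z = 0`.
-/

open MeasureTheory Metric

namespace MPV

private theorem area_det (w : ℂ) :
    ((ContinuousLinearMap.smulRight (1 : ℂ →L[ℂ] ℂ) w).restrictScalars ℝ).det = ‖w‖ ^ 2 := by
  have h1 : (((ContinuousLinearMap.smulRight (1 : ℂ →L[ℂ] ℂ) w).restrictScalars ℝ : ℂ →L[ℝ] ℂ)
      : ℂ →ₗ[ℝ] ℂ) = Algebra.lmul ℝ ℂ w := by
    ext z
    simp [mul_comm]
  rw [ContinuousLinearMap.det, h1]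
  have := Algebra.norm_complex_apply w
  rw [Algebra.norm_apply] at this
  rw [this, Complex.normSq_eq_norm_sq]

private theorem area_order_zero {f : ℂ → ℂ} {z w : ℂ} (hfa : AnalyticAt ℂ f z) (h : f z ≠ w) :
    ((analyticOrderAt (fun y => f y - w) z : ℕ∞) : ENNReal) = 0 := by
  have h1 : AnalyticAt ℂ (fun y => f y - w) z := hfa.sub analyticAt_const
  rw [h1.analyticOrderAt_eq_zero.2 (sub_ne_zero.2 h)]
  simp

private theorem area_order_one {f : ℂ → ℂ} {z w : ℂ} (hfa : AnalyticAt ℂ f z)
    (hd : deriv f z ≠ 0) (h : f z = w) :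
    ((analyticOrderAt (fun y => f y - w) z : ℕ∞) : ENNReal) = 1 := by
  subst h
  rw [hfa.analyticOrderAt_sub_eq_one_of_deriv_ne_zero hd]
  simp

private theorem area_cover {f : ℂ → ℂ} {O : Set ℂ} (hO : IsOpen O)
    (hfa : ∀ z ∈ O, AnalyticAt ℂ f z) (hd : ∀ z ∈ O, deriv f z ≠ 0) :
    ∃ U : ℕ → Set ℂ, (∀ j, IsOpen (U j)) ∧ (∀ j, U j ⊆ O) ∧ (∀ j, Set.InjOn f (U j)) ∧
      ⋃ j, U j = O := by
  have h1 : ∀ z : ℂ, ∃ V : Set ℂ, IsOpen V ∧ V ⊆ O ∧ Set.InjOn f V ∧ (z ∈ O → z ∈ V) := by
    intro z
    by_cases hz : z ∈ O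
    · have hs := (hfa z hz).hasStrictDerivAt.hasStrictFDerivAt_equiv (hd z hz)
      refine ⟨(hs.toOpenPartialHomeomorph f).source ∩ O,
        (hs.toOpenPartialHomeomorph f).open_source.inter hO, Set.inter_subset_right,
        ?_, fun _ => ⟨hs.mem_toOpenPartialHomeomorph_source, hz⟩⟩
      intro x hx y hy hxy
      exact (hs.toOpenPartialHomeomorph f).injOn hx.1 hy.1 hxy
    · exact ⟨∅, isOpen_empty, Set.empty_subset _, Set.injOn_empty _, fun h => absurd h hz⟩
  choose V hVo hVs hVi hVm using h1
  obtain ⟨t, htO, htc, hcov⟩ := TopologicalSpace.countable_cover_nhdsWithin (f := V) (s := O)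
    (fun x hx => mem_nhdsWithin_of_mem_nhds ((hVo x).mem_nhds (hVm x hx)))
  rcases t.eq_empty_or_nonempty with rfl | hne
  · refine ⟨fun _ => ∅, fun _ => isOpen_empty, fun _ => Set.empty_subset _,
      fun _ => Set.injOn_empty _, ?_⟩
    simp only [Set.iUnion_empty]
    symm
    simpa using hcov
  · obtain ⟨e, rfl⟩ := htc.exists_eq_range hne
    refine ⟨fun j => V (e j), fun j => hVo _, fun j => hVs _, fun j => hVi _, ?_⟩
    apply Set.Subset.antisymm
    · exact Set.iUnion_subset (fun j => hVs _)
    · intro z hz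
      have := hcov hz
      simpa using this

theorem area_formula {f : ℂ → ℂ} (hf : DifferentiableOn ℂ f (ball 0 1)) {E : Set ℂ}
    (hE : MeasurableSet E) :
    ∫⁻ w in E, nval f w =
      ∫⁻ z in {z | z ∈ ball (0 : ℂ) 1 ∧ f z ∈ E}, ENNReal.ofReal (‖deriv f z‖ ^ 2) := by
  classical
  set D : Set ℂ := ball (0 : ℂ) 1 with hD
  have hDo : IsOpen D := isOpen_ball
  have hfa : ∀ z ∈ D, AnalyticAt ℂ f z := fun z hz => hf.analyticAt (hDo.mem_nhds hz)
  have hga : AnalyticOnNhd ℂ (deriv f) D := fun z hz => (hfa z hz).deriv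
  -- a measurable version of `f`
  set F : ℂ → ℂ := D.piecewise f (fun _ => 0) with hF
  have hFm : Measurable F :=
    ContinuousOn.measurable_piecewise hf.continuousOn continuousOn_const hDo.measurableSet
  have hFD : ∀ z ∈ D, F z = f z := fun z hz => by rw [hF, Set.piecewise_eq_of_mem _ _ _ hz]
  have hset : {z | z ∈ D ∧ f z ∈ E} = D ∩ F ⁻¹' E := by
    ext z
    constructor
    · rintro ⟨h1, h2⟩
      exact ⟨h1, by rw [Set.mem_preimage, hFD z h1]; exact h2⟩
    · rintro ⟨h1, h2⟩
      exact ⟨h1, by rw [Set.mem_preimage, hFD z h1] at h2; exact h2⟩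
  rw [hset]
  have hpc : IsPreconnected D := (convex_ball (0 : ℂ) 1).isPreconnected
  rcases hga.eqOn_zero_or_eventually_ne_zero_of_preconnected hpc with hz0 | hne
  · -- constant case
    have hconst : ∀ z ∈ D, f z = f 0 := fun z hz =>
      hDo.is_const_of_deriv_eq_zero hpc hf hz0 hz (mem_ball_self one_pos)
    have hL : ∫⁻ w in E, nval f w = 0 := by
      have h1 : ∀ᵐ w ∂(volume.restrict E), nval f w = 0 := by
        have h2 : ∀ᵐ w ∂(volume : Measure ℂ), w ≠ f 0 := by
          rw [ae_iff]
          simp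
        filter_upwards [ae_restrict_of_ae h2] with w hw
        unfold nval
        rw [ENNReal.tsum_eq_zero]
        intro z
        exact area_order_zero (hfa z z.2) (by rw [hconst z z.2]; exact hw.symm)
      rw [lintegral_congr_ae h1, lintegral_zero]
    have hR : ∫⁻ z in D ∩ F ⁻¹' E, ENNReal.ofReal (‖deriv f z‖ ^ 2) = 0 := by
      have h1 : ∫⁻ z in D ∩ F ⁻¹' E, ENNReal.ofReal (‖deriv f z‖ ^ 2)
          = ∫⁻ z in D ∩ F ⁻¹' E, (0 : ENNReal) := by
        refine setLIntegral_congr_fun (hDo.measurableSet.inter (hFm hE)) (fun z hz => ?_)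
        have : deriv f z = 0 := hz0 hz.1
        simp [this]
      rw [h1, lintegral_zero]
    rw [hL, hR]
  · -- non-constant case
    set Z : Set ℂ := {z | deriv f z = 0} ∩ D with hZ
    have hZc : Z.Countable := by
      have h1 : ({z | deriv f z = 0} : Set ℂ)ᶜ ∈ Filter.codiscreteWithin D := hne
      have h2 := isDiscrete_of_codiscreteWithin h1
      have := h2.to_subtype
      exact Set.countable_coe_iff.1 (TopologicalSpace.separableSpace_iff_countable.1 inferInstance)
    set O : Set ℂ := D ∩ (deriv f) ⁻¹' {0}ᶜ with hOdef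
    have hO : IsOpen O := hga.continuousOn.isOpen_inter_preimage hDo isOpen_compl_singleton
    obtain ⟨U, hUo, hUO, hUi, hUu⟩ := area_cover hO (fun z hz => hfa z hz.1) (fun z hz => hz.2)
    set S : ℕ → Set ℂ := disjointed U with hS
    have hSm : ∀ j, MeasurableSet (S j) := fun j =>
      MeasurableSet.disjointed (fun i => (hUo i).measurableSet) j
    have hSU : ∀ j, S j ⊆ U j := fun j => disjointed_subset U j
    have hSO : ∀ j, S j ⊆ O := fun j => (hSU j).trans (hUO j)
    have hSi : ∀ j, Set.InjOn f (S j) := fun j => (hUi j).mono (hSU j)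
    have hSu : ⋃ j, S j = O := by rw [hS, iUnion_disjointed, hUu]
    have hSd : Pairwise (Function.onFun Disjoint S) := disjoint_disjointed U
    have hnval : ∀ w, w ∉ f '' Z → nval f w = ∑' j, (f '' S j).indicator 1 w := by
      intro w hw
      have h1 : ∀ z : D, ((analyticOrderAt (fun y => f y - w) (z : ℂ) : ℕ∞) : ENNReal)
          = ∑' j, (if (z : ℂ) ∈ S j ∧ f z = w then (1 : ENNReal) else 0) := by
        intro z
        by_cases hzw : f z = w
        · have hzO : (z : ℂ) ∈ O := by
            refine ⟨z.2, fun h0 => hw ⟨z, ⟨h0, z.2⟩, hzw⟩⟩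
          rw [area_order_one (hfa z z.2) hzO.2 hzw]
          rw [← hSu, Set.mem_iUnion] at hzO
          obtain ⟨j0, hj0⟩ := hzO
          rw [tsum_eq_single j0, if_pos ⟨hj0, hzw⟩]
          intro j hj
          rw [if_neg]
          rintro ⟨h2, _⟩
          exact Set.disjoint_left.1 (hSd hj) h2 hj0
        · rw [area_order_zero (hfa z z.2) hzw]
          symm
          rw [ENNReal.tsum_eq_zero]
          intro j
          rw [if_neg (fun h => hzw h.2)]
      unfold nval
      rw [tsum_congr h1, ENNReal.tsum_comm]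
      refine tsum_congr (fun j => ?_)
      by_cases hwj : w ∈ f '' S j
      · rw [Set.indicator_of_mem hwj, Pi.one_apply]
        obtain ⟨z0, hz0, hz0w⟩ := hwj
        rw [tsum_eq_single (⟨z0, (hSO j hz0).1⟩ : D), if_pos ⟨hz0, hz0w⟩]
        intro z hz
        rw [if_neg]
        rintro ⟨h2, h3⟩
        apply hz
        apply Subtype.ext
        exact hSi j h2 hz0 (h3.trans hz0w.symm)
      · rw [Set.indicator_of_notMem hwj, ENNReal.tsum_eq_zero]
        intro z
        rw [if_neg (fun h => hwj ⟨z, h.1, h.2⟩)]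
    have himm : ∀ j, MeasurableSet (f '' S j) := fun j =>
      (hSm j).image_of_continuousOn_injOn
        (hf.continuousOn.mono (fun z hz => (hSO j hz).1)) (hSi j)
    have hL : ∫⁻ w in E, nval f w = ∑' j, ∫⁻ z in S j ∩ F ⁻¹' E,
        ENNReal.ofReal (‖deriv f z‖ ^ 2) := by
      have h1 : ∫⁻ w in E, nval f w = ∫⁻ w in E, ∑' j, (f '' S j).indicator 1 w := by
        refine lintegral_congr_ae (ae_restrict_of_ae ?_)
        have h2 : volume (f '' Z) = 0 := (hZc.image f).measure_zero volume
        rw [measure_eq_zero_iff_ae_notMem] at h2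
        filter_upwards [h2] with w hw
        exact hnval w hw
      rw [h1, lintegral_tsum (fun j => (measurable_one.indicator (himm j)).aemeasurable)]
      refine tsum_congr (fun j => ?_)
      rw [lintegral_indicator_one (himm j), Measure.restrict_apply (himm j)]
      have h3 : f '' S j ∩ E = f '' (S j ∩ F ⁻¹' E) := by
        ext w
        constructor
        · rintro ⟨⟨z, hz, rfl⟩, hw⟩
          exact ⟨z, ⟨hz, by rw [Set.mem_preimage, hFD z (hSO j hz).1]; exact hw⟩, rfl⟩
        · rintro ⟨z, ⟨hz, hw⟩, rfl⟩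
          rw [Set.mem_preimage, hFD z (hSO j hz).1] at hw
          exact ⟨⟨z, hz, rfl⟩, hw⟩
      rw [h3]
      have h := lintegral_abs_det_fderiv_eq_addHaar_image volume
        ((hSm j).inter (hFm hE)) (f := f)
        (f' := fun z => (ContinuousLinearMap.smulRight (1 : ℂ →L[ℂ] ℂ) (deriv f z)).restrictScalars ℝ)
        (fun z hz => (((hfa z (hSO j hz.1).1).differentiableAt.hasDerivAt.hasFDerivAt.restrictScalars
          ℝ).hasFDerivWithinAt)) ((hSi j).mono Set.inter_subset_left)
      rw [← h]
      refine lintegral_congr (fun z => ?_)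
      rw [area_det, abs_of_nonneg (by positivity)]
    rw [hL, ← lintegral_iUnion (fun j => (hSm j).inter (hFm hE))
      (fun i j hij => (hSd hij).mono Set.inter_subset_left Set.inter_subset_left)]
    rw [← Set.iUnion_inter, hSu]
    refine setLIntegral_congr ?_
    have h2 : ∀ᵐ z ∂(volume : Measure ℂ), z ∉ Z :=
      measure_eq_zero_iff_ae_notMem.1 (hZc.measure_zero volume)
    filter_upwards [h2] with z hz
    apply propext
    constructor
    · rintro ⟨h3, h4⟩
      exact ⟨h3.1, h4⟩
    · rintro ⟨h3, h4⟩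
      exact ⟨⟨h3, fun h5 => hz ⟨h5, h3⟩⟩, h4⟩

end MPV
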