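import Pool.Agent.MPV.Defs

set_option autoImplicit false

/-!
# MPV LOG : logarithms of zero free functions in the disc

PROOF. `deriv f / f` is differentiable on the ball, so it has a primitive `P` on the ball (Mathlib has
primitives of holomorphic functions on discs: `DifferentiableOn.isExactOn_ball` or similar, search
`isExactOn_ball` / `Complex.IsExactOn`). `exp (- P) * f` has derivative `0` on the (connected) ball, so it is a
constant `c`, `c ≠ 0`, `c = exp d`, and `L = P + d`.
-/

open MeasureTheory Metric

namespace MPV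

theorem exists_log {f : ℂ → ℂ} (hf : DifferentiableOn ℂ f (ball 0 1))
    (h0 : ∀ z ∈ ball (0 : ℂ) 1, f z ≠ 0) :
    ∃ L : ℂ → ℂ, DifferentiableOn ℂ L (ball 0 1) ∧ ∀ z ∈ ball (0 : ℂ) 1, f z = Complex.exp (L z) := by
  have hd : DifferentiableOn ℂ (fun z => deriv f z / f z) (ball 0 1) :=
    (hf.deriv isOpen_ball).div hf h0
  obtain ⟨P, hP⟩ := hd.isExactOn_ball
  set G : ℂ → ℂ := fun z => Complex.exp (-P z) * f z with hG
  have hGd : ∀ z ∈ ball (0 : ℂ) 1, HasDerivAt G 0 z := by
    intro z hz
    have h1 : HasDerivAt f (deriv f z) z :=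
      (hf.differentiableAt (isOpen_ball.mem_nhds hz)).hasDerivAt
    have h2 : HasDerivAt (fun z => Complex.exp (-P z)) (Complex.exp (-P z) * -(deriv f z / f z)) z :=
      (hP z hz).neg.cexp
    have h3 := h2.mul h1
    have h4 : deriv f z / f z * f z = deriv f z := div_mul_cancel₀ _ (h0 z hz)
    have h5 : Complex.exp (-P z) * -(deriv f z / f z) * f z + Complex.exp (-P z) * deriv f z = 0 := by
      rw [mul_neg, neg_mul, mul_assoc, h4]
      ring
    rw [h5] at h3
    exact h3
  have hconst : ∀ z ∈ ball (0 : ℂ) 1, G z = G 0 := by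
    intro z hz
    exact isOpen_ball.is_const_of_deriv_eq_zero (convex_ball _ _).isPreconnected
      (fun w hw => (hGd w hw).differentiableAt.differentiableWithinAt)
      (fun w hw => (hGd w hw).deriv) hz (mem_ball_self one_pos)
  have hG0 : G 0 ≠ 0 := mul_ne_zero (Complex.exp_ne_zero _) (h0 0 (mem_ball_self one_pos))
  refine ⟨fun z => P z + Complex.log (G 0), ?_, ?_⟩
  · intro z hz
    exact ((hP z hz).differentiableAt.add_const _).differentiableWithinAt
  · intro z hz
    rw [Complex.exp_add, Complex.exp_log hG0, ← hconst z hz, hG]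
    simp only
    rw [← mul_assoc, ← Complex.exp_add, add_neg_cancel, Complex.exp_zero, one_mul]

end MPV
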