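import Pool.Agent.MPV.Area
import Pool.Agent.MPV.Log

set_option autoImplicit false

/-!
# MPV CONN : from `S p` to the working class and back (`0 < p < 1`)

PROOFS.
`coef_congr`: `iteratedDeriv` at `0` depends only on the germ (`Filter.EventuallyEq.iteratedDeriv_eq`).
`mu_eq`: `⌊p⌋₊ = 0`, so the supremum is over the one point type `Fin 1`, `coef f 0 = f 0`.
`zero_free`: suppose `f z0 = 0`, `z0` in the disc. `f 0 ≠ 0` (`|f 0| = 1`), so `f` is not constant near `z0`
(identity theorem on the preconnected ball), and by the open mapping theorem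
(`AnalyticAt.eventually_constant_or_nhds_le_map_nhds`, `AnalyticOnNhd.is_constant_or_isOpen`) `f '' ball 0 1 ⊇
ball 0 R` for a small `R > 0`. For `w` in `ball 0 R` some `z` in the disc has `f z = w`, its order is `≥ 1`
(`analyticOrderAt_ne_zero`), so `nval f w ≥ 1` and `∫⁻ w in ball 0 R, nval f w ≥ vol (ball 0 R) = π R^2
> π p R^2`, a contradiction.
`exists_cls`: `f = exp ∘ L` on the ball (`exists_log`). `|f z| = exp (Re L z)`, `deriv f z = exp (L z) * deriv L z`
on the ball. `Re L z < U` iff `f z ∈ ball 0 (exp U)`; `area_formula` with `E = ball 0 (exp U)` and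
`MeanValent p f` with `R = exp U`. `|f 0| = 1` gives `Re L 0 = 0`.
`mem_S`: the same computation backwards (`R = exp (log R)`).
-/

open MeasureTheory Metric

namespace MPV

theorem coef_congr {f g : ℂ → ℂ} (h : ∀ z ∈ ball (0 : ℂ) 1, f z = g z) (n : ℕ) :
    coef f n = coef g n := by
  unfold coef
  have h1 : f =ᶠ[nhds (0 : ℂ)] g := by
    filter_upwards [Metric.ball_mem_nhds (0 : ℂ) one_pos] with z hz using h z hz
  rw [h1.iteratedDeriv_eq n]

theorem mu_eq {p : ℝ} (hp0 : 0 < p) (hp : p < 1) (f : ℂ → ℂ) : mu p f = ‖f 0‖ := by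
  have h : ⌊p⌋₊ = 0 := Nat.floor_eq_zero.2 hp
  unfold mu
  rw [h]
  have h1 : ∀ ν : Fin (0 + 1), ‖coef f ν‖ = ‖f 0‖ := by
    intro ν
    have h2 : (ν : ℕ) = 0 := by omega
    rw [h2]
    simp [coef]
  simp_rw [h1]
  exact ciSup_const

theorem zero_free {p : ℝ} (hp0 : 0 < p) (hp : p < 1) {f : ℂ → ℂ} (hf : f ∈ S p) :
    ∀ z ∈ ball (0 : ℂ) 1, f z ≠ 0 := by
  intro z0 hz0 hfz0
  obtain ⟨hd, hm, hmu⟩ := hf
  rw [mu_eq hp0 hp] at hmu
  have han : AnalyticOnNhd ℂ f (ball (0 : ℂ) 1) := hd.analyticOnNhd isOpen_ball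
  have hconn : IsPreconnected (ball (0 : ℂ) 1) := (convex_ball (0 : ℂ) 1).isPreconnected
  rcases han.is_constant_or_isOpen hconn with ⟨w, hw⟩ | hopen
  · have h1 := hw z0 hz0
    have h2 := hw 0 (mem_ball_self one_pos)
    rw [hfz0] at h1
    rw [h2, ← h1] at hmu
    simp at hmu
  · have h3 : IsOpen (f '' ball (0 : ℂ) 1) := hopen _ subset_rfl isOpen_ball
    have h4 : (0 : ℂ) ∈ f '' ball (0 : ℂ) 1 := ⟨z0, hz0, hfz0⟩
    obtain ⟨R, hR, hRsub⟩ := Metric.isOpen_iff.1 h3 0 h4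
    have h5 : ∀ w ∈ ball (0 : ℂ) R, (1 : ENNReal) ≤ nval f w := by
      intro w hw
      obtain ⟨z, hz, hzw⟩ := hRsub hw
      unfold nval
      have h6 : (1 : ENNReal) ≤
          ((analyticOrderAt (fun y => f y - w) ((⟨z, hz⟩ : ball (0 : ℂ) 1) : ℂ) : ℕ∞) : ENNReal) := by
        have hana : AnalyticAt ℂ (fun y => f y - w) z := (han z hz).sub analyticAt_const
        have h7 : analyticOrderAt (fun y => f y - w) z ≠ 0 := by
          rw [hana.analyticOrderAt_ne_zero]
          simp [hzw]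
        have h8 : (1 : ℕ∞) ≤ analyticOrderAt (fun y => f y - w) z := by
          rwa [ENat.one_le_iff_ne_zero]
        exact_mod_cast h8
      exact h6.trans (ENNReal.le_tsum (⟨z, hz⟩ : ball (0 : ℂ) 1))
    have h9 : volume (ball (0 : ℂ) R) ≤ ∫⁻ w in ball (0 : ℂ) R, nval f w := by
      calc volume (ball (0 : ℂ) R) = ∫⁻ w in ball (0 : ℂ) R, 1 := by simp
        _ ≤ ∫⁻ w in ball (0 : ℂ) R, nval f w :=
          setLIntegral_mono' measurableSet_ball (fun w hw => h5 w hw)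
    have h10 := h9.trans (hm R hR)
    rw [Complex.volume_ball] at h10
    have h11 : ENNReal.ofReal R ^ 2 * (NNReal.pi : ENNReal) = ENNReal.ofReal (Real.pi * R ^ 2) := by
      rw [mul_comm Real.pi, ENNReal.ofReal_mul (by positivity), ENNReal.ofReal_pow hR.le]
      congr 1
      rw [← NNReal.coe_real_pi, ENNReal.ofReal_coe_nnreal]
    rw [h11, ENNReal.ofReal_le_ofReal_iff (by positivity)] at h10
    have h12 : 0 < Real.pi * R ^ 2 := by positivity
    nlinarith

/-- The area formula for `f = exp ∘ L`. -/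
lemma area_exp {f L : ℂ → ℂ} (hf : DifferentiableOn ℂ f (ball 0 1))
    (hL : DifferentiableOn ℂ L (ball 0 1)) (h : ∀ z ∈ ball (0 : ℂ) 1, f z = Complex.exp (L z))
    (U : ℝ) :
    ∫⁻ w in ball (0 : ℂ) (Real.exp U), nval f w =
      ∫⁻ z in {z | z ∈ ball (0 : ℂ) 1 ∧ (L z).re < U},
        ENNReal.ofReal (Real.exp (2 * (L z).re) * ‖deriv L z‖ ^ 2) := by
  rw [area_formula hf measurableSet_ball]
  have hset : {z | z ∈ ball (0 : ℂ) 1 ∧ f z ∈ ball (0 : ℂ) (Real.exp U)}
      = {z | z ∈ ball (0 : ℂ) 1 ∧ (L z).re < U} := by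
    ext z
    simp only [Set.mem_ofPred_eq]
    constructor
    · rintro ⟨hz, hz2⟩
      refine ⟨hz, ?_⟩
      rw [h z hz, mem_ball_zero_iff, Complex.norm_exp] at hz2
      exact Real.exp_lt_exp.1 hz2
    · rintro ⟨hz, hz2⟩
      refine ⟨hz, ?_⟩
      rw [h z hz, mem_ball_zero_iff, Complex.norm_exp]
      exact Real.exp_lt_exp.2 hz2
  rw [hset]
  have hmeas : MeasurableSet {z | z ∈ ball (0 : ℂ) 1 ∧ (L z).re < U} := by
    have hcont : ContinuousOn (fun z => (L z).re) (ball (0 : ℂ) 1) :=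
      Complex.continuous_re.comp_continuousOn hL.continuousOn
    have h1 : IsOpen (ball (0 : ℂ) 1 ∩ (fun z => (L z).re) ⁻¹' Set.Iio U) :=
      hcont.isOpen_inter_preimage isOpen_ball isOpen_Iio
    exact h1.measurableSet
  apply setLIntegral_congr_fun hmeas
  rintro z ⟨hz, -⟩
  have hnhds : ball (0 : ℂ) 1 ∈ nhds z := isOpen_ball.mem_nhds hz
  have hev : f =ᶠ[nhds z] fun y => Complex.exp (L y) := by
    filter_upwards [hnhds] with y hy using h y hy
  have hLd : DifferentiableAt ℂ L z := hL.differentiableAt hnhds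
  have hder : deriv f z = Complex.exp (L z) * deriv L z := by
    rw [hev.deriv_eq]
    exact (hLd.hasDerivAt.cexp).deriv
  simp only [hder]
  rw [norm_mul, mul_pow, Complex.norm_exp, ← Real.exp_nat_mul]
  norm_num

theorem exists_cls {p : ℝ} (hp0 : 0 < p) (hp : p < 1) {f : ℂ → ℂ} (hf : f ∈ S p) :
    ∃ L : ℂ → ℂ, Cls p L ∧ (∀ z ∈ ball (0 : ℂ) 1, f z = Complex.exp (L z)) ∧ (L 0).re = 0 := by
  have hzf := zero_free hp0 hp hf
  obtain ⟨hd, hm, hmu⟩ := hf
  rw [mu_eq hp0 hp] at hmu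
  obtain ⟨L, hL, hfL⟩ := exists_log hd hzf
  refine ⟨L, ⟨hL, ?_⟩, hfL, ?_⟩
  · intro U
    rw [← area_exp hd hL hfL U]
    refine (hm (Real.exp U) (Real.exp_pos U)).trans (le_of_eq ?_)
    congr 2
    rw [← Real.exp_nat_mul]
    norm_num
  · have h0 := hfL 0 (mem_ball_self one_pos)
    rw [h0, Complex.norm_exp] at hmu
    exact (Real.exp_eq_one_iff _).1 hmu

theorem mem_S {p : ℝ} (hp0 : 0 < p) (hp : p < 1) {L : ℂ → ℂ} (hL : Cls p L)
    (h0 : (L 0).re = 0) : (fun z => Complex.exp (L z)) ∈ S p := by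
  have hd : DifferentiableOn ℂ (fun z => Complex.exp (L z)) (ball 0 1) := hL.diff.cexp
  refine ⟨hd, ?_, ?_⟩
  · intro R hR
    have h1 := area_exp hd hL.diff (fun z _ => rfl) (Real.log R)
    rw [Real.exp_log hR] at h1
    rw [h1]
    refine (hL.area (Real.log R)).trans (le_of_eq ?_)
    congr 2
    have h2 : Real.exp (2 * Real.log R) = Real.exp (Real.log R) ^ 2 := by
      rw [← Real.exp_nat_mul]
      norm_num
    rw [h2, Real.exp_log hR]
  · rw [mu_eq hp0 hp]
    rw [Complex.norm_exp, h0, Real.exp_zero]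

end MPV
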