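import Pool.Agent.MPV.Defs

set_option autoImplicit false

/-!
# MPV CFI : Cauchy's formula for the coefficients on the circle of radius `e^{-1/m}`

PROOF. `r = exp (-1/m) < 1`. Cauchy: `coef f m = (1/(2π)) ∫ θ in 0..2π, f (r e^{iθ}) (r e^{iθ})^(-m)`
(`DiffContOnCl`/`circleIntegral` formula for `iteratedDeriv`, or the power series `cauchyPowerSeries`:
`Complex.circleIntegral...`, `DifferentiableOn.hasFPowerSeriesOnBall` on `closedBall 0 r'`, `r < r' < 1`), and
`r^(-m) = e`. Shift to `[-π, π]` (periodicity), substitute `θ = t/m`.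
`coef_norm_le` is the triangle inequality.
-/

open MeasureTheory Metric

namespace MPV

private theorem coef_eq_int {f : ℂ → ℂ} (hf : DifferentiableOn ℂ f (ball 0 1)) {m : ℕ} (hm : 1 ≤ m) :
    coef f m = (Real.exp 1 / (2 * Real.pi) : ℝ) *
      ∫ θ in (0 : ℝ)..2 * Real.pi, f (circleMap 0 (Real.exp (-1 / m)) θ) *
        Complex.exp (-(m * θ * Complex.I)) := by
  have hm0 : (0 : ℝ) < m := by exact_mod_cast hm
  set R : ℝ := Real.exp (-1 / m) with hR
  have hR0 : 0 < R := Real.exp_pos _
  have hR1 : R < 1 := by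
    rw [hR, Real.exp_lt_one_iff]
    exact div_neg_of_neg_of_pos (by norm_num) hm0
  have hRm : R ^ m = Real.exp (-1) := by
    rw [hR, ← Real.exp_nat_mul]
    congr 1
    field_simp
  have hsub : closedBall (0 : ℂ) R ⊆ ball 0 1 := closedBall_subset_ball hR1
  have hdc : DiffContOnCl ℂ f (ball 0 R) := (hf.mono hsub).diffContOnCl_ball (le_refl _) |> fun h => h
  have hC := hdc.circleIntegral_one_div_sub_center_pow_smul hR0 m
  have hfac : (m.factorial : ℂ) ≠ 0 := by exact_mod_cast m.factorial_ne_zero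
  have hpi : (2 * Real.pi * Complex.I : ℂ) ≠ 0 := by
    simp [Real.pi_ne_zero]
  have h1 : coef f m = (2 * Real.pi * Complex.I)⁻¹ *
      ∮ z in C(0, R), (1 / (z - 0) ^ (m + 1)) • f z := by
    rw [hC, coef, smul_eq_mul]
    field_simp
  rw [h1, circleIntegral]
  have h2 : ∀ θ : ℝ, deriv (circleMap 0 R) θ • ((1 / (circleMap 0 R θ - 0) ^ (m + 1)) •
      f (circleMap 0 R θ)) = (Complex.I * Real.exp 1) * (f (circleMap 0 R θ) *
        Complex.exp (-(m * θ * Complex.I))) := by
    intro θ
    rw [deriv_circleMap, smul_eq_mul, smul_eq_mul, sub_zero]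
    have h3 : circleMap 0 R θ ≠ 0 := circleMap_ne_center hR0.ne'
    have h4 : (circleMap 0 R θ) ^ m = (Real.exp (-1) : ℂ) * Complex.exp (m * θ * Complex.I) := by
      rw [circleMap, zero_add, mul_pow, ← Complex.exp_nat_mul]
      have : ((R : ℂ)) ^ m = (Real.exp (-1) : ℂ) := by
        rw [← hRm]; push_cast; rfl
      rw [this]
      push_cast
      ring_nf
    have h5 : (1 : ℂ) / (circleMap 0 R θ) ^ m = (Real.exp 1 : ℂ) * Complex.exp (-(m * θ * Complex.I)) := by
      rw [h4, one_div, mul_inv, ← Complex.exp_neg]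
      congr 1
      push_cast
      rw [← Complex.exp_neg, neg_neg]
    have h6 : circleMap 0 R θ * Complex.I * (1 / circleMap 0 R θ ^ (m + 1) * f (circleMap 0 R θ))
        = Complex.I * ((1 : ℂ) / (circleMap 0 R θ) ^ m) * f (circleMap 0 R θ) := by
      rw [pow_succ]
      field_simp
    rw [h6, h5]
    ring
  rw [intervalIntegral.integral_congr (fun θ _ => h2 θ), intervalIntegral.integral_const_mul]
  have hI : Complex.I ≠ 0 := Complex.I_ne_zero
  have hpi' : (Real.pi : ℂ) ≠ 0 := by exact_mod_cast Real.pi_ne_zero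
  push_cast
  field_simp

theorem coef_formula {f : ℂ → ℂ} (hf : DifferentiableOn ℂ f (ball 0 1)) {m : ℕ} (hm : 1 ≤ m) :
    (m : ℂ) * coef f m = (Real.exp 1 / (2 * Real.pi) : ℝ) *
      ∫ t in (-(Real.pi * m))..(Real.pi * m),
        f (Complex.exp ((-1 + t * Complex.I) / m)) * Complex.exp (-(t * Complex.I)) := by
  have hm0 : (0 : ℝ) < m := by exact_mod_cast hm
  have hmC : (m : ℂ) ≠ 0 := by exact_mod_cast hm0.ne'
  set R : ℝ := Real.exp (-1 / m) with hR
  set g : ℝ → ℂ := fun θ => f (circleMap 0 R θ) * Complex.exp (-(m * θ * Complex.I)) with hg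
  have hper : Function.Periodic g (2 * Real.pi) := by
    intro θ
    simp only [hg]
    have h1 : circleMap 0 R (θ + 2 * Real.pi) = circleMap 0 R θ := periodic_circleMap 0 R θ
    rw [h1]
    congr 1
    have h2 : (-(m * ((θ + 2 * Real.pi : ℝ) : ℂ) * Complex.I))
        = -(m * θ * Complex.I) - (m : ℕ) * (2 * Real.pi * Complex.I) := by
      push_cast; ring
    rw [h2, Complex.exp_sub, Complex.exp_nat_mul_two_pi_mul_I, div_one]
  have h1 : ∫ θ in (0 : ℝ)..2 * Real.pi, g θ = ∫ θ in (-Real.pi)..Real.pi, g θ := by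
    have := hper.intervalIntegral_add_eq 0 (-Real.pi)
    rw [zero_add, show -Real.pi + 2 * Real.pi = Real.pi by ring] at this
    exact this
  have h2 : ∫ t in (-(Real.pi * m))..(Real.pi * m),
        f (Complex.exp ((-1 + t * Complex.I) / m)) * Complex.exp (-(t * Complex.I))
      = ∫ t in (-(Real.pi * m))..(Real.pi * m), g (t / m) := by
    apply intervalIntegral.integral_congr
    intro t _
    simp only [hg]
    have h3 : circleMap 0 R (t / m) = Complex.exp ((-1 + t * Complex.I) / m) := by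
      rw [circleMap, zero_add, hR]
      push_cast
      rw [← Complex.exp_add]
      congr 1
      field_simp
    have h4 : (m : ℂ) * ((t / m : ℝ) : ℂ) * Complex.I = t * Complex.I := by
      push_cast
      field_simp
    rw [h3, h4]
  have h5 : ∫ t in (-(Real.pi * m))..(Real.pi * m), g (t / m)
      = (m : ℂ) * ∫ θ in (-Real.pi)..Real.pi, g θ := by
    rw [intervalIntegral.integral_comp_div _ hm0.ne']
    rw [show -(Real.pi * m) / m = -Real.pi by field_simp, show Real.pi * m / m = Real.pi by field_simp]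
    rw [Complex.real_smul]
    push_cast
    rfl
  rw [coef_eq_int hf hm, h2, h5, ← h1]
  ring

theorem coef_norm_le {f : ℂ → ℂ} (hf : DifferentiableOn ℂ f (ball 0 1)) {m : ℕ} (hm : 1 ≤ m) :
    ‖coef f m‖ ≤ Real.exp 1 / (2 * Real.pi) *
      ∫ t in (0 : ℝ)..2 * Real.pi, ‖f (circleMap 0 (Real.exp (-1 / m)) t)‖ := by
  rw [coef_eq_int hf hm, norm_mul, Complex.norm_real, Real.norm_of_nonneg (by positivity)]
  apply mul_le_mul_of_nonneg_left _ (by positivity)
  refine (intervalIntegral.norm_integral_le_integral_norm (by positivity)).trans ?_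
  apply le_of_eq
  apply intervalIntegral.integral_congr
  intro θ _
  simp only
  rw [norm_mul]
  have : ‖Complex.exp (-(m * θ * Complex.I))‖ = 1 := by
    rw [Complex.norm_exp]
    simp
  rw [this, mul_one]

end MPV
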