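import Pool.Agent.MPV.Defs

set_option autoImplicit false

/-!
# MPV POW : powers `f^l`, `0 < l ≤ 1`, of a mean `p`-valent function are mean `l p`-valent

PROOF. Put `u = Re L`, `W s = ∫⁻ z in {z | z ∈ ball 0 1 ∧ u z < s}, ofReal (exp (2 u z) ‖deriv L z‖^2)`,
`W s ≤ π p exp (2 s)`. The claim for `U` is, with `V = U / l`,
`∫⁻ z in {u z < V}, l^2 exp (2 l u) ‖deriv L z‖^2 ≤ π l p exp (2 l V)`.
For `u < V`: `exp (2 l u) = exp (2 u) exp (-(2 - 2 l) u)` and
`exp (-(2 - 2 l) u) = exp (-(2 - 2 l) V) + ∫ s in u..V, (2 - 2 l) exp (-(2 - 2 l) s)`.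
Tonelli (`MeasureTheory.lintegral_lintegral_swap`):
`∫⁻ z in {u z < V}, exp (2 u)‖L'‖^2 * ∫⁻ s in Ioo (u z) V, m s = ∫⁻ s in Iio V, m s * W s`
`≤ ∫⁻ s in Iio V, (2 - 2 l) exp (-(2 - 2 l) s) π p exp (2 s) = π p (2 - 2 l) exp (2 l V)/(2 l)`.
Sum: `π p exp (2 l V) (1 + (1 - l)/l) = π p exp (2 l V)/l`; times `l^2`: `π l p exp (2 l V)`.
(`deriv (fun z => l * L z) = l * deriv L`.)
-/

open MeasureTheory Metric

namespace MPV

/-- layer cake: a measure `ν` with `ν {u < s} ≤ C exp (2 s)` -/
private theorem layer {ν : Measure ℂ} {u : ℂ → ℝ} (hu : AEMeasurable u ν) {C V l : ℝ} (hC : 0 ≤ C)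
    (hl : 0 < l) (hl1 : l ≤ 1) (huV : ∀ᵐ z ∂ν, u z < V)
    (hν : ∀ s : ℝ, s ≤ V → ν {z | u z < s} ≤ ENNReal.ofReal (C * Real.exp (2 * s))) :
    ∫⁻ z, ENNReal.ofReal (Real.exp (-(2 - 2 * l) * u z)) ∂ν ≤
      ENNReal.ofReal (C * Real.exp (2 * l * V) / l) := by
  set a : ℝ := 2 - 2 * l with ha
  have ha0 : 0 ≤ a := by rw [ha]; linarith
  set g : ℝ → ℝ := fun t => a * Real.exp (a * t) with hg
  have hgc : Continuous g := by fun_prop
  have hg0 : ∀ t, 0 ≤ g t := fun t => mul_nonneg ha0 (Real.exp_pos _).le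
  have hint : ∀ x : ℝ, ∫ t in (0 : ℝ)..x, g t = Real.exp (a * x) - 1 := by
    intro x
    have h1 : ∀ t ∈ Set.uIcc 0 x, HasDerivAt (fun t => Real.exp (a * t)) (g t) t := by
      intro t _
      have h2 : HasDerivAt (fun t => a * t) a t := by
        simpa using (hasDerivAt_id t).const_mul a
      have h3 := h2.exp
      rw [mul_comm] at h3
      exact h3
    rw [intervalIntegral.integral_eq_sub_of_hasDerivAt h1 (hgc.intervalIntegrable _ _)]
    simp
  have hf0 : 0 ≤ᵐ[ν] fun z => V - u z := by
    filter_upwards [huV] with z hz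
    simp only [Pi.zero_apply]
    linarith
  have hcake := lintegral_comp_eq_lintegral_meas_lt_mul ν (f := fun z => V - u z) (g := g) hf0
    (aemeasurable_const.sub hu) (fun t _ => hgc.intervalIntegrable _ _)
    (Filter.Eventually.of_forall fun t => hg0 t)
  have hpt : ∀ᵐ z ∂ν, ENNReal.ofReal (Real.exp (-a * u z)) =
      ENNReal.ofReal (Real.exp (-a * V)) *
        (1 + ENNReal.ofReal (∫ t in (0 : ℝ)..(V - u z), g t)) := by
    filter_upwards [huV] with z hz
    have h0 : 0 ≤ Real.exp (a * (V - u z)) - 1 := by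
      have : 1 ≤ Real.exp (a * (V - u z)) := by
        rw [← Real.exp_zero]
        exact Real.exp_le_exp.2 (mul_nonneg ha0 (by linarith))
      linarith
    rw [hint, ← ENNReal.ofReal_one, ← ENNReal.ofReal_add zero_le_one h0,
      ← ENNReal.ofReal_mul (Real.exp_pos _).le]
    congr 1
    rw [add_sub_cancel, ← Real.exp_add]
    congr 1
    ring
  rw [lintegral_congr_ae hpt]
  have hmeas : AEMeasurable (fun z => ENNReal.ofReal (∫ t in (0 : ℝ)..(V - u z), g t)) ν := by
    simp only [hint]
    exact (((measurable_const.mul measurable_id).exp.sub_const 1).comp_aemeasurable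
      (aemeasurable_const.sub hu)).ennreal_ofReal
  have hmeas1 : AEMeasurable (fun z => 1 + ENNReal.ofReal (∫ t in (0 : ℝ)..(V - u z), g t)) ν :=
    aemeasurable_const.add hmeas
  rw [lintegral_const_mul'' _ hmeas1,
    lintegral_add_left' aemeasurable_const, hcake, lintegral_const, one_mul]
  have huniv : ν Set.univ ≤ ENNReal.ofReal (C * Real.exp (2 * V)) := by
    refine le_trans (le_of_eq ?_) (hν V le_rfl)
    refine (measure_eq_measure_of_null_diff (Set.subset_univ _) ?_).symm
    refine measure_mono_null ?_ (ae_iff.1 huV)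
    intro z hz
    exact hz.2
  have hsec : ∫⁻ t in Set.Ioi (0 : ℝ), ν {z | t < V - u z} * ENNReal.ofReal (g t) ≤
      ENNReal.ofReal (C * Real.exp (2 * V) * a * (1 / (2 * l))) := by
    have h1 : ∀ t ∈ Set.Ioi (0 : ℝ), ν {z | t < V - u z} * ENNReal.ofReal (g t) ≤
        ENNReal.ofReal (C * Real.exp (2 * V) * a * Real.exp (-(2 * l) * t)) := by
      intro t ht
      have ht0 : 0 < t := ht
      have h2 : {z | t < V - u z} = {z | u z < V - t} := by
        ext z; simp only [Set.mem_ofPred_eq]
        constructor <;> intro h <;> linarith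
      rw [h2]
      calc ν {z | u z < V - t} * ENNReal.ofReal (g t)
          ≤ ENNReal.ofReal (C * Real.exp (2 * (V - t))) * ENNReal.ofReal (g t) :=
            mul_le_mul_left (hν _ (by linarith)) _
        _ = ENNReal.ofReal (C * Real.exp (2 * (V - t)) * g t) := by
            rw [ENNReal.ofReal_mul (mul_nonneg hC (Real.exp_pos _).le)]
        _ = _ := by
            congr 1
            simp only [hg]
            have h3 : Real.exp (2 * (V - t)) * Real.exp (a * t)
                = Real.exp (2 * V) * Real.exp (-(2 * l) * t) := by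
              rw [← Real.exp_add, ← Real.exp_add]
              congr 1
              rw [ha]; ring
            calc C * Real.exp (2 * (V - t)) * (a * Real.exp (a * t))
                = C * a * (Real.exp (2 * (V - t)) * Real.exp (a * t)) := by ring
              _ = C * Real.exp (2 * V) * a * Real.exp (-(2 * l) * t) := by rw [h3]; ring
    refine (setLIntegral_mono' measurableSet_Ioi h1).trans ?_
    have hneg : -(2 * l) < 0 := by linarith
    rw [← ofReal_integral_eq_lintegral_ofReal]
    · rw [integral_const_mul, integral_exp_mul_Ioi hneg 0]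
      apply le_of_eq
      congr 1
      rw [mul_zero, Real.exp_zero]
      congr 1
      field_simp
    · exact (integrableOn_exp_mul_Ioi hneg 0).const_mul _
    · exact Filter.Eventually.of_forall fun t => by
        simp only [Pi.zero_apply]
        positivity
  calc ENNReal.ofReal (Real.exp (-a * V)) * (ν Set.univ +
        ∫⁻ t in Set.Ioi (0 : ℝ), ν {z | t < V - u z} * ENNReal.ofReal (g t))
      ≤ ENNReal.ofReal (Real.exp (-a * V)) * (ENNReal.ofReal (C * Real.exp (2 * V)) +
        ENNReal.ofReal (C * Real.exp (2 * V) * a * (1 / (2 * l)))) :=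
        mul_le_mul_right (add_le_add huniv hsec) _
    _ = ENNReal.ofReal (C * Real.exp (2 * l * V) / l) := by
        rw [← ENNReal.ofReal_add (by positivity) (by positivity),
          ← ENNReal.ofReal_mul (Real.exp_pos _).le]
        congr 1
        have h4 : Real.exp (2 * l * V) = Real.exp (-a * V) * Real.exp (2 * V) := by
          rw [← Real.exp_add]
          congr 1
          rw [ha]; ring
        rw [h4, ha]
        field_simp
        ring

theorem Cls.pow {p : ℝ} (hp : 0 < p) {L : ℂ → ℂ} (h : Cls p L) {l : ℝ} (hl : 0 < l) (hl1 : l ≤ 1) :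
    Cls (l * p) (fun z => (l : ℂ) * L z) := by
  refine ⟨h.diff.const_mul _, ?_⟩
  intro U
  set V : ℝ := U / l with hV
  have hVU : l * V = U := by rw [hV]; field_simp
  set u : ℂ → ℝ := fun z => (L z).re with hu
  set φ : ℂ → ENNReal := fun z => ENNReal.ofReal (Real.exp (2 * u z) * ‖deriv L z‖ ^ 2) with hφ
  have hLc : ContinuousOn L (ball 0 1) := h.diff.continuousOn
  have huc : ContinuousOn u (ball 0 1) := Complex.continuous_re.comp_continuousOn hLc
  have hdc : ContinuousOn (deriv L) (ball 0 1) := (h.diff.deriv isOpen_ball).continuousOn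
  have hset : {z | z ∈ ball (0 : ℂ) 1 ∧ ((l : ℂ) * L z).re < U} =
      {z | z ∈ ball (0 : ℂ) 1 ∧ u z < V} := by
    ext z
    simp only [Set.mem_ofPred_eq, Complex.re_ofReal_mul, hu]
    rw [hV, lt_div_iff₀ hl, mul_comm]
  rw [hset]
  set S : Set ℂ := {z | z ∈ ball (0 : ℂ) 1 ∧ u z < V} with hS
  have hSB : S ⊆ ball (0 : ℂ) 1 := fun z hz => hz.1
  have hSm : MeasurableSet S := (huc.isOpen_inter_preimage isOpen_ball isOpen_Iio).measurableSet
  have huS : AEMeasurable u (volume.restrict S) :=
    (huc.mono hSB).aemeasurable hSm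
  have hφS : AEMeasurable φ (volume.restrict S) := by
    apply AEMeasurable.ennreal_ofReal
    apply ContinuousOn.aemeasurable _ hSm
    exact ((Real.continuous_exp.comp_continuousOn ((huc.mono hSB).const_mul 2))).mul
      ((hdc.mono hSB).norm.pow 2)
  set ν : Measure ℂ := (volume.restrict S).withDensity φ with hνdef
  have hac : ν ≪ volume.restrict S := withDensity_absolutelyContinuous _ _
  have huν : AEMeasurable u ν := huS.mono_ac hac
  have huV : ∀ᵐ z ∂ν, u z < V := by
    apply hac.ae_le
    filter_upwards [ae_restrict_mem hSm] with z hz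
    exact hz.2
  have hνs : ∀ s : ℝ, s ≤ V → ν {z | u z < s} ≤
      ENNReal.ofReal (Real.pi * p * Real.exp (2 * s)) := by
    intro s _
    rw [hνdef, withDensity_apply', Measure.restrict_restrict' hSm]
    refine (lintegral_mono_set ?_).trans (h.area s)
    rintro z ⟨hz1, hz2⟩
    exact ⟨hz2.1, hz1⟩
  have hlay := layer huν (C := Real.pi * p) (by positivity) hl hl1 huV hνs
  have hrw : ∫⁻ z in S, ENNReal.ofReal (Real.exp (2 * ((l : ℂ) * L z).re) *
        ‖deriv (fun z => (l : ℂ) * L z) z‖ ^ 2)
      = ENNReal.ofReal (l ^ 2) * ∫⁻ z, ENNReal.ofReal (Real.exp (-(2 - 2 * l) * u z)) ∂ν := by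
    have hhS : AEMeasurable (fun z => ENNReal.ofReal (Real.exp (-(2 - 2 * l) * u z)))
        (volume.restrict S) :=
      ((measurable_const.mul measurable_id).exp.comp_aemeasurable huS).ennreal_ofReal
    rw [hνdef, lintegral_withDensity_eq_lintegral_mul₀ hφS hhS,
      ← lintegral_const_mul'' _ (hφS.mul hhS)]
    refine setLIntegral_congr_fun hSm ?_
    intro z hz
    simp only [Pi.mul_apply]
    have hdz : deriv (fun z => (l : ℂ) * L z) z = (l : ℂ) * deriv L z :=
      deriv_const_mul_field _
    rw [hdz, Complex.re_ofReal_mul]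
    simp only [hφ]
    rw [← ENNReal.ofReal_mul (by positivity), ← ENNReal.ofReal_mul (by positivity)]
    congr 1
    rw [norm_mul, Complex.norm_real, Real.norm_of_nonneg hl.le]
    have h5 : Real.exp (2 * (l * (L z).re)) = Real.exp (2 * u z) *
        Real.exp (-(2 - 2 * l) * u z) := by
      rw [← Real.exp_add]
      congr 1
      simp only [hu]
      ring
    rw [h5]
    ring
  rw [hrw]
  calc ENNReal.ofReal (l ^ 2) * ∫⁻ z, ENNReal.ofReal (Real.exp (-(2 - 2 * l) * u z)) ∂ν
      ≤ ENNReal.ofReal (l ^ 2) * ENNReal.ofReal (Real.pi * p * Real.exp (2 * l * V) / l) :=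
        mul_le_mul_right hlay _
    _ = ENNReal.ofReal (Real.pi * (l * p) * Real.exp (2 * U)) := by
        rw [← ENNReal.ofReal_mul (by positivity)]
        congr 1
        rw [mul_assoc 2 l V, hVU]
        field_simp

end MPV
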