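import Pool.Agent.MPV.Defs

set_option autoImplicit false

/-!
# MPV SPH : the spherical area of a mean `1/2`-valent function is at most `2 π`

PROOF. Put `u = Re H`, `g = exp ∘ H`, `‖g‖ = exp u`, `deriv g z = exp (H z) deriv H z` on the ball, so
`KK g z = (4/(1 + exp (2u))^2) * exp (2 u) ‖deriv H z‖^2`. With `y = exp (2 U)`
`4/(1 + exp (2u))^2 = ∫ U in Ioi u, 16 exp (2U)/(1 + exp (2U))^3` (derivative of `4 (1 + exp (2U))^(-2)`).
Tonelli: `∫⁻ KK g = ∫⁻ U, 16 exp (2U)/(1 + exp(2U))^3 * ∫⁻ z in {u z < U}, exp (2u)‖deriv H z‖^2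
≤ ∫⁻ U, 16 exp (2U)/(1+exp(2U))^3 * (π/2) exp (2U) = 8 π ∫ exp(4U)/(1+exp(2U))^3 dU = 2 π`, because
`exp(4U)/(1+exp(2U))^3` has the primitive `(1/4) (exp(2U)/(1+exp(2U)))^2` (derivative of `(y/(1+y))^2/4` with
`dy = 2 y dU`: `(1/2)(y/(1+y)) * (1/(1+y)^2) * 2 y = y^2/(1+y)^3`), from `0` at `-∞` to `1/4` at `∞`.
-/

open MeasureTheory Metric

namespace MPV

private lemma sph_tend0 : Filter.Tendsto (fun U : ℝ => -4 / (1 + Real.exp (2 * U)) ^ 2) Filter.atTop
    (nhds 0) := by
  have h1 : Filter.Tendsto (fun U : ℝ => 1 + Real.exp (2 * U)) Filter.atTop Filter.atTop :=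
    Filter.tendsto_atTop_add_const_left _ _
      (Real.tendsto_exp_atTop.comp (Filter.tendsto_id.const_mul_atTop (by norm_num)))
  exact Filter.Tendsto.div_atTop tendsto_const_nhds
    ((Filter.tendsto_pow_atTop (by norm_num)).comp h1)

private lemma sph_deriv1 (x : ℝ) : HasDerivAt (fun U : ℝ => -4 / (1 + Real.exp (2 * U)) ^ 2)
    (16 * Real.exp (2 * x) / (1 + Real.exp (2 * x)) ^ 3) x := by
  have he : HasDerivAt (fun U : ℝ => 1 + Real.exp (2 * U)) (Real.exp (2 * x) * 2) x := by
    have h1 : HasDerivAt (fun U : ℝ => 2 * U) 2 x := by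
      simpa using (hasDerivAt_id x).const_mul 2
    exact (h1.exp).const_add 1
  have hne : (1 + Real.exp (2 * x)) ≠ 0 := by positivity
  have h2 := ((he.pow 2).inv (pow_ne_zero 2 hne)).const_mul (-4)
  refine HasDerivAt.congr_deriv (h2.congr_of_eventuallyEq ?_) ?_
  · exact Filter.Eventually.of_forall (fun w => by simp [div_eq_mul_inv])
  · simp only [Nat.cast_ofNat, Pi.pow_apply]
    field_simp
    ring

private lemma sph_layer (u : ℝ) :
    ∫⁻ U in Set.Ioi u, ENNReal.ofReal (16 * Real.exp (2 * U) / (1 + Real.exp (2 * U)) ^ 3) =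
      ENNReal.ofReal (4 / (1 + Real.exp (2 * u)) ^ 2) := by
  have hpos : ∀ x ∈ Set.Ioi u, 0 ≤ 16 * Real.exp (2 * x) / (1 + Real.exp (2 * x)) ^ 3 :=
    fun x _ => by positivity
  have hint := integrableOn_Ioi_deriv_of_nonneg' (a := u) (fun x _ => sph_deriv1 x) hpos sph_tend0
  have hval := integral_Ioi_of_hasDerivAt_of_nonneg' (a := u) (fun x _ => sph_deriv1 x) hpos
    sph_tend0
  rw [← ofReal_integral_eq_lintegral_ofReal hint]
  · rw [hval]
    congr 1
    ring
  · rw [Filter.EventuallyLE, ae_restrict_iff' measurableSet_Ioi]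
    exact Filter.Eventually.of_forall hpos

private lemma sph_deriv2 (x : ℝ) : HasDerivAt
    (fun U : ℝ => 2 * Real.pi * (1 - 1 / (1 + Real.exp (2 * U))) ^ 2)
    (8 * Real.pi * Real.exp (4 * x) / (1 + Real.exp (2 * x)) ^ 3) x := by
  have he : HasDerivAt (fun U : ℝ => 1 + Real.exp (2 * U)) (Real.exp (2 * x) * 2) x := by
    have h1 : HasDerivAt (fun U : ℝ => 2 * U) 2 x := by
      simpa using (hasDerivAt_id x).const_mul 2
    exact (h1.exp).const_add 1
  have hne : (1 + Real.exp (2 * x)) ≠ 0 := by positivity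
  have h2 := ((((he.inv hne).const_sub 1).pow 2).const_mul (2 * Real.pi))
  refine HasDerivAt.congr_deriv (h2.congr_of_eventuallyEq ?_) ?_
  · exact Filter.Eventually.of_forall (fun w => by simp [one_div])
  · have h4 : Real.exp (4 * x) = Real.exp (2 * x) * Real.exp (2 * x) := by
      rw [← Real.exp_add]; congr 1; ring
    rw [h4]
    simp only [Pi.inv_apply, Nat.cast_ofNat, Nat.add_one_sub_one, pow_one]
    field_simp
    ring

private lemma sph_tend2 : Filter.Tendsto
    (fun U : ℝ => 2 * Real.pi * (1 - 1 / (1 + Real.exp (2 * U))) ^ 2) Filter.atTop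
    (nhds (2 * Real.pi)) := by
  have h1 : Filter.Tendsto (fun U : ℝ => 1 + Real.exp (2 * U)) Filter.atTop Filter.atTop :=
    Filter.tendsto_atTop_add_const_left _ _
      (Real.tendsto_exp_atTop.comp (Filter.tendsto_id.const_mul_atTop (by norm_num)))
  have h2 : Filter.Tendsto (fun U : ℝ => 1 / (1 + Real.exp (2 * U))) Filter.atTop (nhds 0) :=
    Filter.Tendsto.div_atTop tendsto_const_nhds h1
  have h3 := ((h2.const_sub 1).pow 2).const_mul (2 * Real.pi)
  simpa using h3

private lemma sph_total :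
    ∫⁻ U : ℝ, ENNReal.ofReal (8 * Real.pi * Real.exp (4 * U) / (1 + Real.exp (2 * U)) ^ 3) ≤
      ENNReal.ofReal (2 * Real.pi) := by
  have hpi := Real.pi_pos
  have hcov : AECover (volume : Measure ℝ) Filter.atTop (fun n : ℕ => Set.Ioi (-(n : ℝ))) :=
    aecover_Ioi (Filter.tendsto_neg_atTop_atBot.comp tendsto_natCast_atTop_atTop)
  have hmeas : Measurable fun U : ℝ =>
      ENNReal.ofReal (8 * Real.pi * Real.exp (4 * U) / (1 + Real.exp (2 * U)) ^ 3) := by
    fun_prop
  refine le_of_tendsto (hcov.lintegral_tendsto_of_countably_generated hmeas.aemeasurable)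
    (Filter.Eventually.of_forall (fun n => ?_))
  have hpos : ∀ x ∈ Set.Ioi (-(n : ℝ)),
      0 ≤ 8 * Real.pi * Real.exp (4 * x) / (1 + Real.exp (2 * x)) ^ 3 :=
    fun x _ => by positivity
  have hint := integrableOn_Ioi_deriv_of_nonneg' (a := -(n : ℝ)) (fun x _ => sph_deriv2 x) hpos
    sph_tend2
  have hval := integral_Ioi_of_hasDerivAt_of_nonneg' (a := -(n : ℝ)) (fun x _ => sph_deriv2 x)
    hpos sph_tend2
  rw [← ofReal_integral_eq_lintegral_ofReal hint]
  · rw [hval]
    refine ENNReal.ofReal_le_ofReal ?_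
    have : 0 ≤ 2 * Real.pi * (1 - 1 / (1 + Real.exp (2 * -(n : ℝ)))) ^ 2 := by positivity
    linarith
  · rw [Filter.EventuallyLE, ae_restrict_iff' measurableSet_Ioi]
    exact Filter.Eventually.of_forall hpos

theorem Cls.sph {H : ℂ → ℂ} (h : Cls (1 / 2) H) :
    ∫⁻ z in ball (0 : ℂ) 1, ENNReal.ofReal (KK (fun y => Complex.exp (H y)) z) ≤
      ENNReal.ofReal (2 * Real.pi) := by
  classical
  -- a measurable version of `Re H`
  set u : ℂ → ℝ := fun z => ((ball (0 : ℂ) 1).piecewise H (fun _ => 0) z).re with hu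
  have huM : Measurable u := by
    refine Complex.measurable_re.comp ?_
    exact (h.diff.continuousOn).measurable_piecewise continuousOn_const measurableSet_ball
  have huB : ∀ z ∈ ball (0 : ℂ) 1, u z = (H z).re := by
    intro z hz
    simp only [hu]
    rw [Set.piecewise_eq_of_mem _ _ _ hz]
  set w : ℂ → ENNReal := fun z => ENNReal.ofReal (Real.exp (2 * u z) * ‖deriv H z‖ ^ 2) with hw
  have hwM : Measurable w := by
    have h1 : Measurable (deriv H) := measurable_deriv H
    simp only [hw]
    fun_prop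
  set k : ℝ → ENNReal := fun U =>
    ENNReal.ofReal (16 * Real.exp (2 * U) / (1 + Real.exp (2 * U)) ^ 3) with hk
  have hkM : Measurable k := by
    simp only [hk]
    fun_prop
  have h1 : ∫⁻ z in ball (0 : ℂ) 1, ENNReal.ofReal (KK (fun y => Complex.exp (H y)) z) =
      ∫⁻ z in ball (0 : ℂ) 1, ∫⁻ U : ℝ, (if u z < U then w z * k U else 0) := by
    refine setLIntegral_congr_fun measurableSet_ball (fun z hz => ?_)
    have hd : deriv (fun y => Complex.exp (H y)) z = Complex.exp (H z) * deriv H z := by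
      have h2 : DifferentiableAt ℂ H z := h.diff.differentiableAt (isOpen_ball.mem_nhds hz)
      exact (h2.hasDerivAt.cexp).deriv
    have h3 : KK (fun y => Complex.exp (H y)) z =
        (Real.exp (2 * u z) * ‖deriv H z‖ ^ 2) * (4 / (1 + Real.exp (2 * u z)) ^ 2) := by
      unfold KK
      rw [hd, norm_mul, Complex.norm_exp, ← huB z hz]
      have h4 : Real.exp (2 * u z) = Real.exp (u z) ^ 2 := by
        rw [← Real.exp_nat_mul]; congr 1
      rw [h4]
      ring
    rw [h3, ENNReal.ofReal_mul (by positivity), ← sph_layer (u z)]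
    rw [← lintegral_indicator measurableSet_Ioi, ← lintegral_const_mul _
      ((by fun_prop : Measurable fun U : ℝ =>
        ENNReal.ofReal (16 * Real.exp (2 * U) / (1 + Real.exp (2 * U)) ^ 3)).indicator
        measurableSet_Ioi)]
    refine lintegral_congr (fun U => ?_)
    by_cases hU : u z < U
    · rw [if_pos hU, Set.indicator_of_mem (show U ∈ Set.Ioi (u z) from hU)]
    · rw [if_neg hU, Set.indicator_of_notMem (show U ∉ Set.Ioi (u z) from hU), mul_zero]
  rw [h1, lintegral_lintegral_swap]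
  · refine le_trans (lintegral_mono (fun U => ?_)) sph_total
    show ∫⁻ z in ball (0 : ℂ) 1, (if u z < U then w z * k U else 0) ≤ _
    have hset : MeasurableSet {z : ℂ | u z < U} := measurableSet_lt huM measurable_const
    have h5 : ∫⁻ z in ball (0 : ℂ) 1, (if u z < U then w z * k U else 0) =
        (∫⁻ z in {z | z ∈ ball (0 : ℂ) 1 ∧ (H z).re < U},
          ENNReal.ofReal (Real.exp (2 * (H z).re) * ‖deriv H z‖ ^ 2)) * k U := by
      have h6 : ∀ z, (if u z < U then w z * k U else 0) =
          {z : ℂ | u z < U}.indicator (fun z => w z * k U) z := by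
        intro z
        by_cases hz : u z < U
        · rw [if_pos hz, Set.indicator_of_mem (show z ∈ {z : ℂ | u z < U} from hz)]
        · rw [if_neg hz, Set.indicator_of_notMem (show z ∉ {z : ℂ | u z < U} from hz)]
      simp_rw [h6]
      rw [lintegral_indicator hset, Measure.restrict_restrict hset,
        lintegral_mul_const _ hwM]
      have h7 : {z : ℂ | u z < U} ∩ ball (0 : ℂ) 1 =
          {z | z ∈ ball (0 : ℂ) 1 ∧ (H z).re < U} := by
        ext z
        constructor
        · rintro ⟨h8, h9⟩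
          refine ⟨h9, ?_⟩
          rw [← huB z h9]; exact h8
        · rintro ⟨h8, h9⟩
          refine ⟨?_, h8⟩
          show u z < U
          rw [huB z h8]; exact h9
      rw [h7]
      congr 1
      refine setLIntegral_congr_fun ?_ (fun z hz => ?_)
      · rw [← h7]; exact hset.inter measurableSet_ball
      · simp only [hw]
        rw [huB z hz.1]
    rw [h5]
    refine (mul_le_mul_left (h.area U) _).trans ?_
    simp only [hk]
    rw [← ENNReal.ofReal_mul (by positivity)]
    refine ENNReal.ofReal_le_ofReal (le_of_eq ?_)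
    have h4 : Real.exp (4 * U) = Real.exp (2 * U) * Real.exp (2 * U) := by
      rw [← Real.exp_add]; congr 1; ring
    rw [h4]
    ring
  · refine Measurable.aemeasurable ?_
    refine Measurable.ite ?_ ?_ measurable_const
    · exact measurableSet_lt (huM.comp measurable_fst) measurable_snd
    · exact (hwM.comp measurable_fst).mul (hkM.comp measurable_snd)

end MPV
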