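import Pool.Agent.MPV.Trf
import Pool.Agent.MPV.Pow
import Pool.Agent.MPV.Sph
import Pool.Agent.Helper88.GrDuf

set_option autoImplicit false

/-!
# MPV GRO : sharp distortion and growth (`p ≥ 1/2`)

PROOFS.
`deriv_zero_le` (point `0`): let `M z = L z - Re L 0` (`Cls.add_const`), `H z = (1/(2p)) M z` is in
`Cls (1/2)` by `Cls.pow` with `l = 1/(2p) ≤ 1`. `Cls.sph` and Dufresnoy's theorem for zero free
functions (`Pool.Agent.Helper88.Gr.dufresnoy`, for `2 H`): `‖deriv H 0‖ ≤ 2`, so `‖deriv L 0‖ ≤ 4p`.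
`Cls.deriv_le`: apply this to `y ↦ L (mob z y)` (`Cls.mob`), whose derivative at `0` is
`deriv L z * (1 - ‖z‖^2)` (`deriv_mob_zero`, `mob z 0 = z`).
`Cls.growth`: `s ↦ Re L (s z)`, `s ∈ [0,1]`, has derivative at most
`‖z‖ 4p/(1 - s^2 ‖z‖^2)` in absolute value, which is the derivative of
`2p log ((1 + s‖z‖)/(1 - s‖z‖))`.
`Cls.lip`: `Λ Z = L (cay Z)` on `Re Z > 0`: `deriv cay Z = -2/(1+Z)^2`,
`1 - ‖cay Z‖^2 = 4 Re Z/‖1 + Z‖^2`, so `‖deriv Λ Z‖ ≤ 2p/Re Z ≤ 2p/c` on the convex set `c ≤ Re Z`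
(`Convex.norm_image_sub_le_of_norm_deriv_le`).
-/

open MeasureTheory Metric

namespace MPV

theorem Cls.hasDerivAt {p : ℝ} {L : ℂ → ℂ} (h : Cls p L) {z : ℂ} (hz : z ∈ ball (0 : ℂ) 1) :
    HasDerivAt L (deriv L z) z :=
  (h.diff.differentiableAt (isOpen_ball.mem_nhds hz)).hasDerivAt

theorem deriv_zero_le {p : ℝ} (hp : 1 / 2 ≤ p) {L : ℂ → ℂ} (h : Cls p L) :
    ‖deriv L 0‖ ≤ 4 * p := by
  have hp0 : 0 < p := by linarith
  have h0 : (0 : ℂ) ∈ ball (0 : ℂ) 1 := mem_ball_self one_pos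
  have hM : Cls p (fun z => L z + ((-(L 0).re : ℝ) : ℂ)) := h.add_const _
  have hl : 0 < 1 / (2 * p) := by positivity
  have hl1 : 1 / (2 * p) ≤ 1 := by
    rw [div_le_one (by positivity)]
    linarith
  have hH := Cls.pow hp0 hM hl hl1
  have hlp : 1 / (2 * p) * p = 1 / 2 := by field_simp
  rw [hlp] at hH
  have hsph := hH.sph
  set H : ℂ → ℂ := fun z => ((1 / (2 * p) : ℝ) : ℂ) * (L z + ((-(L 0).re : ℝ) : ℂ)) with hHdef
  have hd : ∀ z ∈ ball (0 : ℂ) 1, HasDerivAt H (((1 / (2 * p) : ℝ) : ℂ) * deriv L z) z := by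
    intro z hz
    exact ((h.hasDerivAt hz).add_const _).const_mul _
  have hdiff : DifferentiableOn ℂ (fun z => 2 * H z) (ball 0 1) := fun z hz =>
    ((hd z hz).const_mul 2).differentiableAt.differentiableWithinAt
  have hre : ((fun z => 2 * H z) 0).re = 0 := by
    have : H 0 = ((1 / (2 * p) : ℝ) : ℂ) * (L 0 + ((-(L 0).re : ℝ) : ℂ)) := rfl
    show (2 * H 0).re = 0
    rw [this, ← mul_assoc]
    have h2 : (2 : ℂ) * ((1 / (2 * p) : ℝ) : ℂ) = ((2 * (1 / (2 * p)) : ℝ) : ℂ) := by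
      push_cast
      ring
    rw [h2, Complex.re_ofReal_mul, Complex.add_re, Complex.ofReal_re]
    ring
  have hduf := Pool.Agent.Helper88.Gr.dufresnoy hdiff hre (by
    refine le_trans (le_of_eq ?_) (show (∫⁻ z in ball (0 : ℂ) 1,
      ENNReal.ofReal (KK (fun y => Complex.exp (H y)) z)) ≤ ENNReal.ofReal (2 * Real.pi) from hsph)
    refine setLIntegral_congr_fun measurableSet_ball fun z hz => ?_
    congr 1
    unfold Pool.Agent.Helper88.Gr.wd KK
    have e1 : deriv (fun z => 2 * H z) z = 2 * (((1 / (2 * p) : ℝ) : ℂ) * deriv L z) :=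
      ((hd z hz).const_mul 2).deriv
    have e2 : deriv (fun y => Complex.exp (H y)) z =
        Complex.exp (H z) * (((1 / (2 * p) : ℝ) : ℂ) * deriv L z) := (hd z hz).cexp.deriv
    have e3 : (2 * H z).re = 2 * (H z).re := by
      simp
    have e4 : Real.exp (2 * (H z).re) = Real.exp (H z).re ^ 2 := by
      rw [← Real.exp_nat_mul]
      norm_num
    rw [e1, e2, e3, e4]
    simp only [norm_mul, Complex.norm_exp, Complex.norm_ofNat]
    ring)
  have e1 : deriv (fun z => 2 * H z) 0 = 2 * (((1 / (2 * p) : ℝ) : ℂ) * deriv L 0) :=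
    ((hd 0 h0).const_mul 2).deriv
  rw [e1, norm_mul, norm_mul, Complex.norm_ofNat, Complex.norm_real, Real.norm_eq_abs,
    abs_of_pos hl] at hduf
  have e5 : 2 * (1 / (2 * p) * ‖deriv L 0‖) = ‖deriv L 0‖ / p := by
    field_simp
  rw [e5, div_le_iff₀ hp0] at hduf
  exact hduf

theorem Cls.deriv_le {p : ℝ} (hp : 1 / 2 ≤ p) {L : ℂ → ℂ} (h : Cls p L) {z : ℂ}
    (hz : z ∈ ball (0 : ℂ) 1) : ‖deriv L z‖ * (1 - ‖z‖ ^ 2) ≤ 4 * p := by
  have hz1 : ‖z‖ < 1 := by simpa using hz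
  have h0 : (0 : ℂ) ∈ ball (0 : ℂ) 1 := mem_ball_self one_pos
  have h1 := deriv_zero_le hp (h.mob hz1)
  have hm0 : MPV.mob z 0 = z := by
    unfold MPV.mob
    simp
  have hmd : HasDerivAt (MPV.mob z) (deriv (MPV.mob z) 0) 0 :=
    ((mob_differentiableOn hz1).differentiableAt (isOpen_ball.mem_nhds h0)).hasDerivAt
  have hLd : HasDerivAt L (deriv L z) (MPV.mob z 0) := by
    rw [hm0]
    exact h.hasDerivAt hz
  have h2 : deriv (fun y => L (MPV.mob z y)) 0 = deriv L z * deriv (MPV.mob z) 0 :=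
    (hLd.comp 0 hmd).deriv
  have h3 : 0 ≤ 1 - ‖z‖ ^ 2 := by
    have := norm_nonneg z
    nlinarith
  rw [h2, deriv_mob_zero hz1, norm_mul, Complex.norm_real, Real.norm_eq_abs, abs_of_nonneg h3] at h1
  exact h1

theorem Cls.growth {p : ℝ} (hp : 1 / 2 ≤ p) {L : ℂ → ℂ} (h : Cls p L) {z : ℂ}
    (hz : z ∈ ball (0 : ℂ) 1) :
    |(L z).re - (L 0).re| ≤ 2 * p * Real.log ((1 + ‖z‖) / (1 - ‖z‖)) := by
  have hz1 : ‖z‖ < 1 := by simpa using hz
  have hn : 0 ≤ ‖z‖ := norm_nonneg z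
  set a : ℝ := ‖z‖ with ha
  have hmem : ∀ s ∈ Set.Icc (0 : ℝ) 1, (s : ℂ) * z ∈ ball (0 : ℂ) 1 := by
    intro s hs
    rw [mem_ball_zero_iff, norm_mul, Complex.norm_real, Real.norm_eq_abs, abs_of_nonneg hs.1]
    nlinarith [hs.2]
  have hd : ∀ s ∈ Set.Icc (0 : ℝ) 1, HasDerivAt (fun s : ℝ => (L (s * z)).re - (L 0).re)
      (z * deriv L (s * z)).re s := by
    intro s hs
    have h1 : HasDerivAt (fun s : ℂ => s * z) z (s : ℂ) := by
      simpa using (hasDerivAt_id (s : ℂ)).mul_const z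
    have h2 : HasDerivAt (fun s : ℂ => L (s * z)) (deriv L (s * z) * z) (s : ℂ) :=
      (h.hasDerivAt (hmem s hs)).comp (s : ℂ) h1
    have h3 := (h2.real_of_complex).sub_const (L 0).re
    rw [mul_comm] at h3
    exact h3
  have hpos : ∀ s ∈ Set.Icc (0 : ℝ) 1, 0 < 1 + s * a ∧ 0 < 1 - s * a := by
    intro s hs
    constructor <;> nlinarith [hs.1, hs.2]
  have hB : ∀ s ∈ Set.Icc (0 : ℝ) 1, HasDerivAt
      (fun s : ℝ => 2 * p * (Real.log (1 + s * a) - Real.log (1 - s * a)))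
      (2 * p * (a / (1 + s * a) - (-a) / (1 - s * a))) s := by
    intro s hs
    obtain ⟨h1, h2⟩ := hpos s hs
    have d0 : HasDerivAt (fun s : ℝ => s * a) a s := by
      simpa using (hasDerivAt_id s).mul_const a
    have d1 : HasDerivAt (fun s : ℝ => 1 + s * a) a s := d0.const_add 1
    have d2 : HasDerivAt (fun s : ℝ => 1 - s * a) (-a) s := d0.const_sub 1
    exact ((d1.log h1.ne').sub (d2.log h2.ne')).const_mul (2 * p)
  have hmain := image_norm_le_of_norm_deriv_right_le_deriv_boundary' (a := 0) (b := 1)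
    (f := fun s : ℝ => (L (s * z)).re - (L 0).re) (f' := fun s : ℝ => (z * deriv L (s * z)).re)
    (B := fun s : ℝ => 2 * p * (Real.log (1 + s * a) - Real.log (1 - s * a)))
    (B' := fun s : ℝ => 2 * p * (a / (1 + s * a) - (-a) / (1 - s * a)))
    (fun s hs => (hd s hs).continuousAt.continuousWithinAt)
    (fun s hs => (hd s ⟨hs.1, hs.2.le⟩).hasDerivWithinAt) (by simp)
    (fun s hs => (hB s hs).continuousAt.continuousWithinAt)
    (fun s hs => (hB s ⟨hs.1, hs.2.le⟩).hasDerivWithinAt) (by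
      intro s hs
      have hs' : s ∈ Set.Icc (0 : ℝ) 1 := ⟨hs.1, hs.2.le⟩
      obtain ⟨h1, h2⟩ := hpos s hs'
      have h3 := h.deriv_le hp (hmem s hs')
      rw [norm_mul, Complex.norm_real, Real.norm_eq_abs, abs_of_nonneg hs.1] at h3
      have h4 : (1 + s * a) * (1 - s * a) = 1 - (s * a) ^ 2 := by ring
      have h5 : 0 < 1 - (s * a) ^ 2 := by rw [← h4]; positivity
      have h6 : ‖deriv L (s * z)‖ ≤ 4 * p / (1 - (s * a) ^ 2) := by
        rw [le_div_iff₀ h5]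
        exact h3
      calc ‖(z * deriv L (s * z)).re‖ ≤ ‖z * deriv L (s * z)‖ := by
            rw [Real.norm_eq_abs]
            exact Complex.abs_re_le_norm _
        _ = a * ‖deriv L (s * z)‖ := norm_mul _ _
        _ ≤ a * (4 * p / (1 - (s * a) ^ 2)) := mul_le_mul_of_nonneg_left h6 hn
        _ = 2 * p * (a / (1 + s * a) - (-a) / (1 - s * a)) := by
            have e : a / (1 + s * a) - (-a) / (1 - s * a) =
                (2 * a) / ((1 + s * a) * (1 - s * a)) := by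
              rw [div_sub_div _ _ h1.ne' h2.ne']
              congr 1
              ring
            rw [← h4, e]
            ring) (Set.right_mem_Icc.2 zero_le_one)
  rw [Complex.ofReal_one, one_mul, one_mul, Real.norm_eq_abs] at hmain
  rw [Real.log_div (by linarith) (by linarith)]
  exact hmain

theorem Cls.lip {p : ℝ} (hp : 1 / 2 ≤ p) {L : ℂ → ℂ} (h : Cls p L) {Z W : ℂ} {c : ℝ} (hc : 0 < c)
    (hZ : c ≤ Z.re) (hW : c ≤ W.re) :
    ‖L (cay Z) - L (cay W)‖ ≤ 2 * p / c * ‖Z - W‖ := by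
  have key : ∀ X : ℂ, c ≤ X.re → 1 + X ≠ 0 ∧ 1 - ‖cay X‖ ^ 2 = 4 * X.re / ‖1 + X‖ ^ 2 := by
    intro X hX
    have h1 : 1 + X ≠ 0 := by
      intro h0
      have := congrArg Complex.re h0
      rw [Complex.add_re, Complex.one_re, Complex.zero_re] at this
      linarith
    refine ⟨h1, ?_⟩
    have h2 : 0 < ‖1 + X‖ := norm_pos_iff.2 h1
    unfold cay
    rw [norm_div, div_pow, eq_div_iff (by positivity), sub_mul, one_mul,
      div_mul_cancel₀ _ (by positivity)]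
    rw [← Complex.normSq_eq_norm_sq, ← Complex.normSq_eq_norm_sq, Complex.normSq_apply,
      Complex.normSq_apply]
    simp only [Complex.add_re, Complex.one_re, Complex.add_im, Complex.one_im, Complex.sub_re,
      Complex.sub_im]
    ring
  have hball : ∀ X : ℂ, c ≤ X.re → cay X ∈ ball (0 : ℂ) 1 := by
    intro X hX
    obtain ⟨h1, h2⟩ := key X hX
    rw [mem_ball_zero_iff]
    have h3 : 0 < ‖1 + X‖ := norm_pos_iff.2 h1
    have h4 : 0 < 4 * X.re / ‖1 + X‖ ^ 2 := by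
      have : 0 < X.re := by linarith
      positivity
    rw [← h2] at h4
    nlinarith [norm_nonneg (cay X)]
  have hder : ∀ X : ℂ, c ≤ X.re → HasDerivAt (fun X => L (cay X))
      (deriv L (cay X) * (-2 / (1 + X) ^ 2)) X := by
    intro X hX
    obtain ⟨h1, -⟩ := key X hX
    have d1 : HasDerivAt (fun X : ℂ => 1 - X) (-1) X := (hasDerivAt_id X).const_sub 1
    have d2 : HasDerivAt (fun X : ℂ => 1 + X) 1 X := (hasDerivAt_id X).const_add 1
    have d3 : HasDerivAt cay (-2 / (1 + X) ^ 2) X := by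
      refine (d1.div d2 h1).congr_deriv ?_
      ring
    exact (h.hasDerivAt (hball X hX)).comp X d3
  refine Convex.norm_image_sub_le_of_norm_hasDerivWithin_le (s := {X : ℂ | c ≤ X.re})
    (f := fun X => L (cay X)) (f' := fun X => deriv L (cay X) * (-2 / (1 + X) ^ 2))
    (C := 2 * p / c) (fun X hX => (hder X hX).hasDerivWithinAt) ?_ (convex_halfSpace_re_ge c)
    hW hZ
  intro X hX
  have hX' : c ≤ X.re := hX
  obtain ⟨h1, h2⟩ := key X hX'
  have h3 : 0 < ‖1 + X‖ := norm_pos_iff.2 h1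
  have h4 := h.deriv_le hp (hball X hX')
  rw [h2] at h4
  have hXp : 0 < X.re := by linarith
  have hp0 : 0 < p := by linarith
  have h5 : ‖deriv L (cay X)‖ ≤ p * ‖1 + X‖ ^ 2 / X.re := by
    rw [le_div_iff₀ hXp]
    have h6 : ‖deriv L (cay X)‖ * (4 * X.re / ‖1 + X‖ ^ 2) * ‖1 + X‖ ^ 2 ≤ 4 * p * ‖1 + X‖ ^ 2 :=
      mul_le_mul_of_nonneg_right h4 (by positivity)
    have h7 : ‖deriv L (cay X)‖ * (4 * X.re / ‖1 + X‖ ^ 2) * ‖1 + X‖ ^ 2 =
        4 * (‖deriv L (cay X)‖ * X.re) := by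
      field_simp
    rw [h7] at h6
    linarith
  calc ‖deriv L (cay X) * (-2 / (1 + X) ^ 2)‖ = ‖deriv L (cay X)‖ * (2 / ‖1 + X‖ ^ 2) := by
        rw [norm_mul, norm_div, norm_neg, norm_pow, Complex.norm_ofNat]
    _ ≤ (p * ‖1 + X‖ ^ 2 / X.re) * (2 / ‖1 + X‖ ^ 2) := by gcongr
    _ = 2 * p / X.re := by field_simp
    _ ≤ 2 * p / c := by gcongr

end MPV
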