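import Pool.Agent.MPV.Defs

set_option autoImplicit false

/-!
# MPV ENE : Dirichlet energy between two levels

PROOF. `u = Re L`. For `a < u < b`: `exp (-2u) = exp (-2b) + ∫ s in u..b, 2 exp (-2s)`. So with
`W s = ∫⁻ z in {u z < s}, exp (2u) ‖deriv L z‖^2 ≤ π p exp (2s)` and Tonelli
`∫⁻ z in {a < u < b}, ‖deriv L z‖^2 = ∫⁻ z in {a < u < b}, (exp (2u)‖deriv L z‖^2) exp (-2u)
≤ exp (-2b) W b + ∫⁻ s in Ioo a b, 2 exp (-2s) W s ≤ π p + 2 π p (b - a)`.
-/

open MeasureTheory Metric

namespace MPV

private lemma ene_layer {v b : ℝ} (hvb : v ≤ b) :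
    ∫⁻ s in Set.Ioo v b, ENNReal.ofReal (2 * Real.exp (-2 * s)) =
      ENNReal.ofReal (Real.exp (-2 * v) - Real.exp (-2 * b)) := by
  have hc : Continuous fun s : ℝ => 2 * Real.exp (-2 * s) := by fun_prop
  rw [← ofReal_integral_eq_lintegral_ofReal]
  · rw [← integral_Ioc_eq_integral_Ioo, ← intervalIntegral.integral_of_le hvb]
    have hd : ∀ x ∈ Set.uIcc v b, HasDerivAt (fun s : ℝ => -Real.exp (-2 * s))
        (2 * Real.exp (-2 * x)) x := by
      intro x _
      have h1 : HasDerivAt (fun s : ℝ => -2 * s) (-2) x := by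
        simpa using (hasDerivAt_id x).const_mul (-2)
      refine HasDerivAt.congr_deriv (h1.exp.neg) ?_
      ring
    rw [intervalIntegral.integral_eq_sub_of_hasDerivAt hd (hc.intervalIntegrable _ _)]
    congr 1
    ring
  · exact (hc.integrableOn_Icc (a := v) (b := b)).mono_set Set.Ioo_subset_Icc_self
  · exact Filter.Eventually.of_forall (fun x => by
      show 0 ≤ 2 * Real.exp (-2 * x)
      positivity)

theorem Cls.energy {p : ℝ} (hp : 0 < p) {L : ℂ → ℂ} (h : Cls p L) {a b : ℝ} (hab : a ≤ b) :
    ∫⁻ z in {z | z ∈ ball (0 : ℂ) 1 ∧ a < (L z).re ∧ (L z).re < b},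
      ENNReal.ofReal (‖deriv L z‖ ^ 2) ≤ ENNReal.ofReal (Real.pi * p * (2 * (b - a) + 1)) := by
  classical
  -- a measurable version of `Re L`
  set u : ℂ → ℝ := fun z => ((ball (0 : ℂ) 1).piecewise L (fun _ => 0) z).re with hu
  have huM : Measurable u := by
    refine Complex.measurable_re.comp ?_
    exact (h.diff.continuousOn).measurable_piecewise continuousOn_const measurableSet_ball
  have huB : ∀ z ∈ ball (0 : ℂ) 1, u z = (L z).re := by
    intro z hz
    simp only [hu]
    rw [Set.piecewise_eq_of_mem _ _ _ hz]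
  set w : ℂ → ENNReal := fun z => ENNReal.ofReal (Real.exp (2 * u z) * ‖deriv L z‖ ^ 2) with hw
  have hwM : Measurable w := by
    have h1 : Measurable (deriv L) := measurable_deriv L
    simp only [hw]
    fun_prop
  set k : ℝ → ENNReal := fun s => ENNReal.ofReal (2 * Real.exp (-2 * s)) with hk
  have hkM : Measurable k := by
    simp only [hk]
    fun_prop
  have hArea : ∀ U : ℝ, ∫⁻ z in ball (0 : ℂ) 1 ∩ {z | u z < U}, w z ≤
      ENNReal.ofReal (Real.pi * p * Real.exp (2 * U)) := by
    intro U
    refine le_trans (le_of_eq ?_) (h.area U)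
    have h7 : ball (0 : ℂ) 1 ∩ {z : ℂ | u z < U} =
        {z | z ∈ ball (0 : ℂ) 1 ∧ (L z).re < U} := by
      ext z
      constructor
      · rintro ⟨h9, h8⟩
        refine ⟨h9, ?_⟩
        rw [← huB z h9]; exact h8
      · rintro ⟨h8, h9⟩
        refine ⟨h8, ?_⟩
        show u z < U
        rw [huB z h8]; exact h9
    rw [h7]
    refine setLIntegral_congr_fun ?_ (fun z hz => ?_)
    · rw [← h7]; exact measurableSet_ball.inter (measurableSet_lt huM measurable_const)
    · simp only [hw]
      rw [huB z hz.1]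
  set Sab : Set ℂ := {z | z ∈ ball (0 : ℂ) 1 ∧ a < (L z).re ∧ (L z).re < b} with hSab
  have hSeq : Sab = ball (0 : ℂ) 1 ∩ ({z | a < u z} ∩ {z | u z < b}) := by
    ext z
    constructor
    · rintro ⟨h1, h2, h3⟩
      refine ⟨h1, ?_, ?_⟩
      · show a < u z
        rw [huB z h1]; exact h2
      · show u z < b
        rw [huB z h1]; exact h3
    · rintro ⟨h1, h2, h3⟩
      refine ⟨h1, ?_, ?_⟩
      · rw [← huB z h1]; exact h2
      · rw [← huB z h1]; exact h3
  have hSm : MeasurableSet Sab := by
    rw [hSeq]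
    exact measurableSet_ball.inter ((measurableSet_lt measurable_const huM).inter
      (measurableSet_lt huM measurable_const))
  have h1 : ∫⁻ z in Sab, ENNReal.ofReal (‖deriv L z‖ ^ 2) =
      ∫⁻ z in Sab, (w z * ENNReal.ofReal (Real.exp (-2 * b)) +
        ∫⁻ s in Set.Ioo a b, (if u z < s then w z * k s else 0)) := by
    refine setLIntegral_congr_fun hSm (fun z hz => ?_)
    rw [hSeq] at hz
    have hau : a < u z := hz.2.1
    have hub : u z < b := hz.2.2
    have h2 : ∫⁻ s in Set.Ioo a b, (if u z < s then w z * k s else 0) =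
        w z * ENNReal.ofReal (Real.exp (-2 * u z) - Real.exp (-2 * b)) := by
      rw [← ene_layer hub.le, ← lintegral_const_mul _ hkM]
      have h3 : ∀ s, (if u z < s then w z * k s else 0) =
          (Set.Ioi (u z)).indicator (fun s => w z * k s) s := by
        intro s
        by_cases hs : u z < s
        · rw [if_pos hs, Set.indicator_of_mem (show s ∈ Set.Ioi (u z) from hs)]
        · rw [if_neg hs, Set.indicator_of_notMem (show s ∉ Set.Ioi (u z) from hs)]
      simp_rw [h3]
      rw [lintegral_indicator measurableSet_Ioi, Measure.restrict_restrict measurableSet_Ioi]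
      congr 1
      have h4 : Set.Ioi (u z) ∩ Set.Ioo a b = Set.Ioo (u z) b := by
        ext s
        constructor
        · rintro ⟨h5, h6⟩; exact ⟨h5, h6.2⟩
        · rintro ⟨h5, h6⟩; exact ⟨h5, hau.trans h5, h6⟩
      rw [h4]
    rw [h2, ← mul_add, ← ENNReal.ofReal_add (Real.exp_pos _).le]
    · simp only [hw]
      rw [← ENNReal.ofReal_mul (by positivity)]
      congr 1
      have h5 : Real.exp (-2 * b) + (Real.exp (-2 * u z) - Real.exp (-2 * b)) =
          Real.exp (-2 * u z) := by ring
      rw [h5]
      have h6 : Real.exp (2 * u z) * Real.exp (-2 * u z) = 1 := by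
        rw [← Real.exp_add]
        have : 2 * u z + -2 * u z = 0 := by ring
        rw [this, Real.exp_zero]
      calc ‖deriv L z‖ ^ 2 = ‖deriv L z‖ ^ 2 * 1 := (mul_one _).symm
        _ = ‖deriv L z‖ ^ 2 * (Real.exp (2 * u z) * Real.exp (-2 * u z)) := by rw [h6]
        _ = Real.exp (2 * u z) * ‖deriv L z‖ ^ 2 * Real.exp (-2 * u z) := by ring
    · have : Real.exp (-2 * b) ≤ Real.exp (-2 * u z) := Real.exp_le_exp.2 (by linarith)
      linarith
  rw [h1, lintegral_add_left (hwM.mul_const _), lintegral_mul_const _ hwM]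
  have hSsub : ∀ U : ℝ, {z : ℂ | u z < U} ∩ Sab ⊆ ball (0 : ℂ) 1 ∩ {z | u z < U} := by
    intro U z hz
    have h2 := hz.2
    rw [hSeq] at h2
    exact ⟨h2.1, hz.1⟩
  have hfirst : (∫⁻ z in Sab, w z) * ENNReal.ofReal (Real.exp (-2 * b)) ≤
      ENNReal.ofReal (Real.pi * p) := by
    have h2 : Sab ⊆ ball (0 : ℂ) 1 ∩ {z | u z < b} := by
      intro z hz
      rw [hSeq] at hz
      exact ⟨hz.1, hz.2.2⟩
    refine (mul_le_mul_left ((lintegral_mono_set h2).trans (hArea b)) _).trans ?_
    rw [← ENNReal.ofReal_mul (by positivity)]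
    refine ENNReal.ofReal_le_ofReal (le_of_eq ?_)
    rw [mul_assoc, ← Real.exp_add]
    have : 2 * b + -2 * b = 0 := by ring
    rw [this, Real.exp_zero, mul_one]
  have hsecond : ∫⁻ z in Sab, ∫⁻ s in Set.Ioo a b, (if u z < s then w z * k s else 0) ≤
      ENNReal.ofReal (2 * Real.pi * p) * ENNReal.ofReal (b - a) := by
    rw [lintegral_lintegral_swap]
    · have h2 : ∀ s, ∫⁻ z in Sab, (if u z < s then w z * k s else 0) ≤
          ENNReal.ofReal (2 * Real.pi * p) := by
        intro s
        have hset : MeasurableSet {z : ℂ | u z < s} := measurableSet_lt huM measurable_const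
        have h6 : ∀ z, (if u z < s then w z * k s else 0) =
            {z : ℂ | u z < s}.indicator (fun z => w z * k s) z := by
          intro z
          by_cases hz : u z < s
          · rw [if_pos hz, Set.indicator_of_mem (show z ∈ {z : ℂ | u z < s} from hz)]
          · rw [if_neg hz, Set.indicator_of_notMem (show z ∉ {z : ℂ | u z < s} from hz)]
        simp_rw [h6]
        rw [lintegral_indicator hset, Measure.restrict_restrict hset, lintegral_mul_const _ hwM]
        refine (mul_le_mul_left ((lintegral_mono_set (hSsub s)).trans (hArea s)) _).trans ?_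
        simp only [hk]
        rw [← ENNReal.ofReal_mul (by positivity)]
        refine ENNReal.ofReal_le_ofReal (le_of_eq ?_)
        have : Real.exp (2 * s) * Real.exp (-2 * s) = 1 := by
          rw [← Real.exp_add]
          have : 2 * s + -2 * s = 0 := by ring
          rw [this, Real.exp_zero]
        calc Real.pi * p * Real.exp (2 * s) * (2 * Real.exp (-2 * s))
            = 2 * Real.pi * p * (Real.exp (2 * s) * Real.exp (-2 * s)) := by ring
          _ = 2 * Real.pi * p := by rw [this, mul_one]
      refine (lintegral_mono (fun s => h2 s)).trans ?_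
      rw [lintegral_const, Measure.restrict_apply_univ, Real.volume_Ioo]
    · refine Measurable.aemeasurable ?_
      refine Measurable.ite ?_ ?_ measurable_const
      · exact measurableSet_lt (huM.comp measurable_fst) measurable_snd
      · exact (hwM.comp measurable_fst).mul (hkM.comp measurable_snd)
  refine (add_le_add hfirst hsecond).trans (le_of_eq ?_)
  have hpp := mul_pos Real.pi_pos hp
  rw [← ENNReal.ofReal_mul (by positivity), ← ENNReal.ofReal_add hpp.le
    (mul_nonneg (by positivity) (by linarith))]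
  congr 1
  ring

end MPV
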