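import Pool.Agent.MPV.Defs

set_option autoImplicit false

/-!
# MPV TRF : transformations of the class

PROOFS.
`Cls.add_const`: `Re (L z + c) < U` iff `Re L z < U - Re c`; `exp (2 Re (L z + c)) = exp (2 Re c) exp (2 Re L z)`.
`Cls.comp`: the real derivative of `φ` at `z` is multiplication by `deriv φ z` with determinant
`‖deriv φ z‖^2`; change of variables.
`Cls.rot`, `Cls.mob`: `z ↦ c z` and `z ↦ mob a z` are analytic injective self maps of the ball
(`1 - |mob a z|^2 = (1 - |a|^2)(1 - |z|^2)/|1 + conj a z|^2`).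
-/

open MeasureTheory Metric

namespace MPV

theorem Cls.add_const {p : ℝ} {L : ℂ → ℂ} (h : Cls p L) (c : ℂ) : Cls p (fun z => L z + c) := by
  refine ⟨h.diff.add_const c, fun U => ?_⟩
  have hset : {z | z ∈ ball (0 : ℂ) 1 ∧ (L z + c).re < U}
      = {z | z ∈ ball (0 : ℂ) 1 ∧ (L z).re < U - c.re} := by
    ext z
    simp only [Set.mem_ofPred_eq, Complex.add_re]
    constructor
    · rintro ⟨h1, h2⟩; exact ⟨h1, by linarith⟩
    · rintro ⟨h1, h2⟩; exact ⟨h1, by linarith⟩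
  have hint : ∀ z : ℂ, ENNReal.ofReal (Real.exp (2 * (L z + c).re) *
      ‖deriv (fun z => L z + c) z‖ ^ 2) = ENNReal.ofReal (Real.exp (2 * c.re)) *
        ENNReal.ofReal (Real.exp (2 * (L z).re) * ‖deriv L z‖ ^ 2) := by
    intro z
    rw [← ENNReal.ofReal_mul (Real.exp_pos _).le, deriv_add_const, Complex.add_re, mul_add,
      Real.exp_add]
    congr 1
    ring
  simp only [hint]
  rw [hset, lintegral_const_mul' _ _ ENNReal.ofReal_ne_top]
  calc ENNReal.ofReal (Real.exp (2 * c.re)) * ∫⁻ z in {z | z ∈ ball (0 : ℂ) 1 ∧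
        (L z).re < U - c.re}, ENNReal.ofReal (Real.exp (2 * (L z).re) * ‖deriv L z‖ ^ 2)
      ≤ ENNReal.ofReal (Real.exp (2 * c.re)) *
          ENNReal.ofReal (Real.pi * p * Real.exp (2 * (U - c.re))) :=
        mul_le_mul' le_rfl (h.area (U - c.re))
    _ = ENNReal.ofReal (Real.pi * p * Real.exp (2 * U)) := by
        rw [← ENNReal.ofReal_mul (Real.exp_pos _).le]
        congr 1
        have : Real.exp (2 * U) = Real.exp (2 * c.re) * Real.exp (2 * (U - c.re)) := by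
          rw [← Real.exp_add]; congr 1; ring
        rw [this]
        ring

private theorem det_smul_one (w : ℂ) : (w • (1 : ℂ →L[ℝ] ℂ)).det = ‖w‖ ^ 2 := by
  have h1 : ((w • (1 : ℂ →L[ℝ] ℂ) : ℂ →L[ℝ] ℂ) : ℂ →ₗ[ℝ] ℂ) = Algebra.lmul ℝ ℂ w := by
    ext z
    simp
  rw [ContinuousLinearMap.det, h1]
  have := Algebra.norm_complex_apply w
  rw [Algebra.norm_apply] at this
  rw [this, Complex.normSq_eq_norm_sq]

theorem Cls.comp {p : ℝ} {L : ℂ → ℂ} (h : Cls p L) {φ : ℂ → ℂ}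
    (hφ : DifferentiableOn ℂ φ (ball 0 1)) (hm : Set.MapsTo φ (ball 0 1) (ball 0 1))
    (hi : Set.InjOn φ (ball 0 1)) : Cls p (fun z => L (φ z)) := by
  have hLφ : DifferentiableOn ℂ (fun z => L (φ z)) (ball 0 1) := h.diff.comp hφ hm
  refine ⟨hLφ, fun U => ?_⟩
  set s : Set ℂ := {z | z ∈ ball (0 : ℂ) 1 ∧ (L (φ z)).re < U} with hs
  have hso : IsOpen s := by
    have h1 : ContinuousOn (fun z => (L (φ z)).re) (ball 0 1) :=
      Complex.continuous_re.comp_continuousOn hLφ.continuousOn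
    exact h1.isOpen_inter_preimage isOpen_ball isOpen_Iio
  set G : ℂ → ENNReal := fun w => ENNReal.ofReal (Real.exp (2 * (L w).re) * ‖deriv L w‖ ^ 2)
    with hG
  have hφd : ∀ z ∈ ball (0 : ℂ) 1, DifferentiableAt ℂ φ z := fun z hz =>
    hφ.differentiableAt (isOpen_ball.mem_nhds hz)
  have hLd : ∀ z ∈ ball (0 : ℂ) 1, DifferentiableAt ℂ L z := fun z hz =>
    h.diff.differentiableAt (isOpen_ball.mem_nhds hz)
  have hder : ∀ z ∈ s, HasFDerivWithinAt φ (deriv φ z • (1 : ℂ →L[ℝ] ℂ)) s z := fun z hz =>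
    ((hφd z hz.1).hasDerivAt.complexToReal_fderiv).hasFDerivWithinAt
  have key := lintegral_image_eq_lintegral_abs_det_fderiv_mul (volume : Measure ℂ)
    hso.measurableSet hder (hi.mono fun z hz => hz.1) G
  have hsub : φ '' s ⊆ {w | w ∈ ball (0 : ℂ) 1 ∧ (L w).re < U} := by
    rintro _ ⟨z, hz, rfl⟩
    exact ⟨hm hz.1, hz.2⟩
  calc ∫⁻ z in s, ENNReal.ofReal (Real.exp (2 * (L (φ z)).re) * ‖deriv (fun z => L (φ z)) z‖ ^ 2)
      = ∫⁻ z in s, ENNReal.ofReal |(deriv φ z • (1 : ℂ →L[ℝ] ℂ)).det| * G (φ z) := by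
        refine setLIntegral_congr_fun hso.measurableSet fun z hz => ?_
        have h1 : deriv (fun z => L (φ z)) z = deriv L (φ z) * deriv φ z :=
          ((hLd _ (hm hz.1)).hasDerivAt.comp z (hφd z hz.1).hasDerivAt).deriv
        simp only [hG]
        rw [h1, det_smul_one, abs_of_nonneg (sq_nonneg _), ← ENNReal.ofReal_mul (sq_nonneg _),
          norm_mul]
        congr 1
        ring
    _ = ∫⁻ w in φ '' s, G w := key.symm
    _ ≤ ∫⁻ w in {w | w ∈ ball (0 : ℂ) 1 ∧ (L w).re < U}, G w := lintegral_mono_set hsub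
    _ ≤ _ := h.area U

theorem Cls.rot {p : ℝ} {L : ℂ → ℂ} (h : Cls p L) {c : ℂ} (hc : ‖c‖ = 1) :
    Cls p (fun z => L (c * z)) := by
  have hc0 : c ≠ 0 := by
    rintro rfl
    simp at hc
  refine h.comp (φ := fun z => c * z) (by fun_prop) ?_ ?_
  · intro z hz
    rw [mem_ball_zero_iff] at hz ⊢
    rw [norm_mul, hc, one_mul]
    exact hz
  · intro z _ z' _ hzz
    exact mul_left_cancel₀ hc0 hzz

private theorem mob_den {a : ℂ} (ha : ‖a‖ < 1) {z : ℂ} (hz : z ∈ ball (0 : ℂ) 1) :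
    1 + (starRingEnd ℂ) a * z ≠ 0 := by
  intro h
  rw [mem_ball_zero_iff] at hz
  have h1 : ‖(starRingEnd ℂ) a * z‖ < 1 := by
    rw [norm_mul, Complex.norm_conj]
    calc ‖a‖ * ‖z‖ ≤ 1 * ‖z‖ := mul_le_mul_of_nonneg_right ha.le (norm_nonneg _)
      _ < 1 := by rw [one_mul]; exact hz
  have h2 : (starRingEnd ℂ) a * z = -1 := by linear_combination h
  rw [h2, norm_neg, norm_one] at h1
  exact lt_irrefl _ h1

theorem mob_mapsTo {a : ℂ} (ha : ‖a‖ < 1) : Set.MapsTo (mob a) (ball 0 1) (ball 0 1) := by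
  intro z hz
  have hd := mob_den ha hz
  rw [mem_ball_zero_iff] at hz ⊢
  rw [mob, norm_div, div_lt_one (norm_pos_iff.2 hd)]
  refine lt_of_pow_lt_pow_left₀ 2 (norm_nonneg _) ?_
  have h1 : 0 < (1 - ‖a‖ ^ 2) * (1 - ‖z‖ ^ 2) := by
    refine mul_pos ?_ ?_
    · nlinarith [norm_nonneg a]
    · nlinarith [norm_nonneg z]
  have h2 : ‖1 + (starRingEnd ℂ) a * z‖ ^ 2 - ‖z + a‖ ^ 2 = (1 - ‖a‖ ^ 2) * (1 - ‖z‖ ^ 2) := by
    simp only [← Complex.normSq_eq_norm_sq, Complex.normSq_apply, Complex.add_re, Complex.add_im,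
      Complex.mul_re, Complex.mul_im, Complex.conj_re, Complex.conj_im, Complex.one_re,
      Complex.one_im]
    ring
  linarith

theorem mob_differentiableOn {a : ℂ} (ha : ‖a‖ < 1) : DifferentiableOn ℂ (mob a) (ball 0 1) := by
  intro z hz
  have hd := mob_den ha hz
  have h1 : DifferentiableAt ℂ (fun z : ℂ => z + a) z := by fun_prop
  have h2 : DifferentiableAt ℂ (fun z : ℂ => 1 + (starRingEnd ℂ) a * z) z := by fun_prop
  exact (h1.div h2 hd).differentiableWithinAt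

theorem deriv_mob_zero {a : ℂ} (ha : ‖a‖ < 1) : deriv (mob a) 0 = (1 - ‖a‖ ^ 2 : ℝ) := by
  have h1 : HasDerivAt (fun z : ℂ => z + a) 1 0 := (hasDerivAt_id (0 : ℂ)).add_const a
  have h2 : HasDerivAt (fun z : ℂ => 1 + (starRingEnd ℂ) a * z) ((starRingEnd ℂ) a) 0 := by
    simpa using ((hasDerivAt_id (0 : ℂ)).const_mul ((starRingEnd ℂ) a)).const_add 1
  have hd := mob_den ha (mem_ball_self one_pos)
  have h3 := h1.div h2 hd
  have h4 : deriv (mob a) 0 = _ := h3.deriv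
  rw [h4]
  have h5 : a * (starRingEnd ℂ) a = ((‖a‖ ^ 2 : ℝ) : ℂ) := by
    rw [Complex.mul_conj, Complex.normSq_eq_norm_sq]
  simp only [mul_zero, add_zero, zero_add, mul_one, one_pow, div_one, h5]
  push_cast
  ring

theorem Cls.mob {p : ℝ} {L : ℂ → ℂ} (h : Cls p L) {a : ℂ} (ha : ‖a‖ < 1) :
    Cls p (fun z => L (mob a z)) := by
  refine h.comp (mob_differentiableOn ha) (mob_mapsTo ha) ?_
  intro z hz z' hz' hzz
  have hd := mob_den ha hz
  have hd' := mob_den ha hz'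
  unfold MPV.mob at hzz
  rw [div_eq_div_iff hd hd'] at hzz
  have h1 : (z - z') * (1 - a * (starRingEnd ℂ) a) = 0 := by linear_combination hzz
  rcases mul_eq_zero.1 h1 with h2 | h2
  · exact sub_eq_zero.1 h2
  · exfalso
    rw [Complex.mul_conj, Complex.normSq_eq_norm_sq] at h2
    have h3 : (1 : ℝ) - ‖a‖ ^ 2 = 0 := by exact_mod_cast h2
    nlinarith [norm_nonneg a]

end MPV
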