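import Mathlib

set_option autoImplicit false

/-!
# MPV RAY : one dimensional energy estimate

PROOF. Let `b' = sInf {x ∈ [a,b] | φ x ≤ A}` (`φ b' = A`) and `a' = sSup {x ∈ [a,b'] | B ≤ φ x}`
(`φ a' = B`), so `a ≤ a' < b' ≤ b` and `A < φ < B` on `(a', b')` (continuity). Then
`B - A = |φ b' - φ a'| ≤ ∫_{a'}^{b'} |φ'| ≤ (∫_{a'}^{b'} φ'^2 x dx)^(1/2) (∫_{a'}^{b'} dx/x)^(1/2)`
(Cauchy-Schwarz), and `∫_{a'}^{b'} dx/x ≤ log (b/a)`.
-/

open MeasureTheory

namespace MPV

/-- energy estimate on one interval -/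
theorem ray_interval {φ φ' : ℝ → ℝ} {a b : ℝ} (ha : 0 < a) (hab : a < b)
    (hd : ∀ x ∈ Set.Icc a b, HasDerivAt φ (φ' x) x) (hc : ContinuousOn φ' (Set.Icc a b)) :
    (φ a - φ b) ^ 2 / Real.log (b / a) ≤ ∫ x in a..b, φ' x ^ 2 * x := by
  have hb : 0 < b := ha.trans hab
  have hu : Set.uIcc a b = Set.Icc a b := Set.uIcc_of_le hab.le
  have hlog : 0 < Real.log (b / a) := Real.log_pos ((one_lt_div ha).2 hab)
  set D : ℝ := φ a - φ b with hD
  set l : ℝ := D / Real.log (b / a) with hl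
  have hc1 : ContinuousOn φ' (Set.uIcc a b) := by rwa [hu]
  have hci : ContinuousOn (fun x : ℝ => x⁻¹) (Set.uIcc a b) := by
    apply ContinuousOn.inv₀ continuousOn_id
    intro x hx
    rw [hu] at hx
    exact (ha.trans_le hx.1).ne'
  have hi1 : IntervalIntegrable φ' volume a b := hc1.intervalIntegrable
  have hi2 : IntervalIntegrable (fun x : ℝ => x⁻¹) volume a b := hci.intervalIntegrable
  have hi3 : IntervalIntegrable (fun x : ℝ => φ' x ^ 2 * x) volume a b :=
    ((hc1.pow 2).mul continuousOn_id).intervalIntegrable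
  have h1 : ∫ x in a..b, φ' x = -D := by
    rw [intervalIntegral.integral_eq_sub_of_hasDerivAt (fun x hx => hd x (by rwa [hu] at hx)) hi1,
      hD]
    ring
  have h2 : ∫ x in a..b, (x : ℝ)⁻¹ = Real.log (b / a) := integral_inv_of_pos ha hb
  have h3 : 0 ≤ ∫ x in a..b, (φ' x ^ 2 * x + (2 * l * φ' x + l ^ 2 * x⁻¹)) := by
    apply intervalIntegral.integral_nonneg hab.le
    intro x hx
    have hx0 : 0 < x := ha.trans_le hx.1
    have e : φ' x ^ 2 * x + (2 * l * φ' x + l ^ 2 * x⁻¹) = (φ' x + l * x⁻¹) ^ 2 * x := by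
      field_simp
      ring
    rw [e]
    positivity
  rw [intervalIntegral.integral_add hi3 ((hi1.const_mul (2 * l)).add (hi2.const_mul (l ^ 2))),
    intervalIntegral.integral_add (hi1.const_mul (2 * l)) (hi2.const_mul (l ^ 2)),
    intervalIntegral.integral_const_mul, intervalIntegral.integral_const_mul, h1, h2] at h3
  have h4 : 2 * l * -D + l ^ 2 * Real.log (b / a) = -(D ^ 2 / Real.log (b / a)) := by
    rw [hl]
    field_simp
    ring
  rw [h4] at h3
  linarith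

theorem ray_energy {φ φ' : ℝ → ℝ} {a b A B : ℝ} (ha : 0 < a) (hab : a < b)
    (hd : ∀ x ∈ Set.Icc a b, HasDerivAt φ (φ' x) x) (hc : ContinuousOn φ' (Set.Icc a b))
    (hB : B ≤ φ a) (hA : φ b ≤ A) (hAB : A < B) :
    ENNReal.ofReal ((B - A) ^ 2 / Real.log (b / a)) ≤
      ∫⁻ x in {x | x ∈ Set.Ioo a b ∧ A < φ x ∧ φ x < B}, ENNReal.ofReal (φ' x ^ 2 * x) := by
  have hφ : ContinuousOn φ (Set.Icc a b) := fun x hx => (hd x hx).continuousAt.continuousWithinAt
  -- the first point below `A`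
  set S : Set ℝ := Set.Icc a b ∩ φ ⁻¹' Set.Iic A with hS
  have hSc : IsClosed S := hφ.preimage_isClosed_of_isClosed isClosed_Icc isClosed_Iic
  have hSb : BddBelow S := ⟨a, fun x hx => hx.1.1⟩
  have hSn : S.Nonempty := ⟨b, ⟨hab.le, le_refl b⟩, hA⟩
  set b' := sInf S with hb'
  have hb'S : b' ∈ S := hSc.csInf_mem hSn hSb
  have hbelow : ∀ x, a ≤ x → x < b' → A < φ x := by
    intro x hx1 hx2
    by_contra hcon
    have : x ∈ S := ⟨⟨hx1, hx2.le.trans hb'S.1.2⟩, not_lt.1 hcon⟩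
    exact absurd (csInf_le hSb this) (not_le.2 hx2)
  -- the last point above `B` before `b'`
  have hsub : Set.Icc a b' ⊆ Set.Icc a b := Set.Icc_subset_Icc_right hb'S.1.2
  set R : Set ℝ := Set.Icc a b' ∩ φ ⁻¹' Set.Ici B with hR
  have hRc : IsClosed R := (hφ.mono hsub).preimage_isClosed_of_isClosed isClosed_Icc isClosed_Ici
  have hRb : BddAbove R := ⟨b', fun x hx => hx.1.2⟩
  have hRn : R.Nonempty := ⟨a, ⟨le_refl a, hb'S.1.1⟩, hB⟩
  set a' := sSup R with ha'
  have ha'R : a' ∈ R := hRc.csSup_mem hRn hRb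
  have habove : ∀ x, a' < x → x ≤ b' → φ x < B := by
    intro x hx1 hx2
    by_contra hcon
    have : x ∈ R := ⟨⟨ha'R.1.1.trans hx1.le, hx2⟩, not_lt.1 hcon⟩
    exact absurd (le_csSup hRb this) (not_le.2 hx1)
  have h1 : B ≤ φ a' := ha'R.2
  have h2 : φ b' ≤ A := hb'S.2
  have haa : a ≤ a' := ha'R.1.1
  have hbb : b' ≤ b := hb'S.1.2
  have hlt : a' < b' := by
    rcases ha'R.1.2.lt_or_eq with h | h
    · exact h
    · rw [h] at h1
      linarith
  have ha'0 : 0 < a' := ha.trans_le haa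
  have hsub2 : Set.Icc a' b' ⊆ Set.Icc a b := Set.Icc_subset_Icc haa hbb
  have hI := ray_interval ha'0 hlt (fun x hx => hd x (hsub2 hx)) (hc.mono hsub2)
  have hlog1 : 0 < Real.log (b' / a') := Real.log_pos ((one_lt_div ha'0).2 hlt)
  have hlog2 : Real.log (b' / a') ≤ Real.log (b / a) := by
    apply Real.log_le_log (div_pos (ha'0.trans hlt) ha'0)
    exact div_le_div₀ (by linarith) hbb ha haa
  have h3 : (B - A) ^ 2 / Real.log (b / a) ≤ (φ a' - φ b') ^ 2 / Real.log (b' / a') := by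
    apply div_le_div₀ (sq_nonneg _) _ hlog1 hlog2
    apply pow_le_pow_left₀ (by linarith)
    linarith
  have hcont : ContinuousOn (fun x => φ' x ^ 2 * x) (Set.Icc a' b') :=
    ((hc.mono hsub2).pow 2).mul continuousOn_id
  have hint : IntegrableOn (fun x => φ' x ^ 2 * x) (Set.Ioo a' b') :=
    (hcont.integrableOn_Icc).mono_set Set.Ioo_subset_Icc_self
  have h4 : ∫⁻ x in Set.Ioo a' b', ENNReal.ofReal (φ' x ^ 2 * x) =
      ENNReal.ofReal (∫ x in a'..b', φ' x ^ 2 * x) := by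
    rw [intervalIntegral.integral_of_le hlt.le, integral_Ioc_eq_integral_Ioo,
      ofReal_integral_eq_lintegral_ofReal hint]
    rw [Filter.EventuallyLE, ae_restrict_iff' measurableSet_Ioo]
    filter_upwards with x hx
    have : 0 < x := ha'0.trans hx.1
    simp only [Pi.zero_apply]
    positivity
  calc ENNReal.ofReal ((B - A) ^ 2 / Real.log (b / a))
      ≤ ENNReal.ofReal (∫ x in a'..b', φ' x ^ 2 * x) :=
        ENNReal.ofReal_le_ofReal (h3.trans hI)
    _ = ∫⁻ x in Set.Ioo a' b', ENNReal.ofReal (φ' x ^ 2 * x) := h4.symm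
    _ ≤ _ := by
        apply lintegral_mono_set
        intro x hx
        exact ⟨⟨haa.trans_lt hx.1, hx.2.trans_le hbb⟩, hbelow x (haa.trans hx.1.le) hx.2,
          habove x hx.1 hx.2.le⟩

end MPV
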