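import Pool.Agent.MPV.Ray

set_option autoImplicit false

/-!
# MPV SEC : energy of a branch (length-area on the rays of a sector at a boundary point)

PROOF. For `0 < ρ ≤ ρ₁`, `|φ| ≤ β`: `‖1 - ρ e^{iφ}‖^2 = 1 - 2ρ cos φ + ρ^2 < 1` (`ρ ≤ cos β ≤ cos φ`), so
`P ρ φ = v (1 - ρ e^{iφ})` is in `ball 0 1`, and in `ball v ρ₁` for `ρ < ρ₁`. For fixed `φ` the function
`x ↦ Re L (P x φ)` has derivative `- Re (deriv L (P x φ) v e^{iφ})`, of square `≤ ‖deriv L‖^2`; by
`ray_energy` on `[ρ₀, ρ₁]`: `(B - A)^2/log (ρ₁/ρ₀) ≤ ∫⁻ x in {ρ₀ < x < ρ₁, A < .. < B}, ‖deriv L (P x φ)‖^2 x`.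
Integrate over `φ ∈ (-β, β)` (length `2β`); polar coordinates around `v`: `(x, φ) ↦ v - v x e^{iφ}` is injective on
`(0, ∞) × (-π, π)` with Jacobian `x` (`Complex.lintegral_comp_polarCoord_symm` for
`w ↦ G (v - v w)`, and the isometry `w ↦ v - v w` preserves the volume: translation, negation, rotation
`v ∈ Circle` / `LinearIsometry.measurePreserving`), so the double integral is at most the right side.
-/

open MeasureTheory Metric

namespace MPV

private theorem sec_P_ball {v : ℂ} (hv : ‖v‖ = 1) {β x φ : ℝ} (hβ2 : β < Real.pi / 2)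
    (hx : 0 < x) (hx1 : x ≤ Real.cos β) (hφ : |φ| ≤ β) :
    ‖v * (1 - x * Complex.exp (φ * Complex.I))‖ < 1 := by
  have hcos : Real.cos β ≤ Real.cos φ := by
    rw [← Real.cos_abs φ]
    exact Real.cos_le_cos_of_nonneg_of_le_pi (abs_nonneg _) (by linarith [Real.pi_pos]) hφ
  rw [norm_mul, hv, one_mul]
  have h1 : ‖(1 : ℂ) - x * Complex.exp (φ * Complex.I)‖ ^ 2 = 1 - 2 * x * Real.cos φ + x ^ 2 := by
    rw [← Complex.normSq_eq_norm_sq, Complex.normSq_apply]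
    have e1 : ((1 : ℂ) - x * Complex.exp (φ * Complex.I)).re = 1 - x * Real.cos φ := by
      rw [Complex.sub_re, Complex.one_re, Complex.re_ofReal_mul, Complex.exp_ofReal_mul_I_re]
    have e2 : ((1 : ℂ) - x * Complex.exp (φ * Complex.I)).im = -(x * Real.sin φ) := by
      rw [Complex.sub_im, Complex.one_im, Complex.im_ofReal_mul, Complex.exp_ofReal_mul_I_im]
      ring
    rw [e1, e2]
    have := Real.sin_sq_add_cos_sq φ
    linear_combination x ^ 2 * this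
  have h2 : ‖(1 : ℂ) - x * Complex.exp (φ * Complex.I)‖ ^ 2 < 1 := by
    rw [h1]
    nlinarith
  nlinarith [norm_nonneg ((1 : ℂ) - x * Complex.exp (φ * Complex.I))]

private theorem sec_P_dist {v : ℂ} (hv : ‖v‖ = 1) {x φ : ℝ} (hx : 0 < x) :
    dist (v * (1 - x * Complex.exp (φ * Complex.I))) v = x := by
  rw [dist_eq_norm]
  have : v * (1 - x * Complex.exp (φ * Complex.I)) - v = -(v * (x * Complex.exp (φ * Complex.I))) := by
    ring
  rw [this, norm_neg, norm_mul, norm_mul, hv, Complex.norm_exp_ofReal_mul_I, Complex.norm_real,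
    Real.norm_eq_abs, abs_of_pos hx]
  ring

/-- the energy on one ray -/
private theorem sec_ray {L : ℂ → ℂ} (hL : DifferentiableOn ℂ L (ball 0 1)) {v : ℂ} (hv : ‖v‖ = 1)
    {β ρ₀ ρ₁ A B φ : ℝ} (hβ2 : β < Real.pi / 2) (h0 : 0 < ρ₀) (h01 : ρ₀ < ρ₁)
    (h1 : ρ₁ ≤ Real.cos β) (hAB : A < B) (hφ : |φ| ≤ β)
    (hB : B ≤ (L (v * (1 - ρ₀ * Complex.exp (φ * Complex.I)))).re)
    (hA : (L (v * (1 - ρ₁ * Complex.exp (φ * Complex.I)))).re ≤ A) {G : ℂ → ENNReal}
    (hG : ∀ z : ℂ, z ∈ ball (0 : ℂ) 1 → z ∈ ball v ρ₁ → A < (L z).re → (L z).re < B →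
      G z = ENNReal.ofReal (‖deriv L z‖ ^ 2)) :
    ENNReal.ofReal ((B - A) ^ 2 / Real.log (ρ₁ / ρ₀)) ≤
      ∫⁻ x in Set.Ioo ρ₀ ρ₁, ENNReal.ofReal x •
        G (v * (1 - x * Complex.exp (φ * Complex.I))) := by
  set P : ℝ → ℂ := fun x => v * (1 - x * Complex.exp (φ * Complex.I)) with hP
  set P' : ℂ := -(v * Complex.exp (φ * Complex.I)) with hP'
  have hPn : ‖P'‖ = 1 := by
    rw [hP', norm_neg, norm_mul, hv, Complex.norm_exp_ofReal_mul_I, one_mul]
  have hPd : ∀ x : ℝ, HasDerivAt P P' x := by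
    intro x
    have h2 : HasDerivAt (fun x : ℝ => (x : ℂ)) 1 x := Complex.ofRealCLM.hasDerivAt
    have h3 := ((h2.mul_const (Complex.exp (φ * Complex.I))).const_sub 1).const_mul v
    refine h3.congr_deriv ?_
    rw [hP']
    ring
  have hPball : ∀ x ∈ Set.Icc ρ₀ ρ₁, P x ∈ ball (0 : ℂ) 1 := by
    intro x hx
    rw [mem_ball_zero_iff]
    exact sec_P_ball hv hβ2 (h0.trans_le hx.1) (hx.2.trans h1) hφ
  have hPc : Continuous P := continuous_iff_continuousAt.2 fun x => (hPd x).continuousAt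
  have hd : ∀ x ∈ Set.Icc ρ₀ ρ₁, HasDerivAt (fun x => (L (P x)).re)
      ((deriv L (P x) * P').re) x := by
    intro x hx
    have h2 : HasDerivAt L (deriv L (P x)) (P x) :=
      (hL.differentiableAt (isOpen_ball.mem_nhds (hPball x hx))).hasDerivAt
    have h3 : HasDerivAt (fun x => L (P x)) (deriv L (P x) * P') x := HasDerivAt.comp x h2 (hPd x)
    exact (Complex.reCLM.hasFDerivAt (x := L (P x))).comp_hasDerivAt x h3
  have hc : ContinuousOn (fun x => (deriv L (P x) * P').re) (Set.Icc ρ₀ ρ₁) := by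
    have h2 : ContinuousOn (deriv L) (ball 0 1) := (hL.deriv isOpen_ball).continuousOn
    have h3 : ContinuousOn (fun x => deriv L (P x)) (Set.Icc ρ₀ ρ₁) :=
      h2.comp hPc.continuousOn hPball
    exact Complex.continuous_re.comp_continuousOn (h3.mul continuousOn_const)
  have key := ray_energy h0 h01 hd hc hB hA hAB
  refine key.trans ?_
  have hfc : ContinuousOn (fun x => (L (P x)).re) (Set.Ioo ρ₀ ρ₁) := fun x hx =>
    (hd x (Set.Ioo_subset_Icc_self hx)).continuousAt.continuousWithinAt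
  have hT : IsOpen (Set.Ioo ρ₀ ρ₁ ∩ (fun x => (L (P x)).re) ⁻¹' Set.Ioo A B) :=
    hfc.isOpen_inter_preimage isOpen_Ioo isOpen_Ioo
  have hTe : {x | x ∈ Set.Ioo ρ₀ ρ₁ ∧ A < (L (P x)).re ∧ (L (P x)).re < B} =
      Set.Ioo ρ₀ ρ₁ ∩ (fun x => (L (P x)).re) ⁻¹' Set.Ioo A B := rfl
  rw [hTe]
  refine le_trans (setLIntegral_mono' hT.measurableSet (g := fun x => ENNReal.ofReal x • G (P x))
    fun x hx => ?_) (lintegral_mono_set Set.inter_subset_left)
  have hx0 : 0 < x := h0.trans hx.1.1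
  have hx2 : P x ∈ ball v ρ₁ := by
    rw [mem_ball, sec_P_dist hv hx0]
    exact hx.1.2
  rw [hG (P x) (hPball x (Set.Ioo_subset_Icc_self hx.1)) hx2 hx.2.1 hx.2.2, smul_eq_mul,
    ← ENNReal.ofReal_mul hx0.le]
  refine ENNReal.ofReal_le_ofReal ?_
  rw [mul_comm]
  refine mul_le_mul_of_nonneg_left ?_ hx0.le
  have h3 : |(deriv L (P x) * P').re| ≤ ‖deriv L (P x)‖ := by
    refine (Complex.abs_re_le_norm _).trans ?_
    rw [norm_mul, hPn, mul_one]
  rw [← sq_abs]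
  exact pow_le_pow_left₀ (abs_nonneg _) h3 2

theorem sector_energy {L : ℂ → ℂ} (hL : DifferentiableOn ℂ L (ball 0 1)) {v : ℂ} (hv : ‖v‖ = 1)
    {β ρ₀ ρ₁ A B : ℝ} (hβ : 0 < β) (hβ2 : β < Real.pi / 2) (h0 : 0 < ρ₀) (h01 : ρ₀ < ρ₁)
    (h1 : ρ₁ ≤ Real.cos β) (hAB : A < B)
    (hB : ∀ φ : ℝ, |φ| ≤ β → B ≤ (L (v * (1 - ρ₀ * Complex.exp (φ * Complex.I)))).re)
    (hA : ∀ φ : ℝ, |φ| ≤ β → (L (v * (1 - ρ₁ * Complex.exp (φ * Complex.I)))).re ≤ A) :
    ENNReal.ofReal (2 * β * ((B - A) ^ 2 / Real.log (ρ₁ / ρ₀))) ≤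
      ∫⁻ z in {z | z ∈ ball (0 : ℂ) 1 ∧ z ∈ ball v ρ₁ ∧ A < (L z).re ∧ (L z).re < B},
        ENNReal.ofReal (‖deriv L z‖ ^ 2) := by
  set S : Set ℂ := {z | z ∈ ball (0 : ℂ) 1 ∧ z ∈ ball v ρ₁ ∧ A < (L z).re ∧ (L z).re < B} with hS
  have hSm : MeasurableSet S := by
    have hc : ContinuousOn (fun z => (L z).re) (ball (0 : ℂ) 1) :=
      Complex.continuous_re.comp_continuousOn hL.continuousOn
    have h2 : IsOpen (ball (0 : ℂ) 1 ∩ (fun z => (L z).re) ⁻¹' Set.Ioo A B) :=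
      hc.isOpen_inter_preimage isOpen_ball isOpen_Ioo
    have h3 : S = (ball (0 : ℂ) 1 ∩ (fun z => (L z).re) ⁻¹' Set.Ioo A B) ∩ ball v ρ₁ := by
      ext z
      simp only [hS, Set.mem_inter_iff, Set.mem_preimage, Set.mem_Ioo]
      constructor
      · rintro ⟨a, b, c, e⟩
        exact ⟨⟨a, c, e⟩, b⟩
      · rintro ⟨⟨a, c, e⟩, b⟩
        exact ⟨a, b, c, e⟩
    rw [h3]
    exact (h2.inter isOpen_ball).measurableSet
  set G : ℂ → ENNReal := S.indicator fun z => ENNReal.ofReal (‖deriv L z‖ ^ 2) with hG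
  have hGm : Measurable G := by
    refine Measurable.indicator ?_ hSm
    exact ENNReal.measurable_ofReal.comp ((measurable_deriv L).norm.pow_const 2)
  have hGe : ∀ z : ℂ, z ∈ ball (0 : ℂ) 1 → z ∈ ball v ρ₁ → A < (L z).re → (L z).re < B →
      G z = ENNReal.ofReal (‖deriv L z‖ ^ 2) := by
    intro z a b c e
    exact Set.indicator_of_mem (show z ∈ S from ⟨a, b, c, e⟩) _
  -- the isometry
  have hmp : MeasurePreserving (fun w : ℂ => v * (1 - w)) volume volume := by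
    have h2 : MeasurePreserving (fun w : ℂ => 1 - w) volume volume :=
      Measure.measurePreserving_sub_left volume 1
    have h3 : MeasurePreserving (rotation ⟨v, mem_sphere_zero_iff_norm.2 hv⟩ : ℂ → ℂ)
        volume volume := (rotation ⟨v, mem_sphere_zero_iff_norm.2 hv⟩).measurePreserving
    exact h3.comp h2
  rw [← lintegral_indicator hSm, ← hG, ← hmp.lintegral_comp hGm,
    ← Complex.lintegral_comp_polarCoord_symm]
  have hsub : Set.Ioo ρ₀ ρ₁ ×ˢ Set.Ioo (-β) β ⊆ polarCoord.target := by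
    rintro ⟨x, φ⟩ ⟨hx, hφ⟩
    rw [polarCoord_target]
    refine ⟨h0.trans hx.1, ?_, ?_⟩
    · have := hφ.1
      simp only at this ⊢
      linarith [Real.pi_pos]
    · have := hφ.2
      simp only at this ⊢
      linarith [Real.pi_pos]
  refine le_trans ?_ (lintegral_mono_set hsub)
  have hFm : Measurable fun p : ℝ × ℝ => ENNReal.ofReal p.1 •
      G (v * (1 - Complex.polarCoord.symm p)) := by
    have h2 : Measurable fun p : ℝ × ℝ => Complex.polarCoord.symm p := by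
      simp only [Complex.polarCoord_symm_apply]
      fun_prop
    exact (ENNReal.measurable_ofReal.comp measurable_fst).smul
      (hGm.comp ((measurable_const.sub h2).const_mul v))
  rw [Measure.volume_eq_prod, ← Measure.prod_restrict, lintegral_prod_symm' _ hFm]
  have hray : ∀ φ ∈ Set.Ioo (-β) β, ENNReal.ofReal ((B - A) ^ 2 / Real.log (ρ₁ / ρ₀)) ≤
      ∫⁻ x in Set.Ioo ρ₀ ρ₁, ENNReal.ofReal x • G (v * (1 - Complex.polarCoord.symm (x, φ))) := by
    intro φ hφ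
    have hφ' : |φ| ≤ β := abs_le.2 ⟨hφ.1.le, hφ.2.le⟩
    have h2 := sec_ray hL hv hβ2 h0 h01 h1 hAB hφ' (hB φ hφ') (hA φ hφ') hGe
    refine h2.trans (le_of_eq ?_)
    refine lintegral_congr fun x => ?_
    rw [Complex.polarCoord_symm_apply, Complex.exp_mul_I]
    simp only [Complex.ofReal_cos, Complex.ofReal_sin]
  calc ENNReal.ofReal (2 * β * ((B - A) ^ 2 / Real.log (ρ₁ / ρ₀)))
      = ∫⁻ _φ in Set.Ioo (-β) β, ENNReal.ofReal ((B - A) ^ 2 / Real.log (ρ₁ / ρ₀)) := by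
        rw [setLIntegral_const, Real.volume_Ioo, mul_comm, ENNReal.ofReal_mul' (by linarith)]
        congr 2
        ring
    _ ≤ _ := setLIntegral_mono' measurableSet_Ioo hray

end MPV
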