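import Pool.Agent.MPV.Gro
import Pool.Agent.MPV.Ene
import Pool.Agent.MPV.Sec

set_option autoImplicit false

/-!
# MPV BRN : two branches

`u = Re L`. `n ≥ 1`, `ρ₀ = 1 - e^{-1/n}` (so `1/(2n) ≤ ρ₀ ≤ 1/n`), `0 < β < π/2`,
`b = cos β/π`, `ρ₁ = b |t|/n` with `|t| ≤ π n` (so `ρ₁ ≤ cos β`), `ρ₀ < ρ₁`.

`branch_top`: for `|φ| ≤ β`, `ρ₀ ≤ cos β`: the arc `ψ ↦ v (1 - ρ₀ e^{iψ})`, `ψ` from `0` to `φ`, starts at
`v (1 - ρ₀)`, has speed `ρ₀` and `1 - ‖.‖^2 = 2ρ₀ cos ψ - ρ₀^2 ≥ ρ₀ cos β` on it, so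
`|deriv L| ρ₀ ≤ 4p/cos β` (`Cls.deriv_le`) and `u` changes by at most `4p β/cos β`.
`branch_bottom`: `1 - ‖z‖ ≥ (1 - ‖z‖^2)/2 ≥ ρ₁ cos β/2` at `z = v (1 - ρ₁ e^{iφ})`, and
`u z ≤ 2p log ((1 + ‖z‖)/(1 - ‖z‖)) ≤ 2p log (4/(ρ₁ cos β))` (`Cls.growth`, `(L 0).re = 0`).
`two_branch`: let `A = 2p log (4/(ρ₁ cos β))`, `B₁, B₂ > A`, with `sector_energy` for `v₁ = 1` and
`v₂ = e^{iθ}` with `2 ρ₁ ≤ ‖v₁ - v₂‖` (disjoint balls): the two sets are disjoint and contained in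
`{A < u < max B₁ B₂}`; `Cls.energy`:
`2β ((B₁ - A)^2 + (B₂ - A)^2)/log (ρ₁/ρ₀) ≤ π p (2 (max B₁ B₂ - A) + 1)`.
-/

open MeasureTheory Metric

namespace MPV

theorem brn_norm {v : ℂ} (hv : ‖v‖ = 1) (ρ ψ : ℝ) :
    ‖v * (1 - ρ * Complex.exp (ψ * Complex.I))‖ ^ 2 = 1 - 2 * ρ * Real.cos ψ + ρ ^ 2 := by
  rw [norm_mul, hv, one_mul, Complex.sq_norm, Complex.normSq_apply]
  have h1 : (1 - (ρ : ℂ) * Complex.exp (ψ * Complex.I)).re = 1 - ρ * Real.cos ψ := by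
    rw [Complex.sub_re, Complex.one_re, Complex.re_ofReal_mul, Complex.exp_ofReal_mul_I_re]
  have h2 : (1 - (ρ : ℂ) * Complex.exp (ψ * Complex.I)).im = -(ρ * Real.sin ψ) := by
    rw [Complex.sub_im, Complex.one_im, Complex.im_ofReal_mul, Complex.exp_ofReal_mul_I_im]
    ring
  rw [h1, h2]
  have := Real.sin_sq_add_cos_sq ψ
  nlinarith

theorem brn_cos {β : ℝ} (hβ2 : β < Real.pi / 2) {ψ : ℝ} (hψ : |ψ| ≤ β) :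
    Real.cos β ≤ Real.cos ψ := by
  rw [← Real.cos_abs ψ]
  apply Real.cos_le_cos_of_nonneg_of_le_pi (abs_nonneg ψ) _ hψ
  have := Real.pi_pos
  linarith

theorem brn_gap {v : ℂ} (hv : ‖v‖ = 1) {β ρ : ℝ} (hβ2 : β < Real.pi / 2) (h0 : 0 < ρ)
    (h1 : ρ ≤ Real.cos β) {ψ : ℝ} (hψ : |ψ| ≤ β) :
    ρ * Real.cos β ≤ 1 - ‖v * (1 - ρ * Complex.exp (ψ * Complex.I))‖ ^ 2 := by
  rw [brn_norm hv]
  have h2 := brn_cos hβ2 hψ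
  nlinarith

theorem brn_mem {v : ℂ} (hv : ‖v‖ = 1) {β ρ : ℝ} (hβ2 : β < Real.pi / 2) (h0 : 0 < ρ)
    (h1 : ρ ≤ Real.cos β) {ψ : ℝ} (hψ : |ψ| ≤ β) :
    v * (1 - ρ * Complex.exp (ψ * Complex.I)) ∈ ball (0 : ℂ) 1 := by
  have h2 := brn_gap hv hβ2 h0 h1 hψ
  have hc : 0 < Real.cos β := lt_of_lt_of_le h0 h1
  rw [mem_ball_zero_iff]
  have h3 : 0 < ρ * Real.cos β := mul_pos h0 hc
  have h4 := norm_nonneg (v * (1 - ρ * Complex.exp (ψ * Complex.I)))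
  by_contra hcon
  push Not at hcon
  nlinarith

theorem branch_top {p : ℝ} (hp : 1 / 2 ≤ p) {L : ℂ → ℂ} (h : Cls p L) {v : ℂ} (hv : ‖v‖ = 1)
    {β ρ₀ : ℝ} (hβ : 0 < β) (hβ2 : β < Real.pi / 2) (h0 : 0 < ρ₀) (h1 : ρ₀ ≤ Real.cos β) {φ : ℝ}
    (hφ : |φ| ≤ β) :
    (L (v * (1 - ρ₀ : ℝ))).re - 4 * p * β / Real.cos β ≤
      (L (v * (1 - ρ₀ * Complex.exp (φ * Complex.I)))).re := by
  have hc : 0 < Real.cos β := lt_of_lt_of_le h0 h1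
  set γ : ℝ → ℂ := fun ψ => v * (1 - ρ₀ * Complex.exp (ψ * Complex.I)) with hγ
  have hγd : ∀ ψ : ℝ, HasDerivAt γ (v * (-(ρ₀ * (Complex.exp (ψ * Complex.I) * Complex.I)))) ψ := by
    intro ψ
    have e1 : HasDerivAt (fun x : ℝ => (x : ℂ) * Complex.I) Complex.I ψ := by
      simpa using (Complex.ofRealCLM.hasDerivAt (x := ψ)).mul_const Complex.I
    have e2 := e1.cexp
    have e3 := ((e2.const_mul (ρ₀ : ℂ)).const_sub 1).const_mul v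
    exact e3
  have hmem : ∀ ψ : ℝ, |ψ| ≤ β → γ ψ ∈ ball (0 : ℂ) 1 := fun ψ hψ =>
    brn_mem hv hβ2 h0 h1 hψ
  have hLd : ∀ ψ : ℝ, |ψ| ≤ β → HasDerivAt (fun x => L (γ x))
      (deriv L (γ ψ) * (v * (-(ρ₀ * (Complex.exp (ψ * Complex.I) * Complex.I))))) ψ := by
    intro ψ hψ
    have e1 : HasDerivAt L (deriv L (γ ψ)) (γ ψ) :=
      (h.diff.differentiableAt (isOpen_ball.mem_nhds (hmem ψ hψ))).hasDerivAt
    exact e1.comp ψ (hγd ψ)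
  have hbd : ∀ ψ : ℝ, |ψ| ≤ β →
      ‖deriv L (γ ψ) * (v * (-(ρ₀ * (Complex.exp (ψ * Complex.I) * Complex.I))))‖ ≤
        4 * p / Real.cos β := by
    intro ψ hψ
    have e1 := h.deriv_le hp (hmem ψ hψ)
    have e2 : ρ₀ * Real.cos β ≤ 1 - ‖γ ψ‖ ^ 2 := brn_gap hv hβ2 h0 h1 hψ
    have e3 : ‖v * (-(ρ₀ * (Complex.exp (ψ * Complex.I) * Complex.I)))‖ = ρ₀ := by
      rw [norm_mul, hv, norm_neg, norm_mul, norm_mul, Complex.norm_exp_ofReal_mul_I,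
        Complex.norm_I, Complex.norm_real, Real.norm_eq_abs, abs_of_pos h0]
      ring
    rw [norm_mul, e3, le_div_iff₀ hc]
    have e4 := norm_nonneg (deriv L (γ ψ))
    calc ‖deriv L (γ ψ)‖ * ρ₀ * Real.cos β = ‖deriv L (γ ψ)‖ * (ρ₀ * Real.cos β) := by ring
      _ ≤ ‖deriv L (γ ψ)‖ * (1 - ‖γ ψ‖ ^ 2) := mul_le_mul_of_nonneg_left e2 e4
      _ ≤ 4 * p := e1
  have hmv := Convex.norm_image_sub_le_of_norm_hasDerivWithin_le (f := fun x => L (γ x))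
    (s := Set.Icc (-β) β) (x := 0) (y := φ) (C := 4 * p / Real.cos β)
    (fun ψ hψ => (hLd ψ (abs_le.2 hψ)).hasDerivWithinAt) (fun ψ hψ => hbd ψ (abs_le.2 hψ))
    (convex_Icc _ _) ⟨by linarith, hβ.le⟩ (abs_le.1 hφ)
  have hre : (L (γ 0)).re - (L (γ φ)).re ≤ ‖L (γ φ) - L (γ 0)‖ := by
    have e1 := Complex.abs_re_le_norm (L (γ φ) - L (γ 0))
    rw [Complex.sub_re] at e1
    have e2 := neg_abs_le ((L (γ φ)).re - (L (γ 0)).re)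
    linarith
  have hγ0 : γ 0 = v * (1 - ρ₀ : ℝ) := by
    simp [hγ]
  rw [← hγ0]
  show (L (γ 0)).re - 4 * p * β / Real.cos β ≤ (L (γ φ)).re
  have hfin : 4 * p / Real.cos β * ‖φ - 0‖ ≤ 4 * p * β / Real.cos β := by
    rw [sub_zero, Real.norm_eq_abs, div_mul_eq_mul_div]
    apply div_le_div_of_nonneg_right _ hc.le
    nlinarith
  linarith

theorem branch_bottom {p : ℝ} (hp : 1 / 2 ≤ p) {L : ℂ → ℂ} (h : Cls p L) (hL0 : (L 0).re = 0)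
    {v : ℂ} (hv : ‖v‖ = 1) {β ρ₁ : ℝ} (hβ : 0 < β) (hβ2 : β < Real.pi / 2) (h0 : 0 < ρ₁)
    (h1 : ρ₁ ≤ Real.cos β) {φ : ℝ} (hφ : |φ| ≤ β) :
    (L (v * (1 - ρ₁ * Complex.exp (φ * Complex.I)))).re ≤
      2 * p * Real.log (4 / (ρ₁ * Real.cos β)) := by
  have hc : 0 < Real.cos β := lt_of_lt_of_le h0 h1
  set z : ℂ := v * (1 - ρ₁ * Complex.exp (φ * Complex.I)) with hz
  have hmem : z ∈ ball (0 : ℂ) 1 := brn_mem hv hβ2 h0 h1 hφ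
  have hgap : ρ₁ * Real.cos β ≤ 1 - ‖z‖ ^ 2 := brn_gap hv hβ2 h0 h1 hφ
  have hlt : ‖z‖ < 1 := mem_ball_zero_iff.1 hmem
  have hz0 := norm_nonneg z
  have hgr := h.growth hp hmem
  rw [hL0, sub_zero] at hgr
  have h2 : ρ₁ * Real.cos β / 2 ≤ 1 - ‖z‖ := by nlinarith
  have h3 : 0 < ρ₁ * Real.cos β := mul_pos h0 hc
  have h4 : (1 + ‖z‖) / (1 - ‖z‖) ≤ 4 / (ρ₁ * Real.cos β) := by
    rw [div_le_div_iff₀ (by linarith) h3]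
    nlinarith
  have h5 : Real.log ((1 + ‖z‖) / (1 - ‖z‖)) ≤ Real.log (4 / (ρ₁ * Real.cos β)) := by
    apply Real.log_le_log _ h4
    apply div_pos <;> linarith
  have h6 := le_abs_self (L z).re
  nlinarith

theorem brn_open {L : ℂ → ℂ} (hL : ContinuousOn L (ball 0 1)) (v : ℂ) (ρ A B : ℝ) :
    IsOpen {z | z ∈ ball (0 : ℂ) 1 ∧ z ∈ ball v ρ ∧ A < (L z).re ∧ (L z).re < B} := by
  have h1 : IsOpen (ball (0 : ℂ) 1 ∩ (fun z => (L z).re) ⁻¹' Set.Ioo A B) :=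
    (Complex.continuous_re.comp_continuousOn hL).isOpen_inter_preimage isOpen_ball isOpen_Ioo
  have h2 : {z | z ∈ ball (0 : ℂ) 1 ∧ z ∈ ball v ρ ∧ A < (L z).re ∧ (L z).re < B} =
      (ball (0 : ℂ) 1 ∩ (fun z => (L z).re) ⁻¹' Set.Ioo A B) ∩ ball v ρ := by
    ext z
    simp only [Set.mem_ofPred_eq, Set.mem_inter_iff, Set.mem_preimage, Set.mem_Ioo]
    tauto
  rw [h2]
  exact h1.inter isOpen_ball

theorem two_branch {p : ℝ} (hp : 1 / 2 ≤ p) {L : ℂ → ℂ} (h : Cls p L) (hL0 : (L 0).re = 0)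
    {v : ℂ} (hv : ‖v‖ = 1) {β ρ₀ ρ₁ A B₁ B₂ : ℝ} (hβ : 0 < β) (hβ2 : β < Real.pi / 2)
    (h0 : 0 < ρ₀) (h01 : ρ₀ < ρ₁) (h1 : ρ₁ ≤ Real.cos β) (hsep : 2 * ρ₁ ≤ ‖v - 1‖)
    (hA : A = 2 * p * Real.log (4 / (ρ₁ * Real.cos β)))
    (hB₁ : B₁ ≤ (L (1 - ρ₀ : ℝ)).re - 4 * p * β / Real.cos β)
    (hB₂ : B₂ ≤ (L (v * (1 - ρ₀ : ℝ))).re - 4 * p * β / Real.cos β)
    (hAB₁ : A < B₁) (hAB₂ : A < B₂) :
    2 * β * ((B₁ - A) ^ 2 + (B₂ - A) ^ 2) ≤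
      Real.pi * p * (2 * (max B₁ B₂ - A) + 1) * Real.log (ρ₁ / ρ₀) := by
  have hρ₁ : 0 < ρ₁ := h0.trans h01
  have hlog : 0 < Real.log (ρ₁ / ρ₀) := Real.log_pos ((one_lt_div h0).2 h01)
  have hv1 : ‖(1 : ℂ)‖ = 1 := norm_one
  have hρ₀c : ρ₀ ≤ Real.cos β := h01.le.trans h1
  have hE₁ := sector_energy h.diff hv1 hβ hβ2 h0 h01 h1 hAB₁
    (fun φ hφ => by
      have := branch_top hp h hv1 hβ hβ2 h0 hρ₀c hφ
      rw [one_mul] at this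
      exact hB₁.trans this)
    (fun φ hφ => by
      rw [hA]
      exact branch_bottom hp h hL0 hv1 hβ hβ2 hρ₁ h1 hφ)
  have hE₂ := sector_energy h.diff hv hβ hβ2 h0 h01 h1 hAB₂
    (fun φ hφ => hB₂.trans (branch_top hp h hv hβ hβ2 h0 hρ₀c hφ))
    (fun φ hφ => by
      rw [hA]
      exact branch_bottom hp h hL0 hv hβ hβ2 hρ₁ h1 hφ)
  have hm : A ≤ max B₁ B₂ := hAB₁.le.trans (le_max_left _ _)
  have hE := h.energy (by linarith : 0 < p) hm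
  set S₁ : Set ℂ := {z | z ∈ ball (0 : ℂ) 1 ∧ z ∈ ball (1 : ℂ) ρ₁ ∧ A < (L z).re ∧ (L z).re < B₁}
  set S₂ : Set ℂ := {z | z ∈ ball (0 : ℂ) 1 ∧ z ∈ ball v ρ₁ ∧ A < (L z).re ∧ (L z).re < B₂}
  have hdisj : Disjoint S₁ S₂ := by
    rw [Set.disjoint_left]
    rintro z ⟨-, hz1, -, -⟩ ⟨-, hz2, -, -⟩
    rw [mem_ball, dist_eq_norm] at hz1 hz2
    have e : v - 1 = (z - 1) - (z - v) := by ring
    have : ‖v - 1‖ ≤ ‖z - 1‖ + ‖z - v‖ := by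
      rw [e]
      exact norm_sub_le _ _
    linarith
  have hmeas : MeasurableSet S₂ := (brn_open h.diff.continuousOn v ρ₁ A B₂).measurableSet
  have hunion : ∫⁻ z in S₁ ∪ S₂, ENNReal.ofReal (‖deriv L z‖ ^ 2) =
      (∫⁻ z in S₁, ENNReal.ofReal (‖deriv L z‖ ^ 2)) +
        ∫⁻ z in S₂, ENNReal.ofReal (‖deriv L z‖ ^ 2) := lintegral_union hmeas hdisj
  have hsub : S₁ ∪ S₂ ⊆ {z | z ∈ ball (0 : ℂ) 1 ∧ A < (L z).re ∧ (L z).re < max B₁ B₂} := by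
    rintro z (⟨hz1, -, hz2, hz3⟩ | ⟨hz1, -, hz2, hz3⟩)
    · exact ⟨hz1, hz2, hz3.trans_le (le_max_left _ _)⟩
    · exact ⟨hz1, hz2, hz3.trans_le (le_max_right _ _)⟩
  have htot : ENNReal.ofReal (2 * β * ((B₁ - A) ^ 2 / Real.log (ρ₁ / ρ₀)) +
      2 * β * ((B₂ - A) ^ 2 / Real.log (ρ₁ / ρ₀))) ≤
      ENNReal.ofReal (Real.pi * p * (2 * (max B₁ B₂ - A) + 1)) := by
    rw [ENNReal.ofReal_add (by positivity) (by positivity)]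
    calc _ ≤ (∫⁻ z in S₁, ENNReal.ofReal (‖deriv L z‖ ^ 2)) +
        ∫⁻ z in S₂, ENNReal.ofReal (‖deriv L z‖ ^ 2) := add_le_add hE₁ hE₂
      _ = ∫⁻ z in S₁ ∪ S₂, ENNReal.ofReal (‖deriv L z‖ ^ 2) := hunion.symm
      _ ≤ _ := lintegral_mono_set hsub
      _ ≤ _ := hE
  have hp0 : 0 < p := by linarith
  have hpos : 0 ≤ Real.pi * p * (2 * (max B₁ B₂ - A) + 1) := by
    have := Real.pi_pos
    have h3 : 0 ≤ 2 * (max B₁ B₂ - A) + 1 := by linarith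
    positivity
  rw [ENNReal.ofReal_le_ofReal_iff hpos] at htot
  have e : 2 * β * ((B₁ - A) ^ 2 / Real.log (ρ₁ / ρ₀)) +
      2 * β * ((B₂ - A) ^ 2 / Real.log (ρ₁ / ρ₀)) =
      2 * β * ((B₁ - A) ^ 2 + (B₂ - A) ^ 2) / Real.log (ρ₁ / ρ₀) := by ring
  rw [e, div_le_iff₀ hlog] at htot
  exact htot

end MPV
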