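import Pool.Agent.MPV.Brn

set_option autoImplicit false

/-!
# MPV LOC : localisation

PROOF. Constants: `κ = (p - 1/2)/2 > 0`, `β = π/(2 (1 + κ^2/(4p^2))) < π/2`, so
`π/(2β) - 1 = κ^2/(4p^2)`. `b = cos β/π ≤ 1/π`. `θ = t/n`, `v = e^{iθ}`, `r = e^{-1/n}`, `ρ₀ = 1 - r`
(`1/(2n) ≤ ρ₀ ≤ 1/n`), `ρ₁ = b |t|/n = b |θ|`. The point is `exp ((-1 + t i)/n) = v r = v (1 - ρ₀)`.
`ρ₁ ≤ cos β` since `|θ| ≤ π`. `‖v - 1‖ = 2 |sin (θ/2)| ≥ 2|θ|/π ≥ 2 ρ₁` (`b ≤ 1/π`).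
`log (ρ₁/ρ₀) ≤ log (2 b |t|) ≤ log |t| =: ℓ` (`2b ≤ 1`).
General bound: `Re L (v r) ≤ 2p log (2/(1-r)) ≤ 2p log (4n)`, so the claim is clear for `|t| ≤ T0`, any
constant `T0` (depending on `p, δ`): `exp (Re L) ≤ 4^(2p) n^(2p) ≤ 4^(2p) T0^(p+1/2) n^(2p) |t|^(-(p+1/2))`.
Let `|t| > T0`, `T0 ≥ e`, `b T0 > 1` (so `ρ₀ ≤ 1/n < ρ₁`). `C2 = 4pβ/cos β`.
`A = 2p log (4/(ρ₁ cos β)) = 2p log n - 2p ℓ + C1`, `C1 = 2p log (4/(b cos β))`.
`B₁ = Re L r - C2 ≥ log δ + 2p log n - C2`, so `P = B₁ - A ≥ 2pℓ - C3`, `C3 = C1 + C2 - log δ` (take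
`C3' = max C3 0`); `T0` so large that `2p log T0 > C3'`, so `P > 0`. Also `B₁ ≤ 2p log (4n)` and
`C1 ≥ 2p log 4`, so `P ≤ 2pℓ`. `B₂ = Re L (v r) - C2`, `x = B₂ - A ≤ 2pℓ` in the same way.
If `x ≤ 0`: `Re L (v r) ≤ A + C2 = 2p log n - 2pℓ + C1 + C2`, fine (`2p ≥ p + 1/2`).
If `x > 0`: `two_branch`: `2β (P^2 + x^2) ≤ π p (4pℓ + 1) ℓ`, so (with `π/(2β) = 1 + κ^2/(4p^2)`, and
`P^2 ≥ (2pℓ - C3')^2 ≥ 4p^2ℓ^2 - 4p C3' ℓ`)
`x^2 ≤ (1 + κ^2/(4p^2)) (4p^2ℓ^2 + pℓ) - 4p^2ℓ^2 + 4p C3' ℓ = κ^2 ℓ^2 + C6 ℓ`, hence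
`x ≤ κ ℓ + C6/(2κ)` (`(κℓ + C6/(2κ))^2 ≥ κ^2ℓ^2 + C6 ℓ`), and
`Re L (v r) = A + C2 + x ≤ 2p log n - (2p - κ) ℓ + C7`; `2p - κ ≥ p + 1/2` (`κ = (p-1/2)/2 ≤ p - 1/2`).
-/

open MeasureTheory Metric

namespace MPV

private theorem one_sub_exp_ge {x : ℝ} (hx : 0 ≤ x) (hx1 : x ≤ 1) : x / 2 ≤ 1 - Real.exp (-x) := by
  have h1 : Real.exp (-x) ≤ 1 / (1 + x) := by
    rw [Real.exp_neg, ← one_div]
    apply one_div_le_one_div_of_le (by linarith)
    have := Real.add_one_le_exp x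
    linarith
  have h2 : x / 2 ≤ 1 - 1 / (1 + x) := by
    have h3 : 1 - 1 / (1 + x) = x / (1 + x) := by
      field_simp
      ring
    rw [h3]
    apply div_le_div_of_nonneg_left hx (by linarith) (by linarith)
  linarith

private theorem general_bound {p : ℝ} (hp : 1 / 2 < p) {L : ℂ → ℂ} (hL : Cls p L)
    (h0 : (L 0).re = 0) {n : ℕ} (hn : 1 ≤ n) {z : ℂ} (hz : ‖z‖ = Real.exp (-1 / n)) :
    (L z).re ≤ 2 * p * Real.log (4 * n) := by
  have hn0 : (1 : ℝ) ≤ n := by exact_mod_cast hn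
  have hr1 : Real.exp (-1 / (n : ℝ)) < 1 := by
    rw [Real.exp_lt_one_iff]
    apply div_neg_of_neg_of_pos <;> linarith
  have h1 := hL.growth (by linarith) (z := z) (by rw [mem_ball_zero_iff, hz]; exact hr1)
  rw [h0, sub_zero, hz] at h1
  have h2 := (abs_le.1 h1).2
  refine h2.trans ?_
  refine mul_le_mul_of_nonneg_left ?_ (by linarith)
  have h3 : 1 / (n : ℝ) / 2 ≤ 1 - Real.exp (-(1 / (n : ℝ))) :=
    one_sub_exp_ge (by positivity) (by rw [div_le_one (by linarith)]; exact hn0)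
  have h4 : -(1 / (n : ℝ)) = -1 / n := by ring
  rw [h4] at h3
  apply Real.log_le_log
  · apply div_pos
    · have := Real.exp_pos (-1 / (n : ℝ)); linarith
    · linarith
  · rw [div_le_iff₀ (by linarith)]
    have h5 : 4 * (n : ℝ) * (1 / n / 2) = 2 := by field_simp; norm_num
    have h6 : 4 * (n : ℝ) * (1 / n / 2) ≤ 4 * n * (1 - Real.exp (-1 / n)) :=
      mul_le_mul_of_nonneg_left h3 (by linarith)
    linarith

theorem loc {p : ℝ} (hp : 1 / 2 < p) {δ : ℝ} (hδ : 0 < δ) : ∃ C : ℝ, 0 < C ∧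
    ∀ L : ℂ → ℂ, Cls p L → (L 0).re = 0 → ∀ n : ℕ, 1 ≤ n →
      Real.log (δ * (n : ℝ) ^ (2 * p)) ≤ (L (Complex.exp (-1 / n))).re →
      ∀ t : ℝ, 1 ≤ |t| → |t| ≤ Real.pi * n →
        Real.exp (L (Complex.exp ((-1 + t * Complex.I) / n))).re ≤
          C * (n : ℝ) ^ (2 * p) * |t| ^ (-(p + 1 / 2)) := by
  have hπ := Real.pi_pos
  have hp0 : 0 < p := by linarith
  obtain ⟨κ, hκ⟩ : ∃ κ : ℝ, κ = (p - 1 / 2) / 2 := ⟨_, rfl⟩
  have hκ0 : 0 < κ := by rw [hκ]; linarith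
  obtain ⟨w, hw⟩ : ∃ w : ℝ, w = κ ^ 2 / (4 * p ^ 2) := ⟨_, rfl⟩
  have hw0 : 0 < w := by rw [hw]; positivity
  obtain ⟨β, hβ⟩ : ∃ β : ℝ, β = Real.pi / (2 * (1 + w)) := ⟨_, rfl⟩
  have hβ0 : 0 < β := by rw [hβ]; positivity
  have hβ2 : β < Real.pi / 2 := by
    rw [hβ]
    apply div_lt_div_of_pos_left hπ (by norm_num) (by linarith)
  have hβw : Real.pi = 2 * β * (1 + w) := by rw [hβ]; field_simp
  obtain ⟨c, hc⟩ : ∃ c : ℝ, c = Real.cos β := ⟨_, rfl⟩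
  have hc0 : 0 < c := by rw [hc]; exact Real.cos_pos_of_mem_Ioo ⟨by linarith, hβ2⟩
  have hc1 : c ≤ 1 := by rw [hc]; exact Real.cos_le_one _
  obtain ⟨b, hb⟩ : ∃ b : ℝ, b = c / Real.pi := ⟨_, rfl⟩
  have hb0 : 0 < b := by rw [hb]; positivity
  have hπ3 := Real.pi_gt_three
  have hb2 : 2 * b ≤ 1 := by
    rw [hb, ← mul_div_assoc, div_le_one hπ]
    linarith
  obtain ⟨C2, hC2⟩ : ∃ C2 : ℝ, C2 = 4 * p * β / c := ⟨_, rfl⟩
  have hC20 : 0 < C2 := by rw [hC2]; positivity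
  obtain ⟨C1, hC1⟩ : ∃ C1 : ℝ, C1 = 2 * p * Real.log (4 / (b * c)) := ⟨_, rfl⟩
  have hbc : b * c ≤ 1 := by nlinarith
  have hC14 : 2 * p * Real.log 4 ≤ C1 := by
    rw [hC1]
    refine mul_le_mul_of_nonneg_left ?_ (by linarith)
    apply Real.log_le_log (by norm_num)
    rw [le_div_iff₀ (by positivity)]
    nlinarith
  obtain ⟨C3, hC3⟩ : ∃ C3 : ℝ, C3 = max (C1 + C2 - Real.log δ) 0 := ⟨_, rfl⟩
  have hC30 : 0 ≤ C3 := by rw [hC3]; exact le_max_right _ _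
  have hC3' : C1 + C2 - Real.log δ ≤ C3 := by rw [hC3]; exact le_max_left _ _
  obtain ⟨T0, hT0⟩ : ∃ T0 : ℝ, T0 = max (max (Real.exp 1) (2 / b)) (Real.exp ((C3 + 1) / (2 * p))) :=
    ⟨_, rfl⟩
  have hT0e : Real.exp 1 ≤ T0 := by rw [hT0]; exact (le_max_left _ _).trans (le_max_left _ _)
  have hT0b : 2 / b ≤ T0 := by rw [hT0]; exact (le_max_right _ _).trans (le_max_left _ _)
  have hT0c : Real.exp ((C3 + 1) / (2 * p)) ≤ T0 := by rw [hT0]; exact le_max_right _ _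
  have hT00 : 0 < T0 := lt_of_lt_of_le (Real.exp_pos 1) hT0e
  obtain ⟨C6, hC6⟩ : ∃ C6 : ℝ, C6 = (1 + w) * p + 4 * p * C3 := ⟨_, rfl⟩
  have hC60 : 0 < C6 := by rw [hC6]; positivity
  obtain ⟨C7, hC7⟩ : ∃ C7 : ℝ, C7 = C1 + C2 + C6 / (2 * κ) := ⟨_, rfl⟩
  refine ⟨max ((4 : ℝ) ^ (2 * p) * T0 ^ (p + 1 / 2)) (Real.exp C7),
    lt_of_lt_of_le (Real.exp_pos _) (le_max_right _ _), ?_⟩
  intro L hL h0 n hn hpk t ht1 htn
  have hn1 : (1 : ℝ) ≤ n := by exact_mod_cast hn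
  have hn0 : (0 : ℝ) < n := by linarith
  have ht0 : 0 < |t| := by linarith
  have hnorm : ‖Complex.exp ((-1 + t * Complex.I) / n)‖ = Real.exp (-1 / n) := by
    rw [Complex.norm_exp]
    congr 1
    have : ((-1 + (t : ℂ) * Complex.I) / (n : ℂ)) = ((-1 / n : ℝ) : ℂ) + ((t / n : ℝ) : ℂ) * Complex.I := by
      push_cast
      field_simp
    rw [this]
    simp
  have hgen := general_bound hp hL h0 hn hnorm
  obtain ⟨u, hu⟩ : ∃ u : ℝ, u = (L (Complex.exp ((-1 + t * Complex.I) / n))).re := ⟨_, rfl⟩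
  rw [← hu] at hgen ⊢
  have hnp : (0 : ℝ) < (n : ℝ) ^ (2 * p) := Real.rpow_pos_of_pos hn0 _
  have hlog4n : 2 * p * Real.log (4 * n) = Real.log ((4 : ℝ) ^ (2 * p) * (n : ℝ) ^ (2 * p)) := by
    rw [Real.log_mul (by positivity) hnp.ne', Real.log_rpow (by norm_num), Real.log_rpow hn0,
      Real.log_mul (by norm_num) hn0.ne']
    ring
  rcases le_or_gt |t| T0 with hsmall | hbig
  · -- bounded `t`
    have h1 : Real.exp u ≤ (4 : ℝ) ^ (2 * p) * (n : ℝ) ^ (2 * p) := by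
      rw [← Real.exp_log (show (0 : ℝ) < (4 : ℝ) ^ (2 * p) * (n : ℝ) ^ (2 * p) by positivity)]
      rw [← hlog4n]
      exact Real.exp_le_exp.2 hgen
    have h2 : 1 ≤ T0 ^ (p + 1 / 2) * |t| ^ (-(p + 1 / 2)) := by
      rw [Real.rpow_neg ht0.le, ← div_eq_mul_inv, one_le_div (by positivity)]
      exact Real.rpow_le_rpow ht0.le hsmall (by linarith)
    calc Real.exp u ≤ (4 : ℝ) ^ (2 * p) * (n : ℝ) ^ (2 * p) * 1 := by rw [mul_one]; exact h1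
      _ ≤ (4 : ℝ) ^ (2 * p) * (n : ℝ) ^ (2 * p) * (T0 ^ (p + 1 / 2) * |t| ^ (-(p + 1 / 2))) :=
          mul_le_mul_of_nonneg_left h2 (by positivity)
      _ = (4 : ℝ) ^ (2 * p) * T0 ^ (p + 1 / 2) * (n : ℝ) ^ (2 * p) * |t| ^ (-(p + 1 / 2)) := by ring
      _ ≤ _ := by
          gcongr
          exact le_max_left _ _
  -- large `t`
  obtain ⟨l, hl⟩ : ∃ l : ℝ, l = Real.log |t| := ⟨_, rfl⟩
  have hl1 : 1 ≤ l := by
    rw [hl, Real.le_log_iff_exp_le ht0]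
    linarith
  have hlC : C3 + 1 ≤ 2 * p * l := by
    have h1 : (C3 + 1) / (2 * p) ≤ l := by
      rw [hl, Real.le_log_iff_exp_le ht0]
      linarith
    rw [div_le_iff₀ (by linarith)] at h1
    linarith
  have hbt : 2 < b * |t| := by
    have h1 : 2 / b < |t| := lt_of_le_of_lt hT0b hbig
    rw [div_lt_iff₀ hb0] at h1
    linarith
  obtain ⟨ρ₀, hρ₀⟩ : ∃ ρ₀ : ℝ, ρ₀ = 1 - Real.exp (-1 / n) := ⟨_, rfl⟩
  have hneg : -(1 / (n : ℝ)) = -1 / n := by ring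
  have hρ₀lo : 1 / (n : ℝ) / 2 ≤ ρ₀ := by
    have h3 : 1 / (n : ℝ) / 2 ≤ 1 - Real.exp (-(1 / (n : ℝ))) :=
      one_sub_exp_ge (by positivity) (by rw [div_le_one hn0]; exact hn1)
    rw [hneg] at h3
    rw [hρ₀]; exact h3
  have hρ₀hi : ρ₀ ≤ 1 / n := by
    have h3 := Real.add_one_le_exp (-1 / (n : ℝ))
    have h4 : -1 / (n : ℝ) = -(1 / n) := by ring
    rw [hρ₀]
    linarith
  have hρ₀0 : 0 < ρ₀ := lt_of_lt_of_le (by positivity) hρ₀lo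
  obtain ⟨ρ₁, hρ₁⟩ : ∃ ρ₁ : ℝ, ρ₁ = b * |t| / n := ⟨_, rfl⟩
  have hρ₁0 : 0 < ρ₁ := by rw [hρ₁]; positivity
  have hρ01 : ρ₀ < ρ₁ := by
    refine lt_of_le_of_lt hρ₀hi ?_
    rw [hρ₁]
    apply div_lt_div_of_pos_right _ hn0
    linarith
  have hρ₁c : ρ₁ ≤ Real.cos β := by
    rw [← hc, hρ₁, div_le_iff₀ hn0, hb]
    calc c / Real.pi * |t| ≤ c / Real.pi * (Real.pi * n) :=
          mul_le_mul_of_nonneg_left htn (by positivity)
      _ = c * n := by field_simp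
  -- the point
  obtain ⟨v, hv⟩ : ∃ v : ℂ, v = Complex.exp (Complex.I * ((t / n : ℝ) : ℂ)) := ⟨_, rfl⟩
  have hvn : ‖v‖ = 1 := by rw [hv, mul_comm, Complex.norm_exp_ofReal_mul_I]
  have hpt : Complex.exp ((-1 + t * Complex.I) / n) = v * ((1 - ρ₀ : ℝ) : ℂ) := by
    have h1 : (1 - ρ₀ : ℝ) = Real.exp (-1 / n) := by rw [hρ₀]; ring
    rw [h1, hv, Complex.ofReal_exp, ← Complex.exp_add]
    congr 1
    push_cast
    field_simp
    ring
  have hpt0 : Complex.exp (-1 / (n : ℂ)) = ((1 - ρ₀ : ℝ) : ℂ) := by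
    have h1 : (1 - ρ₀ : ℝ) = Real.exp (-1 / n) := by rw [hρ₀]; ring
    rw [h1, Complex.ofReal_exp]
    congr 1
    push_cast
    ring
  have hsep : 2 * ρ₁ ≤ ‖v - 1‖ := by
    rw [hv, Complex.norm_exp_I_mul_ofReal_sub_one]
    have h1 : |t / n / 2| ≤ Real.pi / 2 := by
      rw [abs_div, abs_div, abs_of_pos hn0, abs_two]
      have : |t| / n ≤ Real.pi := by rw [div_le_iff₀ hn0]; exact htn
      linarith
    have h2 := Real.mul_abs_le_abs_sin h1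
    rw [Real.norm_eq_abs, abs_mul, abs_two]
    have h3 : |t / n / 2| = |t| / n / 2 := by
      rw [abs_div, abs_div, abs_of_pos hn0, abs_two]
    rw [h3] at h2
    refine mul_le_mul_of_nonneg_left (le_trans ?_ h2) (by norm_num)
    rw [hρ₁, hb]
    have h4 : c / Real.pi * |t| / n ≤ 1 / Real.pi * |t| / n := by gcongr
    calc c / Real.pi * |t| / n ≤ 1 / Real.pi * |t| / n := h4
      _ = 2 / Real.pi * (|t| / n / 2) := by ring
  have hlogr : Real.log (ρ₁ / ρ₀) ≤ l := by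
    rw [hl]
    apply Real.log_le_log (by positivity)
    rw [div_le_iff₀ hρ₀0]
    calc ρ₁ = b * |t| / n := hρ₁
      _ = |t| * (2 * b) * (1 / n / 2) := by ring
      _ ≤ |t| * 1 * (1 / n / 2) := by gcongr
      _ ≤ |t| * ρ₀ := by rw [mul_one]; exact mul_le_mul_of_nonneg_left hρ₀lo ht0.le
  have hlogr0 : 0 < Real.log (ρ₁ / ρ₀) := Real.log_pos (by rw [one_lt_div hρ₀0]; exact hρ01)
  -- the levels
  obtain ⟨A, hA⟩ : ∃ A : ℝ, A = 2 * p * Real.log (4 / (ρ₁ * Real.cos β)) := ⟨_, rfl⟩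
  have hA' : A = 2 * p * Real.log n - 2 * p * l + C1 := by
    rw [hA, hC1, ← hc]
    have h1 : 4 / (ρ₁ * c) = (n : ℝ) * (|t|)⁻¹ * (4 / (b * c)) := by
      rw [hρ₁]; field_simp
    rw [h1, Real.log_mul (by positivity) (by positivity), Real.log_mul hn0.ne' (by positivity),
      Real.log_inv, hl]
    ring
  obtain ⟨B₁, hB₁⟩ : ∃ B₁ : ℝ, B₁ = (L ((1 - ρ₀ : ℝ) : ℂ)).re - C2 := ⟨_, rfl⟩
  obtain ⟨B₂, hB₂⟩ : ∃ B₂ : ℝ, B₂ = (L (v * ((1 - ρ₀ : ℝ) : ℂ))).re - C2 := ⟨_, rfl⟩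
  have huB : u = B₂ + C2 := by rw [hu, hB₂, hpt]; ring
  have hpk' : Real.log δ + 2 * p * Real.log n - C2 ≤ B₁ := by
    rw [hpt0, Real.log_mul hδ.ne' hnp.ne', Real.log_rpow hn0] at hpk
    rw [hB₁]; linarith
  have hP : 2 * p * l - C3 ≤ B₁ - A := by rw [hA']; linarith
  have hnorm1 : ‖((1 - ρ₀ : ℝ) : ℂ)‖ = Real.exp (-1 / n) := by
    have h1 : (1 - ρ₀ : ℝ) = Real.exp (-1 / n) := by rw [hρ₀]; ring
    rw [h1, Complex.norm_real, Real.norm_of_nonneg (Real.exp_pos _).le]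
  have hg1 := general_bound hp hL h0 hn hnorm1
  have hl4n : 2 * p * Real.log (4 * n) = 2 * p * Real.log 4 + 2 * p * Real.log n := by
    rw [Real.log_mul (by norm_num) hn0.ne']; ring
  have hPle : B₁ - A ≤ 2 * p * l := by
    rw [hB₁, hA']; linarith
  have hxle : B₂ - A ≤ 2 * p * l := by
    have : B₂ ≤ 2 * p * Real.log (4 * n) - C2 := by linarith
    rw [hA']; linarith
  -- main inequality
  have hmain : u ≤ 2 * p * Real.log n - (2 * p - κ) * l + C7 := by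
    rcases le_or_gt (B₂ - A) 0 with hx | hx
    · have : u ≤ A + C2 := by linarith
      have h1 : 0 ≤ C6 / (2 * κ) := by positivity
      have h2 : 0 ≤ κ * l := by positivity
      rw [hA'] at this
      rw [hC7]
      linarith
    · have hP0 : 0 < B₁ - A := by linarith
      have h1 := two_branch (by linarith) hL h0 hvn hβ0 hβ2 hρ₀0 hρ01 hρ₁c hsep hA
        (B₁ := B₁) (B₂ := B₂) (by rw [hB₁, hC2, hc]) (by rw [hB₂, hC2, hc]) (by linarith)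
        (by linarith)
      have hmax : max B₁ B₂ - A ≤ 2 * p * l := by
        rcases le_total B₁ B₂ with h | h
        · rw [max_eq_right h]; exact hxle
        · rw [max_eq_left h]; exact hPle
      have hmax0 : 0 < max B₁ B₂ - A := by
        have := le_max_left B₁ B₂
        linarith
      have h2 : 2 * β * ((B₁ - A) ^ 2 + (B₂ - A) ^ 2) ≤ Real.pi * p * (4 * p * l + 1) * l := by
        refine h1.trans ?_
        apply mul_le_mul _ hlogr hlogr0.le (by positivity)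
        apply mul_le_mul_of_nonneg_left _ (by positivity)
        linarith
      have h3 : (B₁ - A) ^ 2 + (B₂ - A) ^ 2 ≤ (1 + w) * (p * (4 * p * l + 1) * l) := by
        rw [hβw] at h2
        have h4 : 2 * β * (1 + w) * p * (4 * p * l + 1) * l =
            2 * β * ((1 + w) * (p * (4 * p * l + 1) * l)) := by ring
        rw [h4] at h2
        exact le_of_mul_le_mul_left h2 (by linarith)
      have hPsq : (2 * p * l - C3) ^ 2 ≤ (B₁ - A) ^ 2 :=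
        pow_le_pow_left₀ (by linarith) hP 2
      have hwp : w * (4 * p ^ 2) = κ ^ 2 := by rw [hw]; field_simp
      have h5 : (B₂ - A) ^ 2 ≤ κ ^ 2 * l ^ 2 + C6 * l := by
        have h6 : (1 + w) * (p * (4 * p * l + 1) * l) - (2 * p * l - C3) ^ 2 =
            w * (4 * p ^ 2) * l ^ 2 + ((1 + w) * p + 4 * p * C3) * l - C3 ^ 2 := by ring
        rw [hwp, ← hC6] at h6
        have h7 := sq_nonneg C3
        linarith
      have h8 : B₂ - A ≤ κ * l + C6 / (2 * κ) := by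
        apply le_of_sq_le_sq _ (by positivity)
        refine h5.trans ?_
        have h9 : (κ * l + C6 / (2 * κ)) ^ 2 = κ ^ 2 * l ^ 2 + C6 * l + (C6 / (2 * κ)) ^ 2 := by
          field_simp
          ring
        rw [h9]
        have := sq_nonneg (C6 / (2 * κ))
        linarith
      rw [huB, hC7]
      linarith
  -- conclusion
  have hfin : u ≤ C7 + 2 * p * Real.log n + -(p + 1 / 2) * l := by
    have h1 : (p + 1 / 2) * l ≤ (2 * p - κ) * l := by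
      apply mul_le_mul_of_nonneg_right _ (by linarith)
      rw [hκ]; linarith
    linarith
  calc Real.exp u ≤ Real.exp (C7 + 2 * p * Real.log n + -(p + 1 / 2) * l) := Real.exp_le_exp.2 hfin
    _ = Real.exp C7 * (n : ℝ) ^ (2 * p) * |t| ^ (-(p + 1 / 2)) := by
        rw [Real.exp_add, Real.exp_add, Real.rpow_def_of_pos hn0, Real.rpow_def_of_pos ht0, ← hl]
        congr 2
        · congr 1; ring
        · ring
    _ ≤ _ := by
        gcongr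
        exact le_max_right _ _

end MPV
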