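import Pool.Agent.MPV.Gro

set_option autoImplicit false

/-!
# MPV PTS : comparison of the points

`s = 1 - t i`, `|t| ≤ √n`, `16 ≤ n ≤ m`, `|s| ≤ 2 √n`, `|s|^3 ≤ 8 n^(3/2) ≤ 2 n^2`.
PROOF. `Complex.tanh a = (1 - e^{-2a})/(1 + e^{-2a})`, so `cay (tanh (s/(2m))) = e^{-s/m}`, and
`mob x (cay Z) = cay ((n/m) Z)` for `x = (m-n)/(m+n)`, so `mob x (e^{-s/n}) = cay ((n/m) tanh (s/(2n)))`.
`|tanh a - a| ≤ |a|^3` for `|a| ≤ 1/2` (`|s/(2n)| ≤ 1/√n ≤ 1/4`): e.g. `f a = tanh a`, `f' = 1 - f^2`, first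
`|tanh a| ≤ ...`; or from the power series / `a cosh a - sinh a`).
Hence `Re tanh (s/(2m)) ≥ 1/(2m) - |s|^3/(8m^3) ≥ 1/(4m)`, `(n/m) Re tanh (s/(2n)) ≥ 1/(2m) - |s|^3/(8 m n^2)
≥ 1/(4m)`, and the distance of the two points is `≤ |s|^3/(8m^3) + |s|^3/(8mn^2) ≤ |s|^3/(4 m n^2)
≤ 2 n^(3/2)/(m n^2)`. `Cls.lip` with `c = 1/(4m)`: `≤ 8 p m * 2 n^(-1/2)/m = 16 p/√n`.
-/

open MeasureTheory Metric

namespace MPV

/-- `T(w) = (1 - e^(-w))/(1 + e^(-w))` is close to `w/2`. -/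
private lemma denom_ge (w : ℂ) (hw : ‖w‖ ≤ 1 / 2) : 21 / 16 ≤ ‖1 + Complex.exp (-w)‖ := by
  have h1 := Complex.exp_bound (x := -w) (by rw [norm_neg]; linarith) (n := 2) (by norm_num)
  rw [norm_neg] at h1
  simp only [Finset.sum_range_succ, Finset.sum_range_zero] at h1
  norm_num at h1
  have h2 : ‖Complex.exp (-w) - (1 + -w)‖ ≤ ‖w‖ ^ 2 * (3 / 4) := h1
  have h3 : (2 : ℂ) = (1 + Complex.exp (-w)) - (Complex.exp (-w) - (1 + -w)) + w := by ring
  have h4 : (2 : ℝ) ≤ ‖1 + Complex.exp (-w)‖ + ‖Complex.exp (-w) - (1 + -w)‖ + ‖w‖ := by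
    calc (2 : ℝ) = ‖(2 : ℂ)‖ := by norm_num
      _ = ‖(1 + Complex.exp (-w)) - (Complex.exp (-w) - (1 + -w)) + w‖ := by rw [← h3]
      _ ≤ ‖(1 + Complex.exp (-w)) - (Complex.exp (-w) - (1 + -w))‖ + ‖w‖ := norm_add_le _ _
      _ ≤ ‖1 + Complex.exp (-w)‖ + ‖Complex.exp (-w) - (1 + -w)‖ + ‖w‖ := by
        gcongr
        exact norm_sub_le _ _
  nlinarith [norm_nonneg w]

private lemma T_bound (w : ℂ) (hw : ‖w‖ ≤ 1 / 2) :
    ‖(1 - Complex.exp (-w)) / (1 + Complex.exp (-w)) - w / 2‖ ≤ ‖w‖ ^ 3 / 8 := by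
  have hden := denom_ge w hw
  have hden0 : (1 + Complex.exp (-w)) ≠ 0 := by
    intro h
    rw [h, norm_zero] at hden
    norm_num at hden
  have h1 := Complex.exp_bound (x := -w) (by rw [norm_neg]; linarith) (n := 4) (by norm_num)
  rw [norm_neg] at h1
  set r : ℂ := Complex.exp (-w) - (1 - w + w ^ 2 / 2 - w ^ 3 / 6) with hr
  have hr1 : ‖r‖ ≤ ‖w‖ ^ 4 * (5 / 96) := by
    have h2 : Complex.exp (-w) - ∑ m ∈ Finset.range 4, (-w) ^ m / (m.factorial : ℂ) = r := by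
      rw [hr]
      simp only [Finset.sum_range_succ, Finset.sum_range_zero, Nat.factorial]
      push_cast
      ring
    rw [h2] at h1
    refine h1.trans (le_of_eq ?_)
    norm_num [Nat.factorial]
  have hE : Complex.exp (-w) = (1 - w + w ^ 2 / 2 - w ^ 3 / 6) + r := by rw [hr]; ring
  have h3 : (1 - Complex.exp (-w)) / (1 + Complex.exp (-w)) - w / 2
      = (-(w ^ 3 / 6) + w ^ 4 / 6 - (2 + w) * r) / (2 * (1 + Complex.exp (-w))) := by
    have h4 : (1 - Complex.exp (-w)) / (1 + Complex.exp (-w)) - w / 2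
        = (2 * (1 - Complex.exp (-w)) - w * (1 + Complex.exp (-w)))
          / (2 * (1 + Complex.exp (-w))) := by
      field_simp
    rw [h4]
    congr 1
    rw [hE]
    ring
  have hnum : ‖-(w ^ 3 / 6) + w ^ 4 / 6 - (2 + w) * r‖
      ≤ ‖w‖ ^ 3 / 6 + ‖w‖ ^ 4 / 6 + (2 + ‖w‖) * (‖w‖ ^ 4 * (5 / 96)) := by
    calc ‖-(w ^ 3 / 6) + w ^ 4 / 6 - (2 + w) * r‖
        ≤ ‖-(w ^ 3 / 6) + w ^ 4 / 6‖ + ‖(2 + w) * r‖ := norm_sub_le _ _
      _ ≤ (‖-(w ^ 3 / 6)‖ + ‖w ^ 4 / 6‖) + ‖(2 + w) * r‖ := by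
        gcongr
        exact norm_add_le _ _
      _ ≤ ‖w‖ ^ 3 / 6 + ‖w‖ ^ 4 / 6 + (2 + ‖w‖) * (‖w‖ ^ 4 * (5 / 96)) := by
        rw [norm_neg, norm_div, norm_div, norm_pow, norm_pow, norm_mul]
        have h5 : ‖(6 : ℂ)‖ = 6 := by norm_num
        rw [h5]
        have h6 : ‖(2 : ℂ) + w‖ ≤ 2 + ‖w‖ := by
          calc ‖(2 : ℂ) + w‖ ≤ ‖(2 : ℂ)‖ + ‖w‖ := norm_add_le _ _
            _ = 2 + ‖w‖ := by norm_num
        gcongr
  rw [h3, norm_div, norm_mul]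
  have h7 : ‖(2 : ℂ)‖ = 2 := by norm_num
  rw [h7, div_le_iff₀ (by linarith)]
  set x := ‖w‖ with hx
  have hx0 : 0 ≤ x := norm_nonneg w
  have hx3 : 0 ≤ x ^ 3 := by positivity
  calc ‖-(w ^ 3 / 6) + w ^ 4 / 6 - (2 + w) * r‖
      ≤ x ^ 3 / 6 + x ^ 4 / 6 + (2 + x) * (x ^ 4 * (5 / 96)) := hnum
    _ = x ^ 3 * (1 / 6 + x / 6 + (2 + x) * (x * (5 / 96))) := by ring
    _ ≤ x ^ 3 * (1 / 6 + (1 / 2) / 6 + (2 + 1 / 2) * ((1 / 2) * (5 / 96))) := by gcongr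
    _ ≤ x ^ 3 / 8 * (2 * (21 / 16)) := by nlinarith
    _ ≤ x ^ 3 / 8 * (2 * ‖1 + Complex.exp (-w)‖) := by gcongr

private lemma cay_T (w : ℂ) (h : 1 + Complex.exp (-w) ≠ 0) :
    cay ((1 - Complex.exp (-w)) / (1 + Complex.exp (-w))) = Complex.exp (-w) := by
  unfold cay
  field_simp
  ring

private lemma mob_cay {n m : ℂ} (Z : ℂ) (hmn : m + n ≠ 0) (hZ : 1 + Z ≠ 0) (hm : m ≠ 0)
    (hmZ : m + n * Z ≠ 0) (hreal : (starRingEnd ℂ) ((m - n) / (m + n)) = (m - n) / (m + n)) :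
    mob ((m - n) / (m + n)) (cay Z) = cay (n / m * Z) := by
  unfold mob cay
  rw [hreal]
  have h1 : 1 + n / m * Z = (m + n * Z) / m := by field_simp
  have h2 : 1 - n / m * Z = (m - n * Z) / m := by field_simp
  rw [h1, h2]
  have h3 : (1 - Z) / (1 + Z) + (m - n) / (m + n)
      = 2 * (m - n * Z) / ((1 + Z) * (m + n)) := by
    field_simp
    ring
  have h4 : 1 + (m - n) / (m + n) * ((1 - Z) / (1 + Z))
      = 2 * (m + n * Z) / ((1 + Z) * (m + n)) := by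
    field_simp
    ring
  rw [h3, h4]
  field_simp

theorem points_close {p : ℝ} (hp : 1 / 2 ≤ p) {L : ℂ → ℂ} (h : Cls p L) {n m : ℕ} (hn : 16 ≤ n)
    (hm : n ≤ m) {t : ℝ} (ht : |t| ≤ Real.sqrt n) :
    ‖L (Complex.exp ((-1 + t * Complex.I) / m)) -
      L (mob (((m : ℂ) - n) / (m + n)) (Complex.exp ((-1 + t * Complex.I) / n)))‖ ≤
      16 * p / Real.sqrt n := by
  have hnR : (16 : ℝ) ≤ n := by exact_mod_cast hn
  have hmR : (n : ℝ) ≤ m := by exact_mod_cast hm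
  have hn0 : (0 : ℝ) < n := by linarith
  have hm0 : (0 : ℝ) < m := by linarith
  set r := Real.sqrt n with hr
  have hr2 : r ^ 2 = n := Real.sq_sqrt hn0.le
  have hr4 : 4 ≤ r := by
    rw [hr]
    apply Real.le_sqrt_of_sq_le
    linarith
  have hr0 : 0 < r := by linarith
  set s : ℂ := 1 - t * Complex.I with hs
  have hsre : s.re = 1 := by simp [hs]
  have hsnorm : ‖s‖ ≤ 2 * r := by
    calc ‖s‖ ≤ ‖(1 : ℂ)‖ + ‖(t : ℂ) * Complex.I‖ := norm_sub_le _ _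
      _ = 1 + |t| := by simp
      _ ≤ 2 * r := by linarith
  have hmC : (m : ℂ) ≠ 0 := by exact_mod_cast hm0.ne'
  have hnC : (n : ℂ) ≠ 0 := by exact_mod_cast hn0.ne'
  -- the two points
  have hw1 : ‖s / m‖ ≤ 1 / 2 := by
    rw [norm_div, Complex.norm_natCast, div_le_iff₀ hm0]
    nlinarith
  have hw2 : ‖s / n‖ ≤ 1 / 2 := by
    rw [norm_div, Complex.norm_natCast, div_le_iff₀ hn0]
    nlinarith
  have hE1 : Complex.exp ((-1 + t * Complex.I) / m) = Complex.exp (-(s / m)) := by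
    congr 1
    rw [hs]
    ring
  have hE2 : Complex.exp ((-1 + t * Complex.I) / n) = Complex.exp (-(s / n)) := by
    congr 1
    rw [hs]
    ring
  rw [hE1, hE2]
  have hd1 : 1 + Complex.exp (-(s / m)) ≠ 0 := by
    intro h0
    have := denom_ge (s / m) hw1
    rw [h0, norm_zero] at this
    norm_num at this
  have hd2 : 1 + Complex.exp (-(s / n)) ≠ 0 := by
    intro h0
    have := denom_ge (s / n) hw2
    rw [h0, norm_zero] at this
    norm_num at this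
  have hT1 := T_bound (s / m) hw1
  have hT2 := T_bound (s / n) hw2
  have hc1 := cay_T (s / m) hd1
  have hc2 := cay_T (s / n) hd2
  set Z1 : ℂ := (1 - Complex.exp (-(s / m))) / (1 + Complex.exp (-(s / m))) with hZ1
  set T2 : ℂ := (1 - Complex.exp (-(s / n))) / (1 + Complex.exp (-(s / n))) with hT2d
  -- numerical bounds
  have hs3 : ‖s‖ ^ 3 ≤ 8 * r ^ 3 := by
    calc ‖s‖ ^ 3 ≤ (2 * r) ^ 3 := by gcongr
      _ = 8 * r ^ 3 := by ring
  have hmr : r ^ 2 ≤ m := by rw [hr2]; exact hmR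
  have hA1 : ‖Z1 - s / m / 2‖ ≤ 1 / (m * r) := by
    refine hT1.trans ?_
    rw [norm_div, Complex.norm_natCast, div_pow, div_div, div_le_div_iff₀ (by positivity)
      (by positivity)]
    calc ‖s‖ ^ 3 * (m * r) ≤ 8 * r ^ 3 * (m * r) := by gcongr
      _ = 8 * m * (r ^ 2) ^ 2 := by ring
      _ ≤ 8 * m * (m : ℝ) ^ 2 := by gcongr
      _ = 1 * ((m : ℝ) ^ 3 * 8) := by ring
  have hA2 : ‖T2 - s / n / 2‖ ≤ 1 / (n * r) := by
    refine hT2.trans ?_
    rw [norm_div, Complex.norm_natCast, div_pow, div_div, div_le_div_iff₀ (by positivity)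
      (by positivity)]
    calc ‖s‖ ^ 3 * (n * r) ≤ 8 * r ^ 3 * (n * r) := by gcongr
      _ = 8 * n * (r ^ 2) ^ 2 := by ring
      _ = 8 * n * (n : ℝ) ^ 2 := by rw [hr2]
      _ = 1 * ((n : ℝ) ^ 3 * 8) := by ring
  set Z2 : ℂ := (n : ℂ) / m * T2 with hZ2
  have hA3 : ‖Z2 - s / m / 2‖ ≤ 1 / (m * r) := by
    have h1 : Z2 - s / m / 2 = (n : ℂ) / m * (T2 - s / n / 2) := by
      rw [hZ2]
      field_simp
    rw [h1, norm_mul, norm_div, Complex.norm_natCast, Complex.norm_natCast]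
    calc (n : ℝ) / m * ‖T2 - s / n / 2‖ ≤ (n : ℝ) / m * (1 / (n * r)) := by gcongr
      _ = 1 / (m * r) := by field_simp
  have hre : (s / m / 2).re = 1 / (2 * m) := by
    have h1 : s / m / 2 = ((1 / (2 * m) : ℝ) : ℂ) * s := by
      push_cast
      field_simp
    rw [h1, Complex.re_ofReal_mul, hsre, mul_one]
  have hquarter : 1 / (m * r) ≤ 1 / (4 * (m : ℝ)) := by
    apply one_div_le_one_div_of_le (by positivity)
    nlinarith
  have hZ1re : 1 / (4 * (m : ℝ)) ≤ Z1.re := by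
    have h1 : (s / m / 2).re - Z1.re ≤ 1 / (m * r) := by
      rw [← Complex.sub_re]
      refine (Complex.re_le_norm _).trans ?_
      rw [norm_sub_rev]
      exact hA1
    rw [hre] at h1
    have h2 : 1 / (2 * (m : ℝ)) = 1 / (4 * (m : ℝ)) + 1 / (4 * (m : ℝ)) := by
      field_simp; norm_num
    linarith
  have hZ2re : 1 / (4 * (m : ℝ)) ≤ Z2.re := by
    have h1 : (s / m / 2).re - Z2.re ≤ 1 / (m * r) := by
      rw [← Complex.sub_re]
      refine (Complex.re_le_norm _).trans ?_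
      rw [norm_sub_rev]
      exact hA3
    rw [hre] at h1
    have h2 : 1 / (2 * (m : ℝ)) = 1 / (4 * (m : ℝ)) + 1 / (4 * (m : ℝ)) := by
      field_simp; norm_num
    linarith
  have hdist : ‖Z1 - Z2‖ ≤ 2 / (m * r) := by
    calc ‖Z1 - Z2‖ = ‖(Z1 - s / m / 2) - (Z2 - s / m / 2)‖ := by congr 1; ring
      _ ≤ ‖Z1 - s / m / 2‖ + ‖Z2 - s / m / 2‖ := norm_sub_le _ _
      _ ≤ 1 / (m * r) + 1 / (m * r) := add_le_add hA1 hA3
      _ = 2 / (m * r) := by ring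
  -- the second point
  have hT2re : 0 < T2.re := by
    have h1 : Z2.re = (n : ℝ) / m * T2.re := by
      rw [hZ2]
      have h2 : (n : ℂ) / m = (((n : ℝ) / m : ℝ) : ℂ) := by push_cast; rfl
      rw [h2, Complex.re_ofReal_mul]
    have h3 : 0 < Z2.re := lt_of_lt_of_le (by positivity) hZ2re
    rw [h1] at h3
    exact (pos_iff_pos_of_mul_pos h3).1 (by positivity)
  have hmob : mob (((m : ℂ) - n) / (m + n)) (Complex.exp (-(s / n))) = cay Z2 := by
    rw [← hc2, hZ2]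
    apply mob_cay
    · have : ((m : ℂ) + n) = (((m : ℝ) + n : ℝ) : ℂ) := by push_cast; rfl
      rw [this]
      exact_mod_cast (by positivity : (0 : ℝ) < (m : ℝ) + n).ne'
    · intro h0
      have h1 := congrArg Complex.re h0
      simp at h1
      linarith
    · exact hmC
    · intro h0
      have h1 := congrArg Complex.re h0
      rw [Complex.add_re, Complex.natCast_re] at h1
      have h2 : ((n : ℂ) * T2).re = n * T2.re := by
        have : (n : ℂ) = ((n : ℝ) : ℂ) := by push_cast; rfl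
        rw [this, Complex.re_ofReal_mul]
      rw [h2, Complex.zero_re] at h1
      have h3 : 0 < (n : ℝ) * T2.re := by positivity
      linarith
    · simp
  rw [hmob, ← hc1]
  have hfin := Cls.lip hp h (c := 1 / (4 * (m : ℝ))) (by positivity) hZ1re hZ2re
  refine hfin.trans ?_
  calc 2 * p / (1 / (4 * (m : ℝ))) * ‖Z1 - Z2‖ ≤ 2 * p / (1 / (4 * (m : ℝ))) * (2 / (m * r)) := by
        gcongr
    _ = 16 * p / r := by field_simp; norm_num

end MPV
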