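import Pool.Agent.MPV.Peak
import Pool.Agent.MPV.Loc
import Pool.Agent.MPV.Pts

set_option autoImplicit false

/-!
# MPV CMP : comparison of the coefficients `m a_m(f)` and `n a_n(f ∘ τ)`

PROOF. `x = (m-n)/(m+n) ∈ [0,1)`, `G z = L (mob x z)`, `T = √n`, `z_t = exp ((-1+it)/m)`,
`w_t = exp ((-1+it)/n)`. `Re G 0 = Re L x ≤ 2p log ((1+x)/(1-x)) = 2p log (m/n)`.
By `coef_formula` (for `exp ∘ L` and `exp ∘ G`, both differentiable on the ball) and
`∫_{-πm}^{πm} = ∫_{-T}^{T} + ∫_{T<|t|≤πm}` (`T ≤ π n ≤ π m`):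
`‖m a_m - n a_n‖ ≤ (e/2π) (I + II + III)`,
`I = ∫_{-T}^{T} ‖exp (L z_t) - exp (G w_t)‖ dt`, `II = ∫_{T<|t|≤πm} exp (Re L z_t)`, `III` the same for `G, w_t, n`.
I: `points_close`: `‖L z_t - G w_t‖ ≤ 16 p/√n ≤ 1` for large `n`, so
`‖exp (L z_t) - exp (G w_t)‖ ≤ exp (Re L z_t) * 2 * 16 p/√n` (`‖exp w - 1‖ ≤ 2 ‖w‖` for `‖w‖ ≤ 1`), and
`l1_bound`: `I ≤ (32 p/√n) C m^(2p)`.
II: `loc` with `δ`: `II ≤ 2 ∫_T^∞ C m^(2p) t^(-(p+1/2)) dt = 2 C m^(2p) T^(-(p-1/2))/(p-1/2)`.
III: `G̃ z = G z - Re G 0` is in `Cls p` (`Cls.mob`, `Cls.add_const`), `Re G̃ 0 = 0`, and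
`Re G̃ (e^{-1/n}) ≥ Re L (e^{-1/m}) - 1 - 2p log (m/n) ≥ log (δ m^(2p)) - 1 - 2p log (m/n) = log ((δ/e) n^(2p))`
(`points_close` with `t = 0`); `loc` with `δ/e`:
`III ≤ exp (Re G 0) 2 C' n^(2p) T^(-(p-1/2))/(p-1/2) ≤ 2 C' m^(2p) T^(-(p-1/2))/(p-1/2)`.
All three are `≤ ε' m^(2p)` for `n ≥ n₀(p, δ, ε)`.
-/

open MeasureTheory Metric

namespace MPV

private theorem tail_pos {F : ℝ → ℂ} {C κ T B : ℝ} (hκ : 0 < κ) (hC : 0 ≤ C) (hT : 1 ≤ T)
    (hTB : T ≤ B) (hF : ∀ t : ℝ, 1 ≤ |t| → |t| ≤ B → ‖F t‖ ≤ C * |t| ^ (-(κ + 1))) :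
    ‖∫ t in T..B, F t‖ ≤ C * (T ^ (-κ) / κ) := by
  have hT0 : 0 < T := by linarith
  have hB0 : 0 < B := by linarith
  have hnot : (0 : ℝ) ∉ Set.uIcc T B := by
    rw [Set.uIcc_of_le hTB]
    intro h
    linarith [h.1]
  have hint : IntervalIntegrable (fun t : ℝ => C * t ^ (-(κ + 1))) volume T B := by
    apply IntervalIntegrable.const_mul
    exact intervalIntegral.intervalIntegrable_rpow (Or.inr hnot)
  have h1 : ‖∫ t in T..B, F t‖ ≤ ∫ t in T..B, C * t ^ (-(κ + 1)) := by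
    apply intervalIntegral.norm_integral_le_of_norm_le hTB _ hint
    refine Filter.Eventually.of_forall fun t ht => ?_
    have ht0 : 0 < t := by linarith [ht.1]
    have := hF t (by rw [abs_of_pos ht0]; linarith [ht.1]) (by rw [abs_of_pos ht0]; exact ht.2)
    rwa [abs_of_pos ht0] at this
  refine h1.trans ?_
  rw [intervalIntegral.integral_const_mul, integral_rpow (Or.inr ⟨by linarith, hnot⟩)]
  apply mul_le_mul_of_nonneg_left _ hC
  have e1 : -(κ + 1) + 1 = -κ := by ring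
  rw [e1, div_neg, ← neg_div, neg_sub]
  apply div_le_div_of_nonneg_right _ hκ.le
  have : 0 < B ^ (-κ) := by positivity
  linarith

private theorem tail_neg {F : ℝ → ℂ} {C κ T B : ℝ} (hκ : 0 < κ) (hC : 0 ≤ C) (hT : 1 ≤ T)
    (hTB : T ≤ B) (hF : ∀ t : ℝ, 1 ≤ |t| → |t| ≤ B → ‖F t‖ ≤ C * |t| ^ (-(κ + 1))) :
    ‖∫ t in (-B)..(-T), F t‖ ≤ C * (T ^ (-κ) / κ) := by
  rw [← intervalIntegral.integral_comp_neg]
  apply tail_pos hκ hC hT hTB
  intro t h1 h2
  have := hF (-t) (by rwa [abs_neg]) (by rwa [abs_neg])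
  rwa [abs_neg] at this

private theorem split3 {F : ℝ → ℂ} (hF : Continuous F) (T B : ℝ) :
    ∫ t in (-B)..B, F t =
      (∫ t in (-B)..(-T), F t) + (∫ t in (-T)..T, F t) + ∫ t in T..B, F t := by
  rw [intervalIntegral.integral_add_adjacent_intervals (hF.intervalIntegrable _ _)
    (hF.intervalIntegrable _ _), intervalIntegral.integral_add_adjacent_intervals
    (hF.intervalIntegrable _ _) (hF.intervalIntegrable _ _)]

private theorem pt_norm {m : ℕ} (t : ℝ) :
    ‖Complex.exp ((-1 + t * Complex.I) / m)‖ = Real.exp (-1 / m) := by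
  rw [Complex.norm_exp]
  congr 1
  have : ((-1 + (t : ℂ) * Complex.I) / (m : ℂ)) =
      ((-1 / m : ℝ) : ℂ) + ((t / m : ℝ) : ℂ) * Complex.I := by
    push_cast
    ring
  rw [this]
  simp

private theorem pt_mem {m : ℕ} (hm : 1 ≤ m) (t : ℝ) :
    Complex.exp ((-1 + t * Complex.I) / m) ∈ ball (0 : ℂ) 1 := by
  have hn0 : (1 : ℝ) ≤ m := by exact_mod_cast hm
  rw [mem_ball_zero_iff, pt_norm, Real.exp_lt_one_iff]
  apply div_neg_of_neg_of_pos <;> linarith

private theorem cont_comp {L : ℂ → ℂ} (hL : DifferentiableOn ℂ L (ball 0 1)) {m : ℕ}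
    (hm : 1 ≤ m) : Continuous fun t : ℝ => L (Complex.exp ((-1 + t * Complex.I) / m)) := by
  apply hL.continuousOn.comp_continuous (by fun_prop)
  intro t
  exact pt_mem hm t

private theorem norm_eit (t : ℝ) : ‖Complex.exp (-(t * Complex.I))‖ = 1 := by
  rw [Complex.norm_exp]
  simp

private theorem exp_sub_le {a b : ℂ} {η : ℝ} (hη : η ≤ 1) (h : ‖a - b‖ ≤ η) :
    ‖Complex.exp a - Complex.exp b‖ ≤ Real.exp a.re * (2 * η) := by
  have h1 : Complex.exp a - Complex.exp b = Complex.exp a * (1 - Complex.exp (b - a)) := by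
    rw [mul_sub, mul_one, ← Complex.exp_add]
    congr 2
    ring
  rw [h1, norm_mul, Complex.norm_exp]
  apply mul_le_mul_of_nonneg_left _ (Real.exp_pos _).le
  rw [norm_sub_rev]
  have h2 : ‖b - a‖ ≤ η := by rwa [norm_sub_rev]
  have h3 := Complex.norm_exp_sub_one_le (x := b - a) (h2.trans hη)
  linarith

private theorem small_ev {p κ : ℝ} (hκ : 0 < κ) (A B : ℝ) {ε : ℝ} (hε : 0 < ε) :
    ∃ n₀ : ℕ, 16 ≤ n₀ ∧ ∀ n : ℕ, n₀ ≤ n → 16 * p / Real.sqrt n ≤ 1 ∧
      A / Real.sqrt n + B * (Real.sqrt n) ^ (-κ) ≤ ε := by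
  have hs : Filter.Tendsto (fun n : ℕ => Real.sqrt n) Filter.atTop Filter.atTop :=
    Real.tendsto_sqrt_atTop.comp tendsto_natCast_atTop_atTop
  have h1 : Filter.Tendsto (fun n : ℕ => 16 * p / Real.sqrt n) Filter.atTop (nhds 0) :=
    hs.const_div_atTop _
  have h2 : Filter.Tendsto (fun n : ℕ => A / Real.sqrt n + B * (Real.sqrt n) ^ (-κ)) Filter.atTop
      (nhds (0 + B * 0)) :=
    (hs.const_div_atTop _).add (((tendsto_rpow_neg_atTop hκ).comp hs).const_mul B)
  rw [mul_zero, add_zero] at h2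
  have h3 := (h1.eventually (eventually_le_nhds (show (0 : ℝ) < 1 by norm_num))).and
    ((h2.eventually (eventually_le_nhds hε)).and (Filter.eventually_ge_atTop 16))
  obtain ⟨N, hN⟩ := Filter.eventually_atTop.1 h3
  refine ⟨max N 16, le_max_right _ _, fun n hn => ?_⟩
  have := hN n ((le_max_left _ _).trans hn)
  exact ⟨this.1, this.2.1⟩

/-- The middle part. -/
private theorem part_one {p : ℝ} (hp : 1 / 2 < p) {C : ℝ} {L : ℂ → ℂ} (hL : Cls p L) {m n : ℕ}
    (hn16 : 16 ≤ n) (hnm : n ≤ m)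
    (hl1 : ∫ t in (-(Real.pi * m))..(Real.pi * m),
        Real.exp (L (Complex.exp ((-1 + t * Complex.I) / m))).re ≤ C * (m : ℝ) ^ (2 * p))
    (hη : 16 * p / Real.sqrt n ≤ 1) (hT : Real.sqrt n ≤ Real.pi * m)
    {G : ℂ → ℂ} (hG : DifferentiableOn ℂ G (ball 0 1))
    (hGL : ∀ z, G z = L (mob (((m : ℂ) - n) / (m + n)) z)) :
    ‖(∫ t in (-Real.sqrt n)..(Real.sqrt n),
        Complex.exp (L (Complex.exp ((-1 + t * Complex.I) / m))) *
          Complex.exp (-(t * Complex.I))) -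
      ∫ t in (-Real.sqrt n)..(Real.sqrt n),
        Complex.exp (G (Complex.exp ((-1 + t * Complex.I) / n))) *
          Complex.exp (-(t * Complex.I))‖ ≤
      (32 * p / Real.sqrt n) * (C * (m : ℝ) ^ (2 * p)) := by
  have hm1 : 1 ≤ m := by omega
  have hn1 : 1 ≤ n := by omega
  have hcF : Continuous fun t : ℝ => Complex.exp (L (Complex.exp ((-1 + t * Complex.I) / m))) *
      Complex.exp (-(t * Complex.I)) :=
    (Complex.continuous_exp.comp (cont_comp hL.diff hm1)).mul (by fun_prop)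
  have hcH : Continuous fun t : ℝ => Complex.exp (G (Complex.exp ((-1 + t * Complex.I) / n))) *
      Complex.exp (-(t * Complex.I)) :=
    (Complex.continuous_exp.comp (cont_comp hG hn1)).mul (by fun_prop)
  have hcE : Continuous fun t : ℝ => Real.exp (L (Complex.exp ((-1 + t * Complex.I) / m))).re :=
    Real.continuous_exp.comp (Complex.continuous_re.comp (cont_comp hL.diff hm1))
  have hs0 : 0 ≤ Real.sqrt n := Real.sqrt_nonneg _
  rw [← intervalIntegral.integral_sub (hcF.intervalIntegrable _ _) (hcH.intervalIntegrable _ _)]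
  have h1 : ‖∫ t in (-Real.sqrt n)..(Real.sqrt n),
      (Complex.exp (L (Complex.exp ((-1 + t * Complex.I) / m))) *
          Complex.exp (-(t * Complex.I)) -
        Complex.exp (G (Complex.exp ((-1 + t * Complex.I) / n))) *
          Complex.exp (-(t * Complex.I)))‖ ≤
      ∫ t in (-Real.sqrt n)..(Real.sqrt n),
        Real.exp (L (Complex.exp ((-1 + t * Complex.I) / m))).re *
          (2 * (16 * p / Real.sqrt n)) := by
    apply intervalIntegral.norm_integral_le_of_norm_le (by linarith)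
    · refine Filter.Eventually.of_forall fun t ht => ?_
      rw [← sub_mul, norm_mul, norm_eit, mul_one]
      apply exp_sub_le hη
      rw [hGL]
      exact points_close hp.le hL hn16 hnm (abs_le.2 ⟨ht.1.le, ht.2⟩)
    · exact (hcE.mul continuous_const).intervalIntegrable _ _
  refine h1.trans ?_
  rw [intervalIntegral.integral_mul_const, mul_comm]
  have h2 : 2 * (16 * p / Real.sqrt n) = 32 * p / Real.sqrt n := by ring
  rw [h2]
  apply mul_le_mul_of_nonneg_left _ (by positivity)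
  refine le_trans ?_ hl1
  apply intervalIntegral.integral_mono_interval (by linarith) (by linarith) hT
  · exact Filter.Eventually.of_forall fun t => (Real.exp_pos _).le
  · exact hcE.intervalIntegrable _ _

theorem cmp {p : ℝ} (hp : 1 / 2 < p) {δ ε : ℝ} (hδ : 0 < δ) (hε : 0 < ε) : ∃ n₀ : ℕ, 1 ≤ n₀ ∧
    ∀ n m : ℕ, n₀ ≤ n → n ≤ m → ∀ L : ℂ → ℂ, Cls p L → (L 0).re = 0 →
      Real.log (δ * (m : ℝ) ^ (2 * p)) ≤ (L (Complex.exp (-1 / m))).re →
      ‖(m : ℂ) * coef (fun z => Complex.exp (L z)) m -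
        n * coef (fun z => Complex.exp (L (mob (((m : ℂ) - n) / (m + n)) z))) n‖ ≤
        ε * (m : ℝ) ^ (2 * p) := by
  have hpi := Real.pi_pos
  have hpi3 := Real.pi_gt_three
  have hp0 : 0 < p := by linarith
  obtain ⟨κ, hκ⟩ : ∃ κ : ℝ, κ = p - 1 / 2 := ⟨_, rfl⟩
  have hκ0 : 0 < κ := by rw [hκ]; linarith
  obtain ⟨C1, hC1, hl1⟩ := l1_bound hp
  obtain ⟨C2, hC2, hloc⟩ := loc hp hδ
  obtain ⟨C3, hC3, hloc'⟩ := loc hp (δ := δ / Real.exp 1) (by positivity)
  obtain ⟨n₀, hn016, hn0⟩ := small_ev (p := p) hκ0 (Real.exp 1 / (2 * Real.pi) * (32 * p * C1))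
    (Real.exp 1 / (2 * Real.pi) * (2 * (C2 + C3) / κ)) hε
  refine ⟨n₀, by omega, ?_⟩
  intro n m hn hnm L hL h0 hpk
  obtain ⟨hη, hsm⟩ := hn0 n hn
  have hn16 : 16 ≤ n := by omega
  have hn1 : 1 ≤ n := by omega
  have hm1 : 1 ≤ m := by omega
  have hnR : (16 : ℝ) ≤ n := by exact_mod_cast hn16
  have hmR : (n : ℝ) ≤ m := by exact_mod_cast hnm
  have hnpos : (0 : ℝ) < n := by linarith
  have hmpos : (0 : ℝ) < m := by linarith
  have hsum : (0 : ℝ) < m + n := by linarith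
  have hexp : κ + 1 = p + 1 / 2 := by rw [hκ]; ring
  -- the Moebius parameter
  obtain ⟨x, hx⟩ : ∃ x : ℝ, x = ((m : ℝ) - n) / (m + n) := ⟨_, rfl⟩
  have hxC : ((m : ℂ) - n) / (m + n) = (x : ℂ) := by rw [hx]; push_cast; ring
  have hx0 : 0 ≤ x := by rw [hx]; exact div_nonneg (by linarith) hsum.le
  have hx1 : x < 1 := by rw [hx, div_lt_one hsum]; linarith
  have hxn : ‖(x : ℂ)‖ = x := by rw [Complex.norm_real, Real.norm_of_nonneg hx0]
  have hxn1 : ‖((m : ℂ) - n) / (m + n)‖ < 1 := by rw [hxC, hxn]; exact hx1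
  obtain ⟨G, hG⟩ : ∃ G : ℂ → ℂ, G = fun z => L (mob (((m : ℂ) - n) / (m + n)) z) := ⟨_, rfl⟩
  have hGc : Cls p G := by rw [hG]; exact hL.mob hxn1
  have hG0 : G 0 = L x := by
    rw [hG]
    simp only [mob, mul_zero, add_zero, zero_add, div_one]
    rw [hxC]
  have hG0re : (G 0).re ≤ 2 * p * Real.log ((m : ℝ) / n) := by
    have h1 := hL.growth hp.le (z := (x : ℂ)) (by rw [mem_ball_zero_iff, hxn]; exact hx1)
    rw [h0, sub_zero, hxn] at h1
    have h2 := (abs_le.1 h1).2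
    have h3 : (1 + x) / (1 - x) = (m : ℝ) / n := by
      have e1 : 1 + x = 2 * m / (m + n) := by rw [hx]; field_simp; ring
      have e2 : 1 - x = 2 * n / (m + n) := by rw [hx]; field_simp; ring
      rw [e1, e2, div_div_div_cancel_right₀ hsum.ne', mul_div_mul_left _ _ (by norm_num)]
    rw [h3] at h2
    rw [hG0]
    exact h2
  have hGexp : Real.exp (G 0).re * (n : ℝ) ^ (2 * p) ≤ (m : ℝ) ^ (2 * p) := by
    have h1 : Real.exp (G 0).re ≤ ((m : ℝ) / n) ^ (2 * p) := by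
      rw [Real.rpow_def_of_pos (by positivity), mul_comm (Real.log _)]
      exact Real.exp_le_exp.2 hG0re
    calc Real.exp (G 0).re * (n : ℝ) ^ (2 * p) ≤ ((m : ℝ) / n) ^ (2 * p) * (n : ℝ) ^ (2 * p) :=
          mul_le_mul_of_nonneg_right h1 (by positivity)
      _ = (m : ℝ) ^ (2 * p) := by
          rw [← Real.mul_rpow (by positivity) (by positivity)]
          congr 1
          field_simp
  -- T
  obtain ⟨T, hT⟩ : ∃ T : ℝ, T = Real.sqrt n := ⟨_, rfl⟩
  have hT1 : 1 ≤ T := by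
    rw [hT]
    apply Real.one_le_sqrt.2
    linarith
  have hTn : T ≤ n := by
    rw [hT]
    apply Real.sqrt_le_iff.2
    exact ⟨by linarith, by nlinarith⟩
  have hTpn : T ≤ Real.pi * n := by nlinarith
  have hTpm : T ≤ Real.pi * m := by nlinarith
  -- continuity
  have hcF : Continuous fun t : ℝ => Complex.exp (L (Complex.exp ((-1 + t * Complex.I) / m))) *
      Complex.exp (-(t * Complex.I)) :=
    (Complex.continuous_exp.comp (cont_comp hL.diff hm1)).mul (by fun_prop)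
  have hcH : Continuous fun t : ℝ => Complex.exp (G (Complex.exp ((-1 + t * Complex.I) / n))) *
      Complex.exp (-(t * Complex.I)) :=
    (Complex.continuous_exp.comp (cont_comp hGc.diff hn1)).mul (by fun_prop)
  -- tails of F
  have hFt : ∀ t : ℝ, 1 ≤ |t| → |t| ≤ Real.pi * m →
      ‖Complex.exp (L (Complex.exp ((-1 + t * Complex.I) / m))) *
        Complex.exp (-(t * Complex.I))‖ ≤ C2 * (m : ℝ) ^ (2 * p) * |t| ^ (-(κ + 1)) := by
    intro t ht1 ht2
    rw [norm_mul, norm_eit, mul_one, Complex.norm_exp, hexp]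
    exact hloc L hL h0 m hm1 hpk t ht1 ht2
  have hHt : ∀ t : ℝ, 1 ≤ |t| → |t| ≤ Real.pi * n →
      ‖Complex.exp (G (Complex.exp ((-1 + t * Complex.I) / n))) *
        Complex.exp (-(t * Complex.I))‖ ≤ C3 * (m : ℝ) ^ (2 * p) * |t| ^ (-(κ + 1)) := by
    intro t ht1 ht2
    rw [norm_mul, norm_eit, mul_one, Complex.norm_exp, hexp]
    have hK := hGc.add_const (-((G 0).re : ℂ))
    have hpc := points_close hp.le hL hn16 hnm (t := 0) (by
      rw [abs_zero]; exact Real.sqrt_nonneg _)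
    have hpc1 : ‖L (Complex.exp (-1 / m)) - G (Complex.exp (-1 / n))‖ ≤ 1 := by
      have := hpc.trans hη
      simp only [Complex.ofReal_zero, zero_mul, add_zero] at this
      rw [hG]
      exact this
    have hre : (L (Complex.exp (-1 / m))).re - 1 ≤ (G (Complex.exp (-1 / n))).re := by
      have h1 := (Complex.abs_re_le_norm (L (Complex.exp (-1 / m)) - G (Complex.exp (-1 / n)))).trans
        hpc1
      rw [Complex.sub_re] at h1
      have := (abs_le.1 h1).2
      linarith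
    have h2 := hloc' (fun z => G z + (-((G 0).re : ℂ))) hK (by simp) n hn1 (by
      simp only [Complex.add_re, Complex.neg_re, Complex.ofReal_re]
      rw [Real.log_mul (by positivity) (by positivity), Real.log_div hδ.ne' (Real.exp_pos 1).ne',
        Real.log_exp, Real.log_rpow hnpos]
      rw [Real.log_mul hδ.ne' (by positivity), Real.log_rpow hmpos] at hpk
      rw [Real.log_div hmpos.ne' hnpos.ne'] at hG0re
      linarith) t ht1 ht2
    simp only [Complex.add_re, Complex.neg_re, Complex.ofReal_re] at h2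
    have h3 : Real.exp (G (Complex.exp ((-1 + t * Complex.I) / n))).re =
        Real.exp ((G (Complex.exp ((-1 + t * Complex.I) / n))).re + -(G 0).re) *
          Real.exp (G 0).re := by
      rw [← Real.exp_add]
      congr 1
      ring
    rw [h3]
    calc Real.exp ((G (Complex.exp ((-1 + t * Complex.I) / n))).re + -(G 0).re) *
          Real.exp (G 0).re
        ≤ (C3 * (n : ℝ) ^ (2 * p) * |t| ^ (-(p + 1 / 2))) * Real.exp (G 0).re :=
          mul_le_mul_of_nonneg_right h2 (Real.exp_pos _).le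
      _ = C3 * (Real.exp (G 0).re * (n : ℝ) ^ (2 * p)) * |t| ^ (-(p + 1 / 2)) := by ring
      _ ≤ C3 * (m : ℝ) ^ (2 * p) * |t| ^ (-(p + 1 / 2)) := by
          apply mul_le_mul_of_nonneg_right _ (by positivity)
          exact mul_le_mul_of_nonneg_left hGexp hC3.le
  have hmp : 0 < (m : ℝ) ^ (2 * p) := by positivity
  have t1 := tail_pos hκ0 (by positivity) hT1 hTpm hFt
  have t2 := tail_neg hκ0 (by positivity) hT1 hTpm hFt
  have t3 := tail_pos hκ0 (by positivity) hT1 hTpn hHt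
  have t4 := tail_neg hκ0 (by positivity) hT1 hTpn hHt
  have t5 := part_one hp hL hn16 hnm (hl1 L hL h0 m hm1) hη (by rw [← hT]; exact hTpm) hGc.diff
    (fun z => by rw [hG])
  rw [← hT] at t5 hsm
  -- assemble
  have hf1 := coef_formula (f := fun z => Complex.exp (L z)) (hL.diff.cexp) hm1
  have hf2 := coef_formula (f := fun z => Complex.exp (G z)) (hGc.diff.cexp) hn1
  have hGfun : (fun z => Complex.exp (L (mob (((m : ℂ) - n) / (m + n)) z))) =
      fun z => Complex.exp (G z) := by rw [hG]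
  rw [hGfun, hf1, hf2, split3 hcF T, split3 hcH T, ← mul_sub, norm_mul, Complex.norm_real,
    Real.norm_of_nonneg (by positivity)]
  have key : ∀ a b c a' b' c' : ℂ, ‖(a + b + c) - (a' + b' + c')‖ ≤
      ‖b - b'‖ + ‖a‖ + ‖c‖ + ‖a'‖ + ‖c'‖ := by
    intro a b c a' b' c'
    have e : (a + b + c) - (a' + b' + c') = (b - b') + a + c - a' - c' := by ring
    rw [e]
    refine (norm_sub_le _ _).trans ?_
    have h1 := norm_sub_le ((b - b') + a + c) a'
    have h2 := norm_add_le ((b - b') + a) c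
    have h3 := norm_add_le (b - b') a
    linarith
  refine (mul_le_mul_of_nonneg_left (key _ _ _ _ _ _) (by positivity)).trans ?_
  have hfin : Real.exp 1 / (2 * Real.pi) * ((32 * p / T) * (C1 * (m : ℝ) ^ (2 * p)) +
      C2 * (m : ℝ) ^ (2 * p) * (T ^ (-κ) / κ) + C2 * (m : ℝ) ^ (2 * p) * (T ^ (-κ) / κ) +
      C3 * (m : ℝ) ^ (2 * p) * (T ^ (-κ) / κ) + C3 * (m : ℝ) ^ (2 * p) * (T ^ (-κ) / κ)) ≤
      ε * (m : ℝ) ^ (2 * p) := by
    have e : Real.exp 1 / (2 * Real.pi) * ((32 * p / T) * (C1 * (m : ℝ) ^ (2 * p)) +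
      C2 * (m : ℝ) ^ (2 * p) * (T ^ (-κ) / κ) + C2 * (m : ℝ) ^ (2 * p) * (T ^ (-κ) / κ) +
      C3 * (m : ℝ) ^ (2 * p) * (T ^ (-κ) / κ) + C3 * (m : ℝ) ^ (2 * p) * (T ^ (-κ) / κ)) =
      (Real.exp 1 / (2 * Real.pi) * (32 * p * C1) / T +
        Real.exp 1 / (2 * Real.pi) * (2 * (C2 + C3) / κ) * T ^ (-κ)) * (m : ℝ) ^ (2 * p) := by
      ring
    rw [e]
    exact mul_le_mul_of_nonneg_right hsm hmp.le
  refine le_trans ?_ hfin
  apply mul_le_mul_of_nonneg_left _ (by positivity)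
  linarith [t1, t2, t3, t4, t5]

end MPV
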