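import Pool.Agent.MPV.Defs

set_option autoImplicit false

/-!
# MPV STK : Green's formula for the spherical area on circles

PROOF. Let `q z = z * deriv g z` (analytic), `q1 z = z * deriv q z`, `N = 1 + ‖g‖^2`, everything at
`z = r e^{it}`. `b = 2 Re (conj g q)/N`, `c = - 2 Im (conj g q)/N`. For an analytic `h` one has
`∂_r h(re^{it}) = z h'(z)/r` and `∂_t h(re^{it}) = i z h'(z)`. So
`r ∂_r b = 2 Re (‖q‖^2 + conj g q1)/N - 4 Re(conj g q)^2/N^2`,
`∂_t c = - 2 (-‖q‖^2 + Re (conj g q1))/N - 4 Im (conj g q)^2/N^2`,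
`r ∂_r b + ∂_t c = 4 ‖q‖^2/N - 4 ‖g‖^2‖q‖^2/N^2 = 4 ‖q‖^2/N^2 = r^2 KK g z`.
`BB g r = ∫ b dt`; differentiate under the integral sign, `∫_0^{2π} ∂_t c dt = 0` by periodicity.
`BB g 0 = 0` (integrand `0`), `BB` is continuous on `[0,1)`, so `BB g r = ∫_0^r` of the derivative.
-/

open MeasureTheory Metric

namespace MPV

/-- derivative of `2 Re(conj G Q)/(1+|G|^2)` along a curve -/
lemma stk_quot {G Q : ℝ → ℂ} {G' Q' : ℂ} {x : ℝ} (hG : HasDerivAt G G' x)
    (hQ : HasDerivAt Q Q' x) :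
    HasDerivAt (fun x => 2 * ((starRingEnd ℂ) (G x) * Q x).re / (1 + ‖G x‖ ^ 2))
      ((2 * ((starRingEnd ℂ) G' * Q x + (starRingEnd ℂ) (G x) * Q').re * (1 + ‖G x‖ ^ 2) -
        2 * ((starRingEnd ℂ) (G x) * Q x).re * (2 * ((starRingEnd ℂ) (G x) * G').re)) /
        (1 + ‖G x‖ ^ 2) ^ 2) x := by
  have hN : (1 + ‖G x‖ ^ 2) ≠ 0 := by positivity
  have h1 : HasDerivAt (fun x => (starRingEnd ℂ) (G x)) ((starRingEnd ℂ) G') x := hG.star
  have h2 : HasDerivAt (fun x => (starRingEnd ℂ) (G x) * Q x)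
      ((starRingEnd ℂ) G' * Q x + (starRingEnd ℂ) (G x) * Q') x := h1.mul hQ
  have h3 : HasDerivAt (fun x => ((starRingEnd ℂ) (G x) * Q x).re)
      (((starRingEnd ℂ) G' * Q x + (starRingEnd ℂ) (G x) * Q').re) x :=
    (Complex.reCLM.hasFDerivAt.comp_hasDerivAt x h2)
  have h4 : HasDerivAt (fun x => 1 + ‖G x‖ ^ 2) (2 * ((starRingEnd ℂ) (G x) * G').re) x := by
    have h := hG.norm_sq.const_add 1
    rwa [Complex.inner, mul_comm G'] at h
  exact (h3.const_mul 2).div h4 hN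

/-- the density of the radial derivative -/
noncomputable def stkK (g : ℂ → ℂ) (z : ℂ) : ℝ :=
  (2 * ((starRingEnd ℂ) (z * deriv g z) * (z * deriv g z) +
      (starRingEnd ℂ) (g z) * (z * deriv (fun w => w * deriv g w) z)).re * (1 + ‖g z‖ ^ 2) -
    2 * ((starRingEnd ℂ) (g z) * (z * deriv g z)).re *
      (2 * ((starRingEnd ℂ) (g z) * (z * deriv g z)).re)) / (1 + ‖g z‖ ^ 2) ^ 2

/-- the density of the angular derivative -/
noncomputable def stkC (g : ℂ → ℂ) (z : ℂ) : ℝ :=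
  (2 * ((starRingEnd ℂ) (Complex.I * (z * deriv g z)) * (Complex.I * (z * deriv g z)) +
      (starRingEnd ℂ) (g z) *
        (Complex.I * (Complex.I * (z * deriv (fun w => w * deriv g w) z)))).re * (1 + ‖g z‖ ^ 2) -
    2 * ((starRingEnd ℂ) (g z) * (Complex.I * (z * deriv g z))).re *
      (2 * ((starRingEnd ℂ) (g z) * (Complex.I * (z * deriv g z))).re)) / (1 + ‖g z‖ ^ 2) ^ 2

lemma stk_id (g : ℂ → ℂ) (z : ℂ) : stkK g z + stkC g z = ‖z‖ ^ 2 * KK g z := by
  unfold stkK stkC KK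
  generalize hq : z * deriv g z = q
  generalize z * deriv (fun w => w * deriv g w) z = q1
  have h1 : ‖z‖ ^ 2 * (4 * ‖deriv g z‖ ^ 2 / (1 + ‖g z‖ ^ 2) ^ 2) =
      4 * ‖q‖ ^ 2 / (1 + ‖g z‖ ^ 2) ^ 2 := by
    rw [← hq, norm_mul]; ring
  rw [h1]
  have hg : ‖g z‖ ^ 2 = (g z).re ^ 2 + (g z).im ^ 2 := by
    rw [← Complex.normSq_eq_norm_sq, Complex.normSq_apply]; ring
  have hqq : ‖q‖ ^ 2 = q.re ^ 2 + q.im ^ 2 := by
    rw [← Complex.normSq_eq_norm_sq, Complex.normSq_apply]; ring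
  have hN : (1 + ‖g z‖ ^ 2) ^ 2 ≠ 0 := by positivity
  rw [← add_div, div_left_inj' hN, hg, hqq]
  simp only [Complex.add_re, Complex.mul_re, Complex.mul_im, Complex.conj_re, Complex.conj_im,
    Complex.I_re, Complex.I_im, map_mul, Complex.conj_I, Complex.neg_re, Complex.neg_im]
  ring

lemma stk_radial {h : ℂ → ℂ} {ρ t : ℝ} (hρ : 0 < ρ)
    (hh : DifferentiableAt ℂ h (circleMap 0 ρ t)) :
    HasDerivAt (fun ρ : ℝ => h (circleMap 0 ρ t))
      (((ρ : ℂ))⁻¹ * (circleMap 0 ρ t * deriv h (circleMap 0 ρ t))) ρ := by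
  have h1 : HasDerivAt (fun ρ : ℝ => circleMap 0 ρ t) (Complex.exp (t * Complex.I)) ρ := by
    have h2 : HasDerivAt (fun ρ : ℝ => (ρ : ℂ)) 1 ρ := Complex.ofRealCLM.hasDerivAt
    have h3 := (h2.mul_const (Complex.exp (t * Complex.I)))
    rw [one_mul] at h3
    have e : (fun ρ : ℝ => circleMap 0 ρ t) = fun ρ : ℝ => (ρ : ℂ) * Complex.exp (t * Complex.I) := by
      funext ρ
      simp [circleMap]
    rw [e]
    exact h3
  have h2 := hh.hasDerivAt.comp_of_eq ρ h1 rfl
  refine h2.congr_deriv ?_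
  have hρ' : (ρ : ℂ) ≠ 0 := Complex.ofReal_ne_zero.2 hρ.ne'
  have h3 : circleMap 0 ρ t = ρ * Complex.exp (t * Complex.I) := by simp [circleMap]
  rw [h3]
  field_simp

lemma stk_angular {h : ℂ → ℂ} {ρ t : ℝ}
    (hh : DifferentiableAt ℂ h (circleMap 0 ρ t)) :
    HasDerivAt (fun t : ℝ => h (circleMap 0 ρ t))
      (Complex.I * (circleMap 0 ρ t * deriv h (circleMap 0 ρ t))) t := by
  have h2 := hh.hasDerivAt.comp_of_eq t (hasDerivAt_circleMap 0 ρ t) rfl
  exact h2.congr_deriv (by ring)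

lemma stk_mem {ρ t : ℝ} (h0 : 0 ≤ ρ) (h1 : ρ < 1) : circleMap 0 ρ t ∈ ball (0 : ℂ) 1 := by
  rw [mem_ball_zero_iff]
  simpa [circleMap, abs_of_nonneg h0] using h1

lemma stk_norm {ρ t : ℝ} (h0 : 0 ≤ ρ) : ‖circleMap 0 ρ t‖ = ρ := by
  simp [circleMap, abs_of_nonneg h0]

lemma stk_analytic {g : ℂ → ℂ} (hg : DifferentiableOn ℂ g (ball 0 1)) :
    DifferentiableOn ℂ (fun w => w * deriv g w) (ball 0 1) :=
  differentiableOn_id.mul (hg.deriv isOpen_ball)

lemma stk_contK {g : ℂ → ℂ} (hg : DifferentiableOn ℂ g (ball 0 1)) :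
    ContinuousOn (stkK g) (ball 0 1) := by
  have c0 : ContinuousOn g (ball 0 1) := hg.continuousOn
  have c1 : ContinuousOn (fun w => w * deriv g w) (ball 0 1) := (stk_analytic hg).continuousOn
  have c2 : ContinuousOn (fun z => z * deriv (fun w => w * deriv g w) z) (ball 0 1) :=
    (stk_analytic (stk_analytic hg)).continuousOn
  have c3 : ContinuousOn (fun z => (starRingEnd ℂ) (g z)) (ball 0 1) :=
    Complex.continuous_conj.comp_continuousOn c0
  have c4 : ContinuousOn (fun z => (starRingEnd ℂ) (z * deriv g z)) (ball 0 1) :=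
    Complex.continuous_conj.comp_continuousOn c1
  have c5 : ContinuousOn (fun z => (1 + ‖g z‖ ^ 2)) (ball 0 1) :=
    continuousOn_const.add (c0.norm.pow 2)
  unfold stkK
  refine ContinuousOn.div ?_ (c5.pow 2) fun z _ => by positivity
  refine ContinuousOn.sub ?_ ?_
  · exact (continuousOn_const.mul (Complex.continuous_re.comp_continuousOn
      ((c4.mul c1).add (c3.mul c2)))).mul c5
  · have c6 : ContinuousOn (fun z => ((starRingEnd ℂ) (g z) * (z * deriv g z)).re) (ball 0 1) :=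
      Complex.continuous_re.comp_continuousOn (c3.mul c1)
    exact (continuousOn_const.mul c6).mul (continuousOn_const.mul c6)

lemma stk_contKK {g : ℂ → ℂ} (hg : DifferentiableOn ℂ g (ball 0 1)) :
    ContinuousOn (KK g) (ball 0 1) := by
  have c0 : ContinuousOn g (ball 0 1) := hg.continuousOn
  have c1 : ContinuousOn (deriv g) (ball 0 1) := (hg.deriv isOpen_ball).continuousOn
  have c5 : ContinuousOn (fun z => (1 + ‖g z‖ ^ 2)) (ball 0 1) :=
    continuousOn_const.add (c0.norm.pow 2)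
  unfold KK
  exact (continuousOn_const.mul (c1.norm.pow 2)).div (c5.pow 2) fun z _ => by positivity

lemma stk_contb {g : ℂ → ℂ} (hg : DifferentiableOn ℂ g (ball 0 1)) :
    ContinuousOn (fun z => 2 * ((starRingEnd ℂ) (g z) * (z * deriv g z)).re / (1 + ‖g z‖ ^ 2))
      (ball 0 1) := by
  have c0 : ContinuousOn g (ball 0 1) := hg.continuousOn
  have c1 : ContinuousOn (fun w => w * deriv g w) (ball 0 1) := (stk_analytic hg).continuousOn
  have c3 : ContinuousOn (fun z => (starRingEnd ℂ) (g z)) (ball 0 1) :=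
    Complex.continuous_conj.comp_continuousOn c0
  have c5 : ContinuousOn (fun z => (1 + ‖g z‖ ^ 2)) (ball 0 1) :=
    continuousOn_const.add (c0.norm.pow 2)
  exact (continuousOn_const.mul (Complex.continuous_re.comp_continuousOn (c3.mul c1))).div c5
    fun z _ => by positivity

lemma stk_cont_circle {h : ℂ → ℝ} (hh : ContinuousOn h (ball 0 1)) {ρ : ℝ} (h0 : 0 ≤ ρ)
    (h1 : ρ < 1) : Continuous fun t : ℝ => h (circleMap 0 ρ t) :=
  hh.comp_continuous (continuous_circleMap 0 ρ) fun _ => stk_mem h0 h1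

lemma stk_cont_param {h : ℂ → ℝ} (hh : ContinuousOn h (ball 0 1)) {r : ℝ}
    (h1 : r < 1) :
    ContinuousOn (fun ρ : ℝ => ∫ t in (0 : ℝ)..2 * Real.pi, h (circleMap 0 ρ t))
      (Set.Icc 0 r) := by
  have hcl : Continuous fun p : ℝ × ℝ => circleMap 0 (max 0 (min p.1 r)) p.2 := by
    unfold circleMap
    fun_prop
  have hc : Continuous (Function.uncurry fun (ρ t : ℝ) =>
      h (circleMap 0 (max 0 (min ρ r)) t)) := by
    apply hh.comp_continuous hcl
    intro p
    apply stk_mem (le_max_left _ _)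
    exact max_lt (by linarith) (lt_of_le_of_lt (min_le_right _ _) h1)
  have h2 := intervalIntegral.continuous_parametric_intervalIntegral_of_continuous'
    (μ := volume) hc 0 (2 * Real.pi)
  refine h2.continuousOn.congr fun ρ hρ => ?_
  simp only
  rw [min_eq_left hρ.2, max_eq_right hρ.1]

/-- `∫ stkC = 0` on circles. -/
lemma stk_intC {g : ℂ → ℂ} (hg : DifferentiableOn ℂ g (ball 0 1)) {r : ℝ} (hr : 0 < r)
    (hr1 : r < 1) (hint : Continuous fun t : ℝ => stkC g (circleMap 0 r t)) :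
    ∫ t in (0 : ℝ)..2 * Real.pi, stkC g (circleMap 0 r t) = 0 := by
  have hd : ∀ t ∈ Set.uIcc (0 : ℝ) (2 * Real.pi), HasDerivAt (fun t : ℝ =>
      2 * ((starRingEnd ℂ) (g (circleMap 0 r t)) * (Complex.I * (circleMap 0 r t *
        deriv g (circleMap 0 r t)))).re / (1 + ‖g (circleMap 0 r t)‖ ^ 2))
      (stkC g (circleMap 0 r t)) t := by
    intro t _
    have hm := isOpen_ball.mem_nhds (stk_mem (t := t) hr.le hr1)
    have d1 := stk_angular ((hg.differentiableAt hm))
    have d2 := stk_angular (((stk_analytic hg).differentiableAt hm))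
    exact stk_quot d1 (d2.const_mul Complex.I)
  rw [intervalIntegral.integral_eq_sub_of_hasDerivAt hd (hint.intervalIntegrable _ _)]
  have h2 : circleMap 0 r (2 * Real.pi) = circleMap 0 r 0 := by
    have := periodic_circleMap 0 r 0
    rwa [zero_add] at this
  rw [h2, sub_self]

theorem hasDerivAt_BB {g : ℂ → ℂ} (hg : DifferentiableOn ℂ g (ball 0 1)) {r : ℝ} (hr : 0 < r)
    (hr1 : r < 1) :
    HasDerivAt (BB g) (r * ∫ t in (0 : ℝ)..2 * Real.pi, KK g (circleMap 0 r t)) r := by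
  have hK := stk_contK hg
  have hb := stk_contb hg
  -- a compact ball on which the density is bounded
  obtain ⟨M, hM⟩ : ∃ M : ℝ, ∀ z ∈ closedBall (0 : ℂ) ((1 + r) / 2), ‖stkK g z‖ ≤ M :=
    (isCompact_closedBall (0 : ℂ) ((1 + r) / 2)).exists_bound_of_continuousOn
      (hK.mono (closedBall_subset_ball (by linarith)))
  have hs : Set.Ioo (r / 2) ((1 + r) / 2) ∈ nhds r :=
    Ioo_mem_nhds (by linarith) (by linarith)
  have hderiv := intervalIntegral.hasDerivAt_integral_of_dominated_loc_of_deriv_le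
    (μ := volume) (a := 0) (b := 2 * Real.pi)
    (F := fun ρ t => 2 * ((starRingEnd ℂ) (g (circleMap 0 ρ t)) *
      (circleMap 0 ρ t * deriv g (circleMap 0 ρ t))).re / (1 + ‖g (circleMap 0 ρ t)‖ ^ 2))
    (F' := fun ρ t => ρ⁻¹ * stkK g (circleMap 0 ρ t)) (bound := fun _ => (r / 2)⁻¹ * M)
    (x₀ := r) hs ?_ ?_ ?_ ?_ ?_ ?_
  · have h1 := hderiv.2
    have h2 : ∫ t in (0 : ℝ)..2 * Real.pi, r⁻¹ * stkK g (circleMap 0 r t) =
        r * ∫ t in (0 : ℝ)..2 * Real.pi, KK g (circleMap 0 r t) := by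
      have hKc := stk_cont_circle hK hr.le hr1
      have hKKc := stk_cont_circle (stk_contKK hg) hr.le hr1
      have e : (fun t : ℝ => stkC g (circleMap 0 r t)) = fun t : ℝ =>
          r ^ 2 * KK g (circleMap 0 r t) - stkK g (circleMap 0 r t) := by
        funext t
        have := stk_id g (circleMap 0 r t)
        rw [stk_norm hr.le] at this
        linarith
      have hCc : Continuous fun t : ℝ => stkC g (circleMap 0 r t) := by
        rw [e]
        exact (continuous_const.mul hKKc).sub hKc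
      have h3 := stk_intC hg hr hr1 hCc
      have hKK2 : Continuous fun t : ℝ => r ^ 2 * KK g (circleMap 0 r t) := continuous_const.mul hKKc
      rw [e, intervalIntegral.integral_sub (hKK2.intervalIntegrable _ _)
        (hKc.intervalIntegrable _ _), intervalIntegral.integral_const_mul, sub_eq_zero] at h3
      rw [intervalIntegral.integral_const_mul, ← h3]
      field_simp
    rw [h2] at h1
    exact h1
  · filter_upwards [hs] with ρ hρ
    exact (stk_cont_circle hb (by linarith [hρ.1]) (by linarith [hρ.2])).aestronglyMeasurable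
  · exact (stk_cont_circle hb hr.le hr1).intervalIntegrable _ _
  · exact (continuous_const.mul (stk_cont_circle hK hr.le hr1)).aestronglyMeasurable
  · refine Filter.Eventually.of_forall fun t _ ρ hρ => ?_
    have hρ0 : 0 < ρ := by linarith [hρ.1]
    rw [norm_mul, Real.norm_eq_abs, abs_of_pos (inv_pos.2 hρ0)]
    have h1 : ρ⁻¹ ≤ (r / 2)⁻¹ := inv_anti₀ (by linarith) hρ.1.le
    have h2 : ‖stkK g (circleMap 0 ρ t)‖ ≤ M := by
      apply hM
      rw [mem_closedBall_zero_iff, stk_norm hρ0.le]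
      exact hρ.2.le
    exact mul_le_mul h1 h2 (norm_nonneg _) (inv_nonneg.2 (by linarith))
  · exact intervalIntegrable_const
  · refine Filter.Eventually.of_forall fun t _ ρ hρ => ?_
    have hρ0 : 0 < ρ := by linarith [hρ.1]
    have hρ1 : ρ < 1 := by linarith [hρ.2]
    have hm := isOpen_ball.mem_nhds (stk_mem (t := t) hρ0.le hρ1)
    have d1 := stk_radial hρ0 (hg.differentiableAt hm)
    have d2 := stk_radial hρ0 ((stk_analytic hg).differentiableAt hm)
    have d3 := stk_quot d1 d2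
    refine d3.congr_deriv ?_
    unfold stkK
    have e1 : (starRingEnd ℂ) ((ρ : ℂ)⁻¹ * (circleMap 0 ρ t * deriv g (circleMap 0 ρ t))) =
        (ρ : ℂ)⁻¹ * (starRingEnd ℂ) (circleMap 0 ρ t * deriv g (circleMap 0 ρ t)) := by
      rw [map_mul, map_inv₀, Complex.conj_ofReal]
    have e2 : ((starRingEnd ℂ) ((ρ : ℂ)⁻¹ * (circleMap 0 ρ t * deriv g (circleMap 0 ρ t))) *
        (circleMap 0 ρ t * deriv g (circleMap 0 ρ t)) + (starRingEnd ℂ) (g (circleMap 0 ρ t)) *
        ((ρ : ℂ)⁻¹ * (circleMap 0 ρ t * deriv (fun w => w * deriv g w) (circleMap 0 ρ t)))).re =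
        ρ⁻¹ * ((starRingEnd ℂ) (circleMap 0 ρ t * deriv g (circleMap 0 ρ t)) *
        (circleMap 0 ρ t * deriv g (circleMap 0 ρ t)) + (starRingEnd ℂ) (g (circleMap 0 ρ t)) *
        ((circleMap 0 ρ t * deriv (fun w => w * deriv g w) (circleMap 0 ρ t)))).re := by
      rw [e1, ← Complex.re_ofReal_mul]
      congr 1
      push_cast
      ring
    have e3 : ((starRingEnd ℂ) (g (circleMap 0 ρ t)) *
        ((ρ : ℂ)⁻¹ * (circleMap 0 ρ t * deriv g (circleMap 0 ρ t)))).re =
        ρ⁻¹ * ((starRingEnd ℂ) (g (circleMap 0 ρ t)) *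
        (circleMap 0 ρ t * deriv g (circleMap 0 ρ t))).re := by
      rw [← Complex.re_ofReal_mul]
      congr 1
      push_cast
      ring
    rw [e2, e3]
    ring

theorem BB_eq {g : ℂ → ℂ} (hg : DifferentiableOn ℂ g (ball 0 1)) {r : ℝ} (hr : 0 ≤ r)
    (hr1 : r < 1) :
    BB g r = ∫ ρ in (0 : ℝ)..r, ρ * ∫ t in (0 : ℝ)..2 * Real.pi, KK g (circleMap 0 ρ t) := by
  have h0 : BB g 0 = 0 := by
    unfold BB
    simp
  have hc : ContinuousOn (BB g) (Set.Icc 0 r) := stk_cont_param (stk_contb hg) hr1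
  have hi : IntervalIntegrable (fun ρ : ℝ => ρ * ∫ t in (0 : ℝ)..2 * Real.pi,
      KK g (circleMap 0 ρ t)) volume 0 r := by
    apply ContinuousOn.intervalIntegrable
    rw [Set.uIcc_of_le hr]
    exact continuousOn_id.mul (stk_cont_param (stk_contKK hg) hr1)
  rw [intervalIntegral.integral_eq_sub_of_hasDerivAt_of_le hr hc
    (fun ρ hρ => hasDerivAt_BB hg hρ.1 (hρ.2.trans hr1)) hi, h0, sub_zero]

end MPV
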