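import Pool.Agent.MPV.Iso
import Pool.Agent.MPV.Stk

set_option autoImplicit false

/-!
# MPV DUF : Dufresnoy's theorem for half of the sphere

PROOF. If `deriv g 0 = 0` there is nothing to prove. `B r = BB g r`, `k ρ = ∫ t in 0..2π, KK g (ρ e^{it})`
(continuous in `ρ ∈ [0,1)`, `k 0 = 2π KK g 0 > 0`), `B r = ∫_0^r ρ k ρ` (`BB_eq`).
`B > 0` on `(0,1)`; `B r ≤ ∫⁻ z in ball 0 1, KK g z ≤ 2π` by polar coordinates
(`Complex.lintegral_comp_polarCoord_symm` or `integral_comp_polarCoord_symm`).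
`iso` for `γ t = g (r e^{it})`, `γ' t = i r e^{it} g' = i z g'`, `Im (conj γ γ') = Re (conj g z g')`,
`a = B r/(4π)`, `‖γ'‖^2/(1+‖γ‖^2)^2 = r^2 KK/4`: `r^2 k r/4 ≥ 2π (B/4π)(1 - B/4π)`, i.e.
`2π r B'(r) = 2π r^2 k r ≥ B (4π - B)`.
So `q r = B r/((4π - B r) r^2)` has `q'/q = 4π B'/(B (4π - B)) - 2/r ≥ 0` on `(0,1)`: monotone.
`lim_{r→0} B r/r^2 = k 0/2 = π KK g 0`, so `q r → KK g 0/4`. And `q r ≤ 2π/(2π r^2) = r^(-2)` for `r < 1`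
(`B ≤ 2π`, `4π - B ≥ 2π`). Hence `KK g 0/4 ≤ r^(-2)` for all `r < 1`, `KK g 0 ≤ 4`, which is the claim.
-/

open MeasureTheory Metric

namespace MPV

theorem dufresnoy {g : ℂ → ℂ} (hg : DifferentiableOn ℂ g (ball 0 1))
    (hA : ∫⁻ z in ball (0 : ℂ) 1, ENNReal.ofReal (KK g z) ≤ ENNReal.ofReal (2 * Real.pi)) :
    ‖deriv g 0‖ ≤ 1 + ‖g 0‖ ^ 2 := by
  sorry

end MPV
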