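import Pool.Agent.MPV.Wir

set_option autoImplicit false

/-!
# MPV ISO : the spherical isoperimetric inequality for closed curves (with winding)

PROOF. `N = 1 + ‖γ‖^2`, `b t = - ∫ s in 0..t, Im (conj γ γ')/N`, so `b' = - Im (conj γ γ')/N`,
`b (t + 2π) = b t - 2π a` (periodicity of the integrand). Put `E t = exp (i (b t + a t))`, which is
`2π`-periodic, and `G1 = E / √N`, `G2 = γ E / √N`: `2π`-periodic, `C^1`, `‖G1‖^2 + ‖G2‖^2 = 1`.
`G1' = E (i (b' + a) - N'/(2N)) / √N`, `G2' = E (γ (i (b' + a) - N'/(2N)) + γ') / √N`, `N' = 2 Re (conj γ γ')`.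
Computation: `Im (G1' conj G1 + G2' conj G2) = (b' + a) + Im (conj γ γ')/N = a`, and
`‖G1'‖^2 + ‖G2'‖^2 = ‖γ'‖^2/N^2 + a^2`.
`wirtinger` for `G1` and `G2`, added: `2π a ≤ ∫ ‖γ'‖^2/N^2 + 2π a^2`.
-/

namespace MPV

/-- The pointwise computation. -/
lemma iso_point {E g h c : ℂ} {s a : ℝ} (hE : ‖E‖ = 1) (hs : s ^ 2 = (1 + ‖g‖ ^ 2)⁻¹)
    (hcr : c.re = -(((starRingEnd ℂ) g * h).re / (1 + ‖g‖ ^ 2)))
    (hci : c.im = a - ((starRingEnd ℂ) g * h).im / (1 + ‖g‖ ^ 2)) :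
    ((E * s * c) * (starRingEnd ℂ) (E * s)).im +
      ((E * s * (g * c + h)) * (starRingEnd ℂ) (g * (E * s))).im = a ∧
    ‖E * s * c‖ ^ 2 + ‖E * s * (g * c + h)‖ ^ 2 = a ^ 2 + ‖h‖ ^ 2 / (1 + ‖g‖ ^ 2) ^ 2 := by
  have hE2 : E.re * E.re + E.im * E.im = 1 := by
    have h1 := Complex.normSq_eq_norm_sq E
    rw [hE, Complex.normSq_apply] at h1
    linarith
  have hg : ‖g‖ ^ 2 = g.re ^ 2 + g.im ^ 2 := by
    rw [← Complex.normSq_eq_norm_sq, Complex.normSq_apply]; ring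
  have hh : ‖h‖ ^ 2 = h.re ^ 2 + h.im ^ 2 := by
    rw [← Complex.normSq_eq_norm_sq, Complex.normSq_apply]; ring
  have hEs : ‖E * (s : ℂ)‖ ^ 2 = (1 + ‖g‖ ^ 2)⁻¹ := by
    rw [norm_mul, hE, one_mul, Complex.norm_real, Real.norm_eq_abs, sq_abs, hs]
  have hcn : ‖c‖ ^ 2 = c.re ^ 2 + c.im ^ 2 := by
    rw [← Complex.normSq_eq_norm_sq, Complex.normSq_apply]; ring
  have hgc : ‖g * c + h‖ ^ 2 = (g * c + h).re ^ 2 + (g * c + h).im ^ 2 := by
    rw [← Complex.normSq_eq_norm_sq, Complex.normSq_apply]; ring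
  have hN : (1 + (g.re ^ 2 + g.im ^ 2)) ≠ 0 := by positivity
  have hEE : E * s * (starRingEnd ℂ) (E * s) = (((1 + ‖g‖ ^ 2)⁻¹ : ℝ) : ℂ) := by
    rw [Complex.mul_conj, Complex.normSq_eq_norm_sq, hEs]
  have e1 : (E * s * c) * (starRingEnd ℂ) (E * s) = (((1 + ‖g‖ ^ 2)⁻¹ : ℝ) : ℂ) * c := by
    rw [← hEE]; ring
  have e2 : (E * s * (g * c + h)) * (starRingEnd ℂ) (g * (E * s)) =
      (((1 + ‖g‖ ^ 2)⁻¹ : ℝ) : ℂ) * ((g * c + h) * (starRingEnd ℂ) g) := by
    rw [← hEE, map_mul]; ring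
  constructor
  · rw [e1, e2, Complex.im_ofReal_mul, Complex.im_ofReal_mul]
    simp only [Complex.add_re, Complex.add_im, Complex.mul_re, Complex.mul_im, hcr, hci, hg,
      Complex.conj_re, Complex.conj_im]
    field_simp
    ring
  · rw [norm_mul, norm_mul (E * (s : ℂ)) (g * c + h), mul_pow, mul_pow, hEs, hgc, hcn]
    simp only [Complex.add_re, Complex.add_im, Complex.mul_re, Complex.mul_im, hcr, hci, hg, hh,
      Complex.conj_re, Complex.conj_im]
    field_simp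
    ring

theorem iso {γ γ' : ℝ → ℂ} (hγ : ∀ t, HasDerivAt γ (γ' t) t) (hc : Continuous γ')
    (hper : ∀ t, γ (t + 2 * Real.pi) = γ t) {a : ℝ}
    (ha : 2 * Real.pi * a = ∫ t in (0 : ℝ)..2 * Real.pi,
      ((starRingEnd ℂ) (γ t) * γ' t).im / (1 + ‖γ t‖ ^ 2)) :
    2 * Real.pi * (a * (1 - a)) ≤
      ∫ t in (0 : ℝ)..2 * Real.pi, ‖γ' t‖ ^ 2 / (1 + ‖γ t‖ ^ 2) ^ 2 := by
  have hNpos : ∀ t, 0 < 1 + ‖γ t‖ ^ 2 := fun t => by positivity
  have hγc : Continuous γ := continuous_iff_continuousAt.2 fun t => (hγ t).continuousAt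
  have hNc : Continuous fun t => 1 + ‖γ t‖ ^ 2 := by fun_prop
  have hNd : ∀ t, HasDerivAt (fun t => 1 + ‖γ t‖ ^ 2)
      (2 * ((starRingEnd ℂ) (γ t) * γ' t).re) t := by
    intro t
    have h := (hγ t).norm_sq.const_add 1
    rwa [Complex.inner, mul_comm (γ' t)] at h
  have hper' : ∀ t, γ' (t + 2 * Real.pi) = γ' t := by
    intro t
    have h1 : HasDerivAt (fun s => γ (s + 2 * Real.pi)) (γ' (t + 2 * Real.pi)) t :=
      (hγ (t + 2 * Real.pi)).comp_add_const t (2 * Real.pi)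
    have h2 : (fun s => γ (s + 2 * Real.pi)) = γ := funext hper
    rw [h2] at h1
    exact h1.unique (hγ t)
  have hcc : Continuous fun t => (starRingEnd ℂ) (γ t) * γ' t :=
    (Complex.continuous_conj.comp hγc).mul hc
  have hyN : Continuous fun t => ((starRingEnd ℂ) (γ t) * γ' t).im / (1 + ‖γ t‖ ^ 2) :=
    (Complex.continuous_im.comp hcc).div hNc fun t => (hNpos t).ne'
  have hxN : Continuous fun t => ((starRingEnd ℂ) (γ t) * γ' t).re / (1 + ‖γ t‖ ^ 2) :=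
    (Complex.continuous_re.comp hcc).div hNc fun t => (hNpos t).ne'
  have hyper : Function.Periodic
      (fun t => ((starRingEnd ℂ) (γ t) * γ' t).im / (1 + ‖γ t‖ ^ 2)) (2 * Real.pi) := by
    intro t
    simp only [hper, hper']
  obtain ⟨β, hβ⟩ : ∃ β : ℝ → ℝ, β = fun t => ∫ s in (0 : ℝ)..t,
    ((starRingEnd ℂ) (γ s) * γ' s).im / (1 + ‖γ s‖ ^ 2) := ⟨_, rfl⟩
  have hβd : ∀ t, HasDerivAt β (((starRingEnd ℂ) (γ t) * γ' t).im / (1 + ‖γ t‖ ^ 2)) t := by
    intro t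
    rw [hβ]
    exact (hyN.integral_hasStrictDerivAt 0 t).hasDerivAt
  have hβp : ∀ t, β (t + 2 * Real.pi) = β t + 2 * Real.pi * a := by
    intro t
    rw [ha, hβ]
    simp only
    rw [← intervalIntegral.integral_add_adjacent_intervals (hyN.intervalIntegrable 0 t)
      (hyN.intervalIntegrable t (t + 2 * Real.pi)), hyper.intervalIntegral_add_eq t 0, zero_add]
  have hβc : Continuous β := continuous_iff_continuousAt.2 fun t => (hβd t).continuousAt
  -- the phase and the amplitude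
  have hθd : ∀ t, HasDerivAt (fun t => a * t - β t)
      (a - ((starRingEnd ℂ) (γ t) * γ' t).im / (1 + ‖γ t‖ ^ 2)) t := by
    intro t
    have h1 : HasDerivAt (fun t => a * t) a t := by
      simpa using (hasDerivAt_id t).const_mul a
    exact h1.sub (hβd t)
  have hsd : ∀ t, HasDerivAt (fun t => (Real.sqrt (1 + ‖γ t‖ ^ 2))⁻¹)
      ((Real.sqrt (1 + ‖γ t‖ ^ 2))⁻¹ * -(((starRingEnd ℂ) (γ t) * γ' t).re / (1 + ‖γ t‖ ^ 2))) t := by
    intro t
    have hs : Real.sqrt (1 + ‖γ t‖ ^ 2) ≠ 0 := (Real.sqrt_pos.2 (hNpos t)).ne'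
    have hs2 : Real.sqrt (1 + ‖γ t‖ ^ 2) ^ 2 = 1 + ‖γ t‖ ^ 2 := Real.sq_sqrt (hNpos t).le
    have h := ((hNd t).sqrt (hNpos t).ne').inv hs
    have e : -(2 * ((starRingEnd ℂ) (γ t) * γ' t).re / (2 * Real.sqrt (1 + ‖γ t‖ ^ 2))) /
        Real.sqrt (1 + ‖γ t‖ ^ 2) ^ 2 =
        (Real.sqrt (1 + ‖γ t‖ ^ 2))⁻¹ * -(((starRingEnd ℂ) (γ t) * γ' t).re / (1 + ‖γ t‖ ^ 2)) := by
      rw [hs2]
      have := (hNpos t).ne'
      field_simp
    rw [e] at h
    exact h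
  -- the complex function `F = E / √N` and its derivative
  obtain ⟨E, hEdef⟩ : ∃ E : ℝ → ℂ, E = fun t => Complex.exp ((a * t - β t : ℝ) * Complex.I) :=
    ⟨_, rfl⟩
  obtain ⟨s, hsdef⟩ : ∃ s : ℝ → ℝ, s = fun t => (Real.sqrt (1 + ‖γ t‖ ^ 2))⁻¹ := ⟨_, rfl⟩
  obtain ⟨c, hcdef⟩ : ∃ c : ℝ → ℂ, c = fun t =>
      ((-(((starRingEnd ℂ) (γ t) * γ' t).re / (1 + ‖γ t‖ ^ 2)) : ℝ) : ℂ) +
      ((a - ((starRingEnd ℂ) (γ t) * γ' t).im / (1 + ‖γ t‖ ^ 2) : ℝ) : ℂ) * Complex.I := ⟨_, rfl⟩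
  have hcr : ∀ t, (c t).re = -(((starRingEnd ℂ) (γ t) * γ' t).re / (1 + ‖γ t‖ ^ 2)) := by
    intro t
    rw [hcdef]
    simp only [Complex.add_re, Complex.ofReal_re, Complex.re_ofReal_mul, Complex.I_re, mul_zero,
      add_zero]
  have hci : ∀ t, (c t).im = a - ((starRingEnd ℂ) (γ t) * γ' t).im / (1 + ‖γ t‖ ^ 2) := by
    intro t
    rw [hcdef]
    simp only [Complex.add_im, Complex.ofReal_im, Complex.im_ofReal_mul, Complex.I_im, mul_one,
      zero_add]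
  have hE1 : ∀ t, ‖E t‖ = 1 := by
    intro t
    rw [hEdef]
    exact Complex.norm_exp_ofReal_mul_I _
  have hs1 : ∀ t, s t ^ 2 = (1 + ‖γ t‖ ^ 2)⁻¹ := by
    intro t
    rw [hsdef]
    simp only
    rw [inv_pow, Real.sq_sqrt (hNpos t).le]
  have hEp : ∀ t, E (t + 2 * Real.pi) = E t := by
    intro t
    rw [hEdef]
    simp only
    rw [hβp]
    congr 2
    congr 1
    ring
  have hsp : ∀ t, s (t + 2 * Real.pi) = s t := by
    intro t
    rw [hsdef]
    simp only [hper]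
  have hEc : Continuous E := by
    rw [hEdef]
    fun_prop
  have hsc : Continuous s := by
    rw [hsdef]
    exact (hNc.sqrt).inv₀ fun t => (Real.sqrt_pos.2 (hNpos t)).ne'
  have hccn : Continuous c := by
    rw [hcdef]
    exact (Complex.continuous_ofReal.comp hxN.neg).add
      ((Complex.continuous_ofReal.comp (continuous_const.sub hyN)).mul continuous_const)
  have hFd : ∀ t, HasDerivAt (fun t => E t * (s t : ℂ)) (E t * s t * c t) t := by
    intro t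
    have h1 : HasDerivAt E (E t * ((a - ((starRingEnd ℂ) (γ t) * γ' t).im /
        (1 + ‖γ t‖ ^ 2) : ℝ) * Complex.I)) t := by
      rw [hEdef]
      exact ((hθd t).ofReal_comp.mul_const Complex.I).cexp
    have h2 : HasDerivAt (fun t => (s t : ℂ)) ((s t *
        -(((starRingEnd ℂ) (γ t) * γ' t).re / (1 + ‖γ t‖ ^ 2)) : ℝ) : ℂ) t := by
      rw [hsdef]
      exact (hsd t).ofReal_comp
    have h3 := h1.mul h2
    have e : E t * ((a - ((starRingEnd ℂ) (γ t) * γ' t).im / (1 + ‖γ t‖ ^ 2) : ℝ) * Complex.I) *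
        (s t : ℂ) + E t * ((s t *
        -(((starRingEnd ℂ) (γ t) * γ' t).re / (1 + ‖γ t‖ ^ 2)) : ℝ) : ℂ) = E t * s t * c t := by
      rw [hcdef]
      simp only [Complex.ofReal_mul]
      ring
    rw [e] at h3
    exact h3
  have hGd : ∀ t, HasDerivAt (fun t => γ t * (E t * (s t : ℂ)))
      (E t * s t * (γ t * c t + γ' t)) t := by
    intro t
    have h3 := (hγ t).mul (hFd t)
    have e : γ' t * (E t * (s t : ℂ)) + γ t * (E t * s t * c t) =
        E t * s t * (γ t * c t + γ' t) := by ring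
    rw [e] at h3
    exact h3
  have hsc' : Continuous fun t => (s t : ℂ) := Complex.continuous_ofReal.comp hsc
  have hFc : Continuous fun t => E t * s t * c t := (hEc.mul hsc').mul hccn
  have hGc : Continuous fun t => E t * s t * (γ t * c t + γ' t) :=
    (hEc.mul hsc').mul ((hγc.mul hccn).add hc)
  have w1 := wirtinger hFd hFc (fun t => by rw [hEp, hsp])
  have w2 := wirtinger hGd hGc (fun t => by rw [hEp, hsp, hper])
  have i1 : Continuous fun t => ((E t * s t * c t) * (starRingEnd ℂ) (E t * (s t : ℂ))).im :=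
    Complex.continuous_im.comp (hFc.mul (Complex.continuous_conj.comp (hEc.mul hsc')))
  have i2 : Continuous fun t => ((E t * s t * (γ t * c t + γ' t)) *
      (starRingEnd ℂ) (γ t * (E t * (s t : ℂ)))).im :=
    Complex.continuous_im.comp (hGc.mul (Complex.continuous_conj.comp (hγc.mul (hEc.mul hsc'))))
  have j1 : Continuous fun t => ‖E t * s t * c t‖ ^ 2 := hFc.norm.pow 2
  have j2 : Continuous fun t => ‖E t * s t * (γ t * c t + γ' t)‖ ^ 2 := hGc.norm.pow 2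
  have w3 := add_le_add w1 w2
  rw [← intervalIntegral.integral_add (i1.intervalIntegrable _ _) (i2.intervalIntegrable _ _),
    ← intervalIntegral.integral_add (j1.intervalIntegrable _ _)
      (j2.intervalIntegrable _ _)] at w3
  have e3 : ∀ t, ((E t * s t * c t) * (starRingEnd ℂ) (E t * (s t : ℂ))).im +
      ((E t * s t * (γ t * c t + γ' t)) * (starRingEnd ℂ) (γ t * (E t * (s t : ℂ)))).im = a :=
    fun t => (iso_point (hE1 t) (hs1 t) (hcr t) (hci t)).1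
  have e4 : ∀ t, ‖E t * s t * c t‖ ^ 2 + ‖E t * s t * (γ t * c t + γ' t)‖ ^ 2 =
      a ^ 2 + ‖γ' t‖ ^ 2 / (1 + ‖γ t‖ ^ 2) ^ 2 :=
    fun t => (iso_point (hE1 t) (hs1 t) (hcr t) (hci t)).2
  simp only [e3, e4] at w3
  have hint : Continuous fun t => ‖γ' t‖ ^ 2 / (1 + ‖γ t‖ ^ 2) ^ 2 :=
    (hc.norm.pow 2).div (hNc.pow 2) fun t => (pow_pos (hNpos t) 2).ne'
  rw [intervalIntegral.integral_add (continuous_const.intervalIntegrable _ _)
    (hint.intervalIntegrable _ _), intervalIntegral.integral_const, intervalIntegral.integral_const,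
    smul_eq_mul, smul_eq_mul, sub_zero] at w3
  linarith

end MPV
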