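import Pool.Agent.MPV.Conn
import Pool.Agent.MPV.Cmp
import Pool.Agent.MPV.Exa

set_option autoImplicit false

/-!
# MPV MAIN : existence of the limit for `1/2 < p < 1`
-/

open MeasureTheory Metric Filter Topology

namespace MPV

theorem coef_const_mul (c : ℂ) {f : ℂ → ℂ} (hf : DifferentiableOn ℂ f (ball 0 1)) (n : ℕ) :
    coef (fun z => c * f z) n = c * coef f n := by
  have hfa : AnalyticAt ℂ f 0 :=
    hf.analyticAt (isOpen_ball.mem_nhds (mem_ball_self one_pos))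
  unfold coef
  rw [iteratedDeriv_const_mul c (hfa.contDiffAt)]
  ring

theorem coef_comp_mul (c : ℂ) {f : ℂ → ℂ} (hf : DifferentiableOn ℂ f (ball 0 1)) (hc : ‖c‖ = 1)
    (n : ℕ) : ‖coef (fun z => f (c * z)) n‖ = ‖coef f n‖ := by
  have key : ∀ n : ℕ, ∀ z ∈ ball (0 : ℂ) 1,
      iteratedDeriv n (fun z => f (c * z)) z = c ^ n * iteratedDeriv n f (c * z) := by
    intro n
    induction n with
    | zero => intro z _; simp
    | succ n ih =>
      intro z hz
      have hcz : c * z ∈ ball (0 : ℂ) 1 := by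
        rw [mem_ball_zero_iff] at hz ⊢
        rw [norm_mul, hc, one_mul]; exact hz
      rw [iteratedDeriv_succ, iteratedDeriv_succ]
      have hev : iteratedDeriv n (fun z => f (c * z)) =ᶠ[𝓝 z]
          fun z => c ^ n * iteratedDeriv n f (c * z) := by
        filter_upwards [isOpen_ball.mem_nhds hz] with w hw using ih w hw
      rw [hev.deriv_eq]
      have hfa : AnalyticAt ℂ (iteratedDeriv n f) (c * z) :=
        (hf.analyticAt (isOpen_ball.mem_nhds hcz)).iterated_deriv n |> fun h => by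
          rw [iteratedDeriv_eq_iterate]; exact h
      have h1 : HasDerivAt (fun z : ℂ => c * z) c z := by
        simpa using (hasDerivAt_id z).const_mul c
      have h2 := (hfa.differentiableAt.hasDerivAt.comp z h1).const_mul (c ^ n)
      have h3 := h2.deriv
      have h4 : (fun y => c ^ n * (iteratedDeriv n f ∘ fun z => c * z) y) =
          fun z => c ^ n * iteratedDeriv n f (c * z) := rfl
      rw [h4] at h3
      rw [h3]
      ring
  unfold coef
  rw [key n 0 (mem_ball_self one_pos), mul_zero, norm_div, norm_div, norm_mul, norm_pow, hc,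
    one_pow, one_mul]

/-- Almost nonincreasing real sequences which are bounded below converge. -/
theorem tendsto_of_almost_antitone {x : ℕ → ℝ} {c : ℝ} {N : ℕ} (hb : ∀ n, N ≤ n → c ≤ x n)
    (h : ∀ ε : ℝ, 0 < ε → ∃ n₀ : ℕ, ∀ n m : ℕ, n₀ ≤ n → n ≤ m → x m ≤ x n + ε) :
    ∃ K : ℝ, c ≤ K ∧ Tendsto x atTop (𝓝 K) := by
  have hC : CauchySeq x := by
    rw [Metric.cauchySeq_iff']
    intro ε hε
    obtain ⟨n₀, hn₀⟩ := h (ε / 3) (by positivity)
    set s : Set ℝ := x '' {n | max N n₀ ≤ n} with hs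
    have hne : s.Nonempty := ⟨x (max N n₀), max N n₀, le_refl (max N n₀), rfl⟩
    have hbd : BddBelow s := by
      refine ⟨c, ?_⟩
      rintro _ ⟨n, hn, rfl⟩
      exact hb n ((le_max_left _ _).trans hn)
    obtain ⟨_, ⟨M, hM, rfl⟩, hlt⟩ := exists_lt_of_csInf_lt hne
      (show sInf s < sInf s + ε / 3 by linarith)
    refine ⟨M, fun m hm => ?_⟩
    have h1 : sInf s ≤ x m := csInf_le hbd ⟨m, le_trans hM hm, rfl⟩
    have h2 : x m ≤ x M + ε / 3 := hn₀ M m ((le_max_right _ _).trans hM) hm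
    have h3 : sInf s ≤ x M := csInf_le hbd ⟨M, hM, rfl⟩
    rw [Real.dist_eq, abs_lt]
    constructor <;> linarith
  obtain ⟨K, hK⟩ := cauchySeq_tendsto_of_complete hC
  refine ⟨K, ?_, hK⟩
  refine ge_of_tendsto hK ?_
  filter_upwards [eventually_ge_atTop N] with n hn using hb n hn

theorem A_le {p : ℝ} (hp : 1 / 2 < p) (hp1 : p < 1) : ∃ C : ℝ, 0 < C ∧ ∀ n : ℕ, 1 ≤ n →
    A p n ≤ ENNReal.ofReal (C * (n : ℝ) ^ (2 * p - 1)) := by
  obtain ⟨C, hC, h⟩ := coef_bound hp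
  refine ⟨C, hC, fun n hn => ?_⟩
  unfold A
  refine iSup₂_le (fun f hf => ?_)
  obtain ⟨L, hL, hfL, h0⟩ := exists_cls (by linarith) hp1 hf
  rw [coef_congr hfL n]
  exact ENNReal.ofReal_le_ofReal (h L hL h0 n hn)

theorem le_A {p : ℝ} (hp : 1 / 2 < p) (hp1 : p < 1) {n : ℕ} (hn : 1 ≤ n) :
    ENNReal.ofReal ((n : ℝ) ^ (2 * p - 1)) ≤ A p n := by
  have h1 := exa_coef (p := p) (by linarith) (by linarith) n hn
  have h2 : (fun z : ℂ => Complex.exp (-(2 * p) * Complex.log (1 - z))) ∈ S p := by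
    refine mem_S (by linarith) hp1 (exa_cls (by linarith)) ?_
    simp
  exact (ENNReal.ofReal_le_ofReal h1).trans (le_iSup₂ (f := fun f (_ : f ∈ S p) =>
    ENNReal.ofReal ‖coef f n‖) _ h2)

theorem coef_le_A {p : ℝ} (hp : 1 / 2 < p) (hp1 : p < 1) {L : ℂ → ℂ} (hL : Cls p L) {n : ℕ}
    (hn : 1 ≤ n) : ‖coef (fun z => Complex.exp (L z)) n‖ ≤ Real.exp (L 0).re * (A p n).toReal := by
  obtain ⟨C, hC, hA⟩ := A_le hp hp1
  have hfin : A p n ≠ ⊤ := ne_top_of_le_ne_top ENNReal.ofReal_ne_top (hA n hn)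
  have h1 : Cls p (fun z => L z + (-((L 0).re : ℂ))) := hL.add_const _
  have h2 : (L 0 + (-((L 0).re : ℂ))).re = 0 := by simp
  have h3 := mem_S (by linarith) hp1 h1 h2
  have h4 : ENNReal.ofReal ‖coef (fun z => Complex.exp (L z + (-((L 0).re : ℂ)))) n‖ ≤ A p n :=
    le_iSup₂ (f := fun f (_ : f ∈ S p) => ENNReal.ofReal ‖coef f n‖) _ h3
  have h5 := ENNReal.toReal_mono hfin h4
  rw [ENNReal.toReal_ofReal (norm_nonneg _)] at h5
  have h6 : ∀ z, Complex.exp (L z) = (Real.exp (L 0).re : ℂ) *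
      Complex.exp (L z + (-((L 0).re : ℂ))) := by
    intro z
    rw [Complex.ofReal_exp, ← Complex.exp_add]
    congr 1
    ring
  have h7 : coef (fun z => Complex.exp (L z)) n = (Real.exp (L 0).re : ℂ) *
      coef (fun z => Complex.exp (L z + (-((L 0).re : ℂ)))) n := by
    rw [← coef_const_mul]
    · exact coef_congr (fun z _ => h6 z) n
    · exact (h1.diff).cexp
  rw [h7, norm_mul, Complex.norm_real, Real.norm_of_nonneg (Real.exp_pos _).le]
  exact mul_le_mul_of_nonneg_left h5 (Real.exp_pos _).le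

theorem almost_antitone {p : ℝ} (hp : 1 / 2 < p) (hp1 : p < 1) {ε : ℝ} (hε : 0 < ε) :
    ∃ n₀ : ℕ, 1 ≤ n₀ ∧ ∀ n m : ℕ, n₀ ≤ n → n ≤ m →
      (A p m).toReal * (m : ℝ) ^ (1 - 2 * p) ≤ (A p n).toReal * (n : ℝ) ^ (1 - 2 * p) + ε := by
  obtain ⟨δ, hδ, hpeak⟩ := peak hp hε
  obtain ⟨n₀, hn₀1, hcmp⟩ := cmp hp hδ hε
  refine ⟨n₀, hn₀1, fun n m hn hnm => ?_⟩
  have hn1 : 1 ≤ n := hn₀1.trans hn
  have hm1 : 1 ≤ m := hn1.trans hnm
  have hn0 : (0 : ℝ) < n := by exact_mod_cast hn1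
  have hm0 : (0 : ℝ) < m := by exact_mod_cast hm1
  have hnmr : (n : ℝ) ≤ m := by exact_mod_cast hnm
  -- it suffices to bound every coefficient
  have key : ∀ f ∈ S p, ‖coef f m‖ ≤
      ((A p n).toReal * (n : ℝ) ^ (1 - 2 * p) + ε) * (m : ℝ) ^ (2 * p - 1) := by
    intro f hf
    obtain ⟨L, hL, hfL, h0⟩ := exists_cls (by linarith) hp1 hf
    rw [coef_congr hfL m]
    have hAn : 0 ≤ (A p n).toReal * (n : ℝ) ^ (1 - 2 * p) := by positivity
    rcases lt_or_ge ‖coef (fun z => Complex.exp (L z)) m‖ (ε * (m : ℝ) ^ (2 * p - 1)) with hsm | hbig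
    · refine hsm.le.trans (mul_le_mul_of_nonneg_right (by linarith) (by positivity))
    obtain ⟨α, hα⟩ := hpeak L hL h0 m hm1 hbig
    obtain ⟨c, hc⟩ : ∃ c : ℂ, c = Complex.exp (α * Complex.I) := ⟨_, rfl⟩
    have hcn : ‖c‖ = 1 := by rw [hc, Complex.norm_exp_ofReal_mul_I]
    have hL' : Cls p (fun z => L (c * z)) := hL.rot hcn
    have h0' : (L (c * 0)).re = 0 := by rw [mul_zero]; exact h0
    have hcoef : ‖coef (fun z => Complex.exp (L (c * z))) m‖ =
        ‖coef (fun z => Complex.exp (L z)) m‖ :=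
      coef_comp_mul c (f := fun z => Complex.exp (L z)) hL.diff.cexp hcn m
    have h1 := hcmp n m hn hnm (fun z => L (c * z)) hL' h0' (by rw [hc]; exact hα)
    -- the recentred function
    obtain ⟨x, hx⟩ : ∃ x : ℂ, x = ((m : ℂ) - n) / (m + n) := ⟨_, rfl⟩
    have hxr : x = (((m : ℝ) - n) / (m + n) : ℝ) := by rw [hx]; push_cast; ring
    have hx0 : 0 ≤ ((m : ℝ) - n) / (m + n) := by
      apply div_nonneg <;> linarith
    have hx1 : ((m : ℝ) - n) / (m + n) < 1 := by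
      rw [div_lt_one (by linarith)]; linarith
    have hxn : ‖x‖ = ((m : ℝ) - n) / (m + n) := by
      rw [hxr, Complex.norm_real, Real.norm_of_nonneg hx0]
    have hxlt : ‖x‖ < 1 := by rw [hxn]; exact hx1
    rw [← hx] at h1
    have hG : Cls p (fun z => L (c * mob x z)) := hL'.mob hxlt
    have hGc := coef_le_A hp hp1 hG hn1
    have hG0 : (L (c * mob x 0)).re ≤ 2 * p * Real.log ((m : ℝ) / n) := by
      have hm0' : mob x 0 = x := by simp [mob]
      rw [hm0']
      have h2 := hL'.growth (by linarith) (z := x) (by rw [mem_ball_zero_iff]; exact hxlt)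
      rw [hxn] at h2
      have h3 : (1 + ((m : ℝ) - n) / (m + n)) / (1 - ((m : ℝ) - n) / (m + n)) = m / n := by
        have : (m : ℝ) + n ≠ 0 := by positivity
        have hn0' : (n : ℝ) ≠ 0 := hn0.ne'
        have e1 : 1 + ((m : ℝ) - n) / (m + n) = 2 * m / (m + n) := by field_simp; ring
        have e2 : 1 - ((m : ℝ) - n) / (m + n) = 2 * n / (m + n) := by field_simp; ring
        rw [e1, e2]
        field_simp
      rw [h3] at h2
      have h4 := (abs_le.1 h2).2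
      have h5 : (L (c * 0)).re = 0 := h0'
      simp only [h5, sub_zero] at h4
      exact h4
    have hexp : Real.exp (L (c * mob x 0)).re ≤ ((m : ℝ) / n) ^ (2 * p) := by
      rw [Real.rpow_def_of_pos (by positivity)]
      refine Real.exp_le_exp.2 (hG0.trans (le_of_eq (by ring)))
    have h6 : ‖coef (fun z => Complex.exp (L (c * mob x z))) n‖ ≤
        ((m : ℝ) / n) ^ (2 * p) * (A p n).toReal :=
      hGc.trans (mul_le_mul_of_nonneg_right hexp ENNReal.toReal_nonneg)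
    have h7 : (m : ℝ) * ‖coef (fun z => Complex.exp (L (c * z))) m‖ ≤
        n * (((m : ℝ) / n) ^ (2 * p) * (A p n).toReal) + ε * (m : ℝ) ^ (2 * p) := by
      have e1 : (m : ℝ) * ‖coef (fun z => Complex.exp (L (c * z))) m‖ =
          ‖(m : ℂ) * coef (fun z => Complex.exp (L (c * z))) m‖ := by
        rw [norm_mul, Complex.norm_natCast]
      have e2 : ‖(n : ℂ) * coef (fun z => Complex.exp (L (c * mob x z))) n‖ ≤
          n * (((m : ℝ) / n) ^ (2 * p) * (A p n).toReal) := by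
        rw [norm_mul, Complex.norm_natCast]
        exact mul_le_mul_of_nonneg_left h6 hn0.le
      rw [e1]
      have e3 := norm_sub_norm_le ((m : ℂ) * coef (fun z => Complex.exp (L (c * z))) m)
        ((n : ℂ) * coef (fun z => Complex.exp (L (c * mob x z))) n)
      linarith
    rw [hcoef] at h7
    -- divide by `m`
    have e4 : (n : ℝ) * (((m : ℝ) / n) ^ (2 * p) * (A p n).toReal) + ε * (m : ℝ) ^ (2 * p) =
        m * (((A p n).toReal * (n : ℝ) ^ (1 - 2 * p) + ε) * (m : ℝ) ^ (2 * p - 1)) := by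
      have r1 : (m : ℝ) * (m : ℝ) ^ (2 * p - 1) = (m : ℝ) ^ (2 * p) := by
        rw [← Real.rpow_one_add' hm0.le (by linarith)]
        congr 1; ring
      have r2 : (n : ℝ) * ((m : ℝ) / n) ^ (2 * p) = (n : ℝ) ^ (1 - 2 * p) * (m : ℝ) ^ (2 * p) := by
        rw [Real.div_rpow hm0.le hn0.le, Real.rpow_sub hn0, Real.rpow_one]
        ring
      calc (n : ℝ) * (((m : ℝ) / n) ^ (2 * p) * (A p n).toReal) + ε * (m : ℝ) ^ (2 * p)
          = ((n : ℝ) * ((m : ℝ) / n) ^ (2 * p)) * (A p n).toReal + ε * (m : ℝ) ^ (2 * p) := by ring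
        _ = ((A p n).toReal * (n : ℝ) ^ (1 - 2 * p) + ε) * (m : ℝ) ^ (2 * p) := by rw [r2]; ring
        _ = _ := by rw [← r1]; ring
    rw [e4] at h7
    exact le_of_mul_le_mul_left h7 hm0
  have hsup : A p m ≤ ENNReal.ofReal
      (((A p n).toReal * (n : ℝ) ^ (1 - 2 * p) + ε) * (m : ℝ) ^ (2 * p - 1)) := by
    unfold A
    exact iSup₂_le (fun f hf => ENNReal.ofReal_le_ofReal (key f hf))
  have hX : 0 ≤ ((A p n).toReal * (n : ℝ) ^ (1 - 2 * p) + ε) * (m : ℝ) ^ (2 * p - 1) := by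
    positivity
  have h8 := ENNReal.toReal_mono ENNReal.ofReal_ne_top hsup
  rw [ENNReal.toReal_ofReal hX] at h8
  calc (A p m).toReal * (m : ℝ) ^ (1 - 2 * p)
      ≤ (((A p n).toReal * (n : ℝ) ^ (1 - 2 * p) + ε) * (m : ℝ) ^ (2 * p - 1)) *
        (m : ℝ) ^ (1 - 2 * p) := mul_le_mul_of_nonneg_right h8 (by positivity)
    _ = ((A p n).toReal * (n : ℝ) ^ (1 - 2 * p) + ε) *
        ((m : ℝ) ^ (2 * p - 1) * (m : ℝ) ^ (1 - 2 * p)) := by ring
    _ = (A p n).toReal * (n : ℝ) ^ (1 - 2 * p) + ε := by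
        rw [← Real.rpow_add hm0]
        have : 2 * p - 1 + (1 - 2 * p) = 0 := by ring
        rw [this, Real.rpow_zero, mul_one]

theorem limit_exists {p : ℝ} (hp : 1 / 2 < p) (hp1 : p < 1) :
    ∃ K : ℝ, 1 ≤ K ∧ Tendsto (fun n : ℕ => A p n * ENNReal.ofReal ((n : ℝ) ^ (1 - 2 * p))) atTop
      (𝓝 (ENNReal.ofReal K)) := by
  obtain ⟨C, hC, hA⟩ := A_le hp hp1
  have hfin : ∀ n : ℕ, 1 ≤ n → A p n ≠ ⊤ := fun n hn =>
    ne_top_of_le_ne_top ENNReal.ofReal_ne_top (hA n hn)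
  have hb : ∀ n : ℕ, 1 ≤ n → 1 ≤ (A p n).toReal * (n : ℝ) ^ (1 - 2 * p) := by
    intro n hn
    have hn0 : (0 : ℝ) < n := by exact_mod_cast hn
    have h1 := ENNReal.toReal_mono (hfin n hn) (le_A hp hp1 hn)
    rw [ENNReal.toReal_ofReal (by positivity)] at h1
    calc (1 : ℝ) = (n : ℝ) ^ (2 * p - 1) * (n : ℝ) ^ (1 - 2 * p) := by
          rw [← Real.rpow_add hn0]
          have : 2 * p - 1 + (1 - 2 * p) = 0 := by ring
          rw [this, Real.rpow_zero]
      _ ≤ _ := mul_le_mul_of_nonneg_right h1 (by positivity)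
  obtain ⟨K, hK1, hK⟩ := tendsto_of_almost_antitone hb (fun ε hε => by
    obtain ⟨n₀, _, h⟩ := almost_antitone hp hp1 hε
    exact ⟨n₀, h⟩)
  refine ⟨K, hK1, ?_⟩
  have h2 := (ENNReal.continuous_ofReal.tendsto K).comp hK
  refine h2.congr' ?_
  filter_upwards [eventually_ge_atTop 1] with n hn
  show ENNReal.ofReal ((A p n).toReal * (n : ℝ) ^ (1 - 2 * p)) = _
  rw [ENNReal.ofReal_mul ENNReal.toReal_nonneg, ENNReal.ofReal_toReal (hfin n hn)]

end MPV
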