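import Mathlib
import Pool.Agent.Helper94.Area.Lower

set_option autoImplicit false

/-!
# MPV PAR : growth of the quadratic mean (Hardy-Stein identity for `|h|^2`)

Same method as STK. PROOF. `q z = z deriv h z`, `q1 z = z deriv q z`, `z = r e^{it}`.
`Φ r = ∫ ‖h‖^2 dt`, `Φ' r = (2/r) P r`, `P r = ∫ Re (conj h q) dt` (`∂_r h = q/r`).
`r ∂_r Re(conj h q) = ‖q‖^2 + Re (conj h q1)` and `∂_t (- Im (conj h q)) = ‖q‖^2 - Re (conj h q1)`
(`∂_t h = i q`), so `r P' r = 2 ∫ ‖q‖^2 dt = 2 r^2 ∫ ‖deriv h‖^2 dt`, `P 0 = 0`, so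
`P r = 2 ∫_0^r ρ ∫ ‖deriv h (ρ e^{it})‖^2 dt dρ = 2 ∫ z in ball 0 r, ‖deriv h z‖^2` (polar coordinates) `≤ 2 J`
by `hJ`. So `Φ' ρ ≤ (4/ρ) J ρ` on `[s, r]`. Integrate from `s` to `r`.
(Alternative: Taylor coefficients and Parseval.)
-/

open MeasureTheory Metric

namespace MPV

open Pool.Agent.Helper94.Area in
/-- Parseval on the circle of radius `r` -/
lemma mg_parseval {h : ℂ → ℂ} (hh : DifferentiableOn ℂ h (ball 0 1)) {r : ℝ} (h0 : 0 < r)
    (h1 : r < 1) :
    HasSum (fun n : ℕ => 2 * Real.pi * (‖tc h n‖ ^ 2 * r ^ (2 * n)))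
      (∫ t in (0 : ℝ)..2 * Real.pi, ‖h (circleMap 0 r t)‖ ^ 2) := by
  have hs : ∀ z ∈ ball (0:ℂ) 1, HasSum (fun n : ℕ => tc h n * z ^ n) (h z) :=
    fun z hz => tc_hasSum hh hz
  have hmem : ∀ θ : ℝ, (r * Complex.exp (θ * Complex.I) : ℂ) ∈ ball (0:ℂ) 1 := by
    intro θ
    rw [mem_ball_zero_iff, norm_mul, Complex.norm_exp_ofReal_mul_I, Complex.norm_real, mul_one,
      Real.norm_eq_abs, abs_of_pos h0]
    exact h1
  have hsum := summable_norm_of_hasSum hs h0.le h1
  have hu : ∀ θ : ℝ, HasSum (fun n : ℕ => (tc h n * (r:ℂ) ^ n) *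
      Complex.exp ((n:ℂ) * θ * Complex.I)) (h (r * Complex.exp (θ * Complex.I))) := by
    intro θ
    refine hs_congr (fun n => ?_) (hs _ (hmem θ))
    rw [mul_pow, ← Complex.exp_nat_mul]
    ring_nf
  have hc : Continuous (fun θ : ℝ => h (r * Complex.exp (θ * Complex.I))) :=
    hh.continuousOn.comp_continuous (by fun_prop) hmem
  have hP := parseval hsum hu hc
  have hper : Function.Periodic
      (fun θ : ℝ => ‖h (r * Complex.exp (θ * Complex.I))‖ ^ 2) (2 * Real.pi) := by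
    intro θ
    have h2 : Complex.exp (((θ + 2 * Real.pi : ℝ) : ℂ) * Complex.I)
        = Complex.exp (θ * Complex.I) := by
      push_cast
      rw [add_mul, Complex.exp_add, Complex.exp_two_pi_mul_I, mul_one]
    simp only [h2]
  have h3 : (∫ t in (0 : ℝ)..2 * Real.pi, ‖h (circleMap 0 r t)‖ ^ 2)
      = ∫ θ in (-Real.pi)..Real.pi, ‖h (r * Complex.exp (θ * Complex.I))‖ ^ 2 := by
    have h4 := hper.intervalIntegral_add_eq 0 (-Real.pi)
    rw [zero_add, show -Real.pi + 2 * Real.pi = Real.pi by ring] at h4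
    rw [← h4]
    refine intervalIntegral.integral_congr (fun t _ => ?_)
    simp only [circleMap, zero_add]
  rw [h3]
  have h5 : (fun n : ℕ => 2 * Real.pi * (‖tc h n‖ ^ 2 * r ^ (2 * n)))
      = fun n : ℕ => 2 * Real.pi * ‖tc h n * (r:ℂ) ^ n‖ ^ 2 := by
    funext n
    rw [norm_mul, norm_pow, Complex.norm_real, Real.norm_eq_abs, abs_of_pos h0, mul_pow, ← pow_mul,
      mul_comm n 2]
  rw [h5]
  exact hP

open Pool.Agent.Helper94.Area in
/-- partial sums are lower bounds for the area integral of `|h'|^2` -/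
lemma mg_area {h : ℂ → ℂ} (hh : DifferentiableOn ℂ h (ball 0 1)) {ρ : ℝ} (h0 : 0 < ρ)
    (h1 : ρ < 1) (N : ℕ) :
    ENNReal.ofReal (Real.pi * ∑ n ∈ Finset.range N,
      ((n:ℝ) + 1) * ‖tc h (n + 1)‖ ^ 2 * ρ ^ (2 * (n + 1)))
      ≤ ∫⁻ z in ball (0 : ℂ) ρ, ENNReal.ofReal (‖deriv h z‖ ^ 2) := by
  have hd : DifferentiableOn ℂ (deriv h) (ball 0 1) := hh.deriv isOpen_ball
  have hcd : ContinuousOn (deriv h) (ball 0 1) := hd.continuousOn
  rw [← lintegral_indicator measurableSet_ball, ← Complex.lintegral_comp_polarCoord_symm]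
  set T : Set (ℝ × ℝ) := Set.Ioo 0 ρ ×ˢ Set.Ioo (-Real.pi) Real.pi with hT
  have hTm : MeasurableSet T := measurableSet_Ioo.prod measurableSet_Ioo
  have hTsub : T ⊆ polarCoord.target := by
    rintro ⟨r, θ⟩ ⟨h2, h3⟩
    exact ⟨h2.1, h3⟩
  refine le_trans ?_ (lintegral_mono_set hTsub)
  have hTA : ∀ p ∈ T, Complex.polarCoord.symm p ∈ ball (0:ℂ) ρ := by
    rintro ⟨r, θ⟩ ⟨h2, h3⟩
    have h4 : ‖Complex.polarCoord.symm (r, θ)‖ = r := by
      rw [Complex.norm_polarCoord_symm]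
      exact abs_of_pos h2.1
    rw [mem_ball_zero_iff, h4]
    exact h2.2
  have hcong : ∫⁻ p in T, ENNReal.ofReal p.1 •
      (ball (0:ℂ) ρ).indicator (fun z => ENNReal.ofReal (‖deriv h z‖ ^ 2))
        (Complex.polarCoord.symm p)
      = ∫⁻ p in T, ENNReal.ofReal (p.1 * ‖deriv h (p.1 * Complex.exp (p.2 * Complex.I))‖ ^ 2) := by
    refine setLIntegral_congr_fun hTm (fun p hp => ?_)
    rw [Set.indicator_of_mem (hTA p hp), smul_eq_mul, ← ENNReal.ofReal_mul hp.1.1.le]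
    congr 3
    rw [Complex.polarCoord_symm_apply, Complex.exp_mul_I]
    simp
  rw [hcong]
  have hTc : ContinuousOn (fun p : ℝ × ℝ =>
      p.1 * ‖deriv h (p.1 * Complex.exp (p.2 * Complex.I))‖ ^ 2) T := by
    refine continuousOn_fst.mul (ContinuousOn.pow (ContinuousOn.norm ?_) 2)
    refine hcd.comp (by fun_prop) (fun p hp => ?_)
    have h2 := ball_subset_ball h1.le (hTA p hp)
    rwa [Complex.polarCoord_symm_apply, Complex.ofReal_cos, Complex.ofReal_sin,
      ← Complex.exp_mul_I] at h2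
  have hvp : (volume : Measure (ℝ × ℝ)).restrict T
      = ((volume : Measure ℝ).restrict (Set.Ioo 0 ρ)).prod
        ((volume : Measure ℝ).restrict (Set.Ioo (-Real.pi) Real.pi)) := by
    rw [Measure.prod_restrict, ← Measure.volume_eq_prod]
  have hae : AEMeasurable (fun p : ℝ × ℝ =>
      ENNReal.ofReal (p.1 * ‖deriv h (p.1 * Complex.exp (p.2 * Complex.I))‖ ^ 2))
      (((volume : Measure ℝ).restrict (Set.Ioo 0 ρ)).prod
        ((volume : Measure ℝ).restrict (Set.Ioo (-Real.pi) Real.pi))) := by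
    rw [← hvp]
    exact (hTc.aemeasurable hTm).ennreal_ofReal
  rw [hvp, lintegral_prod _ hae]
  -- inner integrals
  have hinner : ∀ r ∈ Set.Ioo 0 ρ, ENNReal.ofReal (2 * Real.pi * ∑ n ∈ Finset.range N,
      ((n:ℝ) + 1) ^ 2 * ‖tc h (n + 1)‖ ^ 2 * r ^ (2 * n + 1))
      ≤ ∫⁻ θ in Set.Ioo (-Real.pi) Real.pi,
        ENNReal.ofReal (r * ‖deriv h (r * Complex.exp (θ * Complex.I))‖ ^ 2) := by
    intro r hr
    have hr0 : 0 < r := hr.1
    have hr1 : r < 1 := hr.2.trans h1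
    have hcts : Continuous (fun θ : ℝ =>
        r * ‖deriv h (r * Complex.exp (θ * Complex.I))‖ ^ 2) := by
      refine continuous_const.mul (Continuous.pow (Continuous.norm ?_) 2)
      refine hcd.comp_continuous (by fun_prop) (fun θ => ?_)
      rw [mem_ball_zero_iff, norm_mul, Complex.norm_exp_ofReal_mul_I, Complex.norm_real, mul_one,
        Real.norm_eq_abs, abs_of_pos hr0]
      exact hr1
    have hint : IntegrableOn (fun θ : ℝ =>
        r * ‖deriv h (r * Complex.exp (θ * Complex.I))‖ ^ 2) (Set.Ioo (-Real.pi) Real.pi) :=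
      (hcts.integrableOn_Icc (a := -Real.pi) (b := Real.pi)).mono_set Set.Ioo_subset_Icc_self
    rw [← ofReal_integral_eq_lintegral_ofReal hint (ae_of_all _ (fun θ => by positivity))]
    refine ENNReal.ofReal_le_ofReal ?_
    rw [← integral_Ioc_eq_integral_Ioo,
      ← intervalIntegral.integral_of_le (by linarith [Real.pi_pos]),
      intervalIntegral.integral_const_mul]
    have hper : Function.Periodic
        (fun θ : ℝ => ‖deriv h (r * Complex.exp (θ * Complex.I))‖ ^ 2) (2 * Real.pi) := by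
      intro θ
      have h2 : Complex.exp (((θ + 2 * Real.pi : ℝ) : ℂ) * Complex.I)
          = Complex.exp (θ * Complex.I) := by
        push_cast
        rw [add_mul, Complex.exp_add, Complex.exp_two_pi_mul_I, mul_one]
      simp only [h2]
    have h3 : (∫ t in (0 : ℝ)..2 * Real.pi, ‖deriv h (circleMap 0 r t)‖ ^ 2)
        = ∫ θ in (-Real.pi)..Real.pi, ‖deriv h (r * Complex.exp (θ * Complex.I))‖ ^ 2 := by
      have h4 := hper.intervalIntegral_add_eq 0 (-Real.pi)
      rw [zero_add, show -Real.pi + 2 * Real.pi = Real.pi by ring] at h4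
      rw [← h4]
      refine intervalIntegral.integral_congr (fun t _ => ?_)
      simp only [circleMap, zero_add]
    rw [← h3]
    have hle := sum_le_hasSum (Finset.range N) (fun n _ => by positivity)
      (mg_parseval hd hr0 hr1)
    refine le_trans (le_of_eq ?_) (mul_le_mul_of_nonneg_left hle hr0.le)
    rw [Finset.mul_sum, Finset.mul_sum]
    refine Finset.sum_congr rfl (fun n _ => ?_)
    rw [tc_deriv, norm_mul]
    have h5 : ‖(n:ℂ) + 1‖ = (n:ℝ) + 1 := by
      have h6 : ((n:ℂ) + 1) = (((n:ℝ) + 1 : ℝ) : ℂ) := by push_cast; ring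
      rw [h6, Complex.norm_real, Real.norm_eq_abs, abs_of_nonneg (by positivity)]
    rw [h5, pow_succ]
    ring
  refine le_trans ?_ (setLIntegral_mono' measurableSet_Ioo hinner)
  -- outer integral
  have hcont : Continuous (fun r : ℝ => 2 * Real.pi * ∑ n ∈ Finset.range N,
      ((n:ℝ) + 1) ^ 2 * ‖tc h (n + 1)‖ ^ 2 * r ^ (2 * n + 1)) := by fun_prop
  have hint : IntegrableOn (fun r : ℝ => 2 * Real.pi * ∑ n ∈ Finset.range N,
      ((n:ℝ) + 1) ^ 2 * ‖tc h (n + 1)‖ ^ 2 * r ^ (2 * n + 1)) (Set.Ioo 0 ρ) :=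
    (hcont.integrableOn_Icc (a := 0) (b := ρ)).mono_set Set.Ioo_subset_Icc_self
  rw [← ofReal_integral_eq_lintegral_ofReal hint]
  swap
  · refine (ae_restrict_iff' measurableSet_Ioo).mpr (ae_of_all _ (fun r hr => ?_))
    have hr0 : 0 < r := hr.1
    positivity
  refine ENNReal.ofReal_le_ofReal (le_of_eq ?_)
  rw [← integral_Ioc_eq_integral_Ioo, ← intervalIntegral.integral_of_le h0.le,
    intervalIntegral.integral_const_mul, intervalIntegral.integral_finsetSum]
  · rw [mul_comm 2 Real.pi, mul_assoc]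
    congr 1
    rw [Finset.mul_sum]
    refine Finset.sum_congr rfl (fun n _ => ?_)
    rw [intervalIntegral.integral_const_mul, integral_pow]
    push_cast
    have h2 : (n:ℝ) + 1 ≠ 0 := by positivity
    have h3 : 2 * (n:ℝ) + 1 + 1 ≠ 0 := by positivity
    rw [show 2 * n + 1 + 1 = 2 * (n + 1) by ring, zero_pow (by omega)]
    field_simp
    ring
  · intro n _
    exact Continuous.intervalIntegrable (by fun_prop) _ _

/-- If `J ρ` bounds the area integral of `|h'|^2` over the disc of radius `ρ ∈ [s, r]`, the quadratic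
mean of `h` grows at most at the rate `4 J ρ / ρ` on `[s, r]`. -/
theorem mean_growth {h : ℂ → ℂ} (hh : DifferentiableOn ℂ h (ball 0 1)) {J : ℝ → ℝ} {s r : ℝ}
    (hs : 0 < s) (hsr : s ≤ r) (hr : r < 1) (hJc : ContinuousOn J (Set.Icc s r))
    (hJ : ∀ ρ ∈ Set.Icc s r,
      ∫⁻ z in ball (0 : ℂ) ρ, ENNReal.ofReal (‖deriv h z‖ ^ 2) ≤ ENNReal.ofReal (J ρ))
    (hJ0 : ∀ ρ ∈ Set.Icc s r, 0 ≤ J ρ) :
    ∫ t in (0 : ℝ)..2 * Real.pi, ‖h (circleMap 0 r t)‖ ^ 2 ≤
      (∫ t in (0 : ℝ)..2 * Real.pi, ‖h (circleMap 0 s t)‖ ^ 2) + ∫ ρ in s..r, 4 / ρ * J ρ := by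
  have hr0 : 0 < r := hs.trans_le hsr
  have hs1 : s < 1 := hsr.trans_lt hr
  have hPr := mg_parseval hh hr0 hr
  have hPs := mg_parseval hh hs hs1
  have hdiff := hPr.sub hPs
  rw [← hasSum_nat_add_iff' 1] at hdiff
  simp only [Finset.range_one, Finset.sum_singleton, mul_zero, pow_zero, mul_one, sub_self,
    sub_zero] at hdiff
  have hIc : ContinuousOn (fun ρ => 4 / ρ * J ρ) (Set.Icc s r) := by
    refine ContinuousOn.mul ?_ hJc
    refine continuousOn_const.div continuousOn_id (fun ρ hρ => ?_)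
    exact (hs.trans_le hρ.1).ne'
  have hIi : IntervalIntegrable (fun ρ => 4 / ρ * J ρ) volume s r := by
    refine ContinuousOn.intervalIntegrable ?_
    rw [Set.uIcc_of_le hsr]
    exact hIc
  have key : ∀ N : ℕ, ∑ n ∈ Finset.range N,
      (2 * Real.pi * (‖Pool.Agent.Helper94.Area.tc h (n + 1)‖ ^ 2 * r ^ (2 * (n + 1))) -
        2 * Real.pi * (‖Pool.Agent.Helper94.Area.tc h (n + 1)‖ ^ 2 * s ^ (2 * (n + 1))))
      ≤ ∫ ρ in s..r, 4 / ρ * J ρ := by
    intro N
    have h2 : ∑ n ∈ Finset.range N,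
      (2 * Real.pi * (‖Pool.Agent.Helper94.Area.tc h (n + 1)‖ ^ 2 * r ^ (2 * (n + 1))) -
        2 * Real.pi * (‖Pool.Agent.Helper94.Area.tc h (n + 1)‖ ^ 2 * s ^ (2 * (n + 1))))
        = ∫ ρ in s..r, ∑ n ∈ Finset.range N, (4 * Real.pi * ((n:ℝ) + 1) *
          ‖Pool.Agent.Helper94.Area.tc h (n + 1)‖ ^ 2) * ρ ^ (2 * n + 1) := by
      rw [intervalIntegral.integral_finsetSum]
      · refine Finset.sum_congr rfl (fun n _ => ?_)
        rw [intervalIntegral.integral_const_mul, integral_pow]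
        push_cast
        have h3 : 2 * (n:ℝ) + 1 + 1 ≠ 0 := by positivity
        rw [show 2 * n + 1 + 1 = 2 * (n + 1) by ring]
        field_simp
        ring
      · intro n _
        exact Continuous.intervalIntegrable (by fun_prop) _ _
    rw [h2]
    refine intervalIntegral.integral_mono_on hsr
      (Continuous.intervalIntegrable (by fun_prop) _ _) hIi (fun ρ hρ => ?_)
    have hρ0 : 0 < ρ := hs.trans_le hρ.1
    have hρ1 : ρ < 1 := hρ.2.trans_lt hr
    have h3 := (mg_area hh hρ0 hρ1 N).trans (hJ ρ hρ)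
    rw [ENNReal.ofReal_le_ofReal_iff (hJ0 ρ hρ)] at h3
    have h4 : ∑ n ∈ Finset.range N, (4 * Real.pi * ((n:ℝ) + 1) *
          ‖Pool.Agent.Helper94.Area.tc h (n + 1)‖ ^ 2) * ρ ^ (2 * n + 1)
        = 4 / ρ * (Real.pi * ∑ n ∈ Finset.range N,
      ((n:ℝ) + 1) * ‖Pool.Agent.Helper94.Area.tc h (n + 1)‖ ^ 2 * ρ ^ (2 * (n + 1))) := by
      rw [Finset.mul_sum, Finset.mul_sum]
      refine Finset.sum_congr rfl (fun n _ => ?_)
      rw [show 2 * (n + 1) = 2 * n + 1 + 1 by ring, pow_succ ρ (2 * n + 1)]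
      field_simp
    rw [h4]
    exact mul_le_mul_of_nonneg_left h3 (by positivity)
  have hle := le_of_tendsto' hdiff.tendsto_sum_nat key
  linarith

end MPV
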