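import Pool.Agent.MPV.Gro
import Pool.Agent.MPV.Par

set_option autoImplicit false

/-!
# MPV MEA : the `L^1` mean of `exp ∘ L` (`p > 1/2`)

PROOF. `h = exp ∘ (L/2)`, `‖h‖^2 = exp (Re L)`, `deriv h = h deriv L/2`. By `Cls.pow` with `l = 1/2`
(`Cls (p/2) (L/2)`) with `U` slightly larger than `(1/2) log M'`: if `Re L ≤ log M'` on `‖z‖ < ρ` then
`∫⁻ z in ball 0 ρ, ‖deriv h z‖^2 ≤ ofReal ((π p/2) M')` (`{‖z‖ < ρ} ⊆ {Re (L/2) < U}`, let `U ↓`).
`M' = M' ρ = min M ((2/(1-ρ))^(2p))` for `0 < ρ ≤ r` (by `hb`, and by `Cls.growth` with `1 + ρ ≤ 2`,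
`(L 0).re = 0`). Apply `mean_growth` with `J ρ = (π p/2) M' ρ`.
For `r ≤ 1/2`: `exp (Re L) ≤ 3^(2p) = 9^p` on `‖z‖ ≤ 1/2` (`(1 + 1/2)/(1 - 1/2) = 3`), so the mean is `≤ 2π 9^p`.
For `r > 1/2` take `s = 1/2`: mean `≤ 2π 9^p + ∫_{1/2}^r 8 (π p/2) M' ρ dρ` (`4/ρ ≤ 8`), and
`∫_{1/2}^r min M ((2/(1-ρ))^(2p)) dρ ≤ (4p/(2p-1)) M^(1-1/(2p))` (split at `x0 = 2 M^(-1/(2p))`).
-/

open MeasureTheory Metric

namespace MPV

/-- the elementary integral -/
private theorem int_min {p M α β : ℝ} (hp : 1 / 2 < p) (hM : 1 ≤ M) (hα : 0 < α) (hαβ : α ≤ β) :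
    ∫ x in α..β, min M ((2 / x) ^ (2 * p)) ≤
      4 * p / (2 * p - 1) * M ^ (1 - 1 / (2 * p)) := by
  have hM0 : 0 < M := by linarith
  have h2p : 0 < 2 * p - 1 := by linarith
  set x0 : ℝ := 2 * M ^ (-(1 / (2 * p))) with hx0
  have hx0p : 0 < x0 := by positivity
  set Q : ℝ := M ^ (1 - 1 / (2 * p)) with hQ
  have hQ0 : 0 < Q := by positivity
  have hMx : M * x0 = 2 * Q := by
    rw [hx0, hQ, sub_eq_add_neg, Real.rpow_add hM0, Real.rpow_one]; ring
  have hxQ : (2 : ℝ) ^ (2 * p) * x0 ^ (1 - 2 * p) = 2 * Q := by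
    rw [hx0, hQ, Real.mul_rpow (by norm_num) (by positivity), ← mul_assoc,
      ← Real.rpow_add (by norm_num), ← Real.rpow_mul hM0.le]
    congr 1
    · norm_num
    · congr 1
      have : p ≠ 0 := by linarith
      field_simp
      ring
  set γ : ℝ := max α (min β x0) with hγ
  have hαγ : α ≤ γ := le_max_left _ _
  have hγβ : γ ≤ β := max_le hαβ (min_le_left _ _)
  have hγp : 0 < γ := hα.trans_le hαγ
  have hc2 : ∀ c e : ℝ, 0 < c → c ≤ e →
      ContinuousOn (fun x : ℝ => (2 / x) ^ (2 * p)) (Set.uIcc c e) := by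
    intro c e hc hce x hx
    rw [Set.uIcc_of_le hce] at hx
    have hx0 : 0 < x := hc.trans_le hx.1
    refine ContinuousAt.continuousWithinAt ?_
    refine ContinuousAt.rpow_const ?_ (Or.inl (by positivity))
    exact continuousAt_const.div continuousAt_id hx0.ne'
  have hi : ∀ c e : ℝ, 0 < c → c ≤ e →
      IntervalIntegrable (fun x : ℝ => min M ((2 / x) ^ (2 * p))) volume c e := fun c e hc hce =>
    ContinuousOn.intervalIntegrable fun x hx =>
      Filter.Tendsto.min tendsto_const_nhds (hc2 c e hc hce x hx)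
  have h1 : ∫ x in α..γ, min M ((2 / x) ^ (2 * p)) ≤ 2 * Q := by
    calc ∫ x in α..γ, min M ((2 / x) ^ (2 * p)) ≤ ∫ _ in α..γ, M :=
          intervalIntegral.integral_mono_on hαγ (hi _ _ hα hαγ) (by simp)
            fun x _ => min_le_left _ _
      _ = (γ - α) * M := by rw [intervalIntegral.integral_const, smul_eq_mul]
      _ ≤ x0 * M := by
          refine mul_le_mul_of_nonneg_right ?_ hM0.le
          have : γ ≤ α + x0 := max_le (by linarith) ((min_le_right _ _).trans (by linarith))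
          linarith
      _ = 2 * Q := by rw [mul_comm, hMx]
  have h2 : ∫ x in γ..β, min M ((2 / x) ^ (2 * p)) ≤ 2 * Q / (2 * p - 1) := by
    by_cases hβ : β ≤ x0
    · have : γ = β := by
        refine le_antisymm hγβ ?_
        rw [hγ, min_eq_left hβ]
        exact le_max_right _ _
      rw [this, intervalIntegral.integral_same]
      positivity
    · rw [not_le] at hβ
      have hγx : x0 ≤ γ := by
        rw [hγ, min_eq_right hβ.le]
        exact le_max_right _ _
      have h3 : ∫ x in γ..β, min M ((2 / x) ^ (2 * p)) ≤ ∫ x in γ..β, (2 / x) ^ (2 * p) :=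
        intervalIntegral.integral_mono_on hγβ (hi _ _ hγp hγβ)
          (hc2 _ _ hγp hγβ).intervalIntegrable fun x _ => min_le_right _ _
      have h4 : ∫ x in γ..β, (2 / x) ^ (2 * p)
          = (2 : ℝ) ^ (2 * p) * ∫ x in γ..β, x ^ (-(2 * p)) := by
        rw [← intervalIntegral.integral_const_mul]
        refine intervalIntegral.integral_congr fun x hx => ?_
        rw [Set.uIcc_of_le hγβ] at hx
        have hx0 : 0 < x := hγp.trans_le hx.1
        rw [Real.div_rpow (by norm_num) hx0.le, Real.rpow_neg hx0.le, div_eq_mul_inv]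
      have h5 : ∫ x in γ..β, x ^ (-(2 * p))
          = (β ^ (-(2 * p) + 1) - γ ^ (-(2 * p) + 1)) / (-(2 * p) + 1) := by
        refine integral_rpow (Or.inr ⟨by linarith, ?_⟩)
        rw [Set.uIcc_of_le hγβ]
        intro h0
        linarith [h0.1]
      have h6 : γ ^ (-(2 * p) + 1) ≤ x0 ^ (-(2 * p) + 1) :=
        Real.rpow_le_rpow_of_nonpos hx0p hγx (by linarith)
      have h7 : 0 ≤ β ^ (-(2 * p) + 1) := by
        have : 0 < β := hγp.trans_le hγβ
        positivity
      have h8 : (β ^ (-(2 * p) + 1) - γ ^ (-(2 * p) + 1)) / (-(2 * p) + 1)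
          ≤ x0 ^ (-(2 * p) + 1) / (2 * p - 1) := by
        have e1 : (β ^ (-(2 * p) + 1) - γ ^ (-(2 * p) + 1)) / (-(2 * p) + 1)
            = (γ ^ (-(2 * p) + 1) - β ^ (-(2 * p) + 1)) / (2 * p - 1) := by
          have : -(2 * p) + 1 = -(2 * p - 1) := by ring
          rw [this, div_neg, ← neg_div, neg_sub]
        rw [e1]
        gcongr
        linarith
      refine h3.trans ?_
      rw [h4, h5]
      calc (2 : ℝ) ^ (2 * p) * ((β ^ (-(2 * p) + 1) - γ ^ (-(2 * p) + 1)) / (-(2 * p) + 1))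
          ≤ (2 : ℝ) ^ (2 * p) * (x0 ^ (-(2 * p) + 1) / (2 * p - 1)) := by gcongr
        _ = 2 * Q / (2 * p - 1) := by
            rw [← hxQ, mul_div_assoc]
            congr 3
            ring
  have h3 := intervalIntegral.integral_add_adjacent_intervals (hi _ _ hα hαγ) (hi _ _ hγp hγβ)
  rw [← h3]
  refine (add_le_add h1 h2).trans (le_of_eq ?_)
  field_simp
  ring

private theorem norm_half (L : ℂ → ℂ) (z : ℂ) :
    ‖Complex.exp (((1 / 2 : ℝ) : ℂ) * L z)‖ ^ 2 = Real.exp (L z).re := by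
  rw [Complex.norm_exp, ← Real.exp_nat_mul, Complex.re_ofReal_mul]
  congr 1
  push_cast
  ring

private theorem area_half {p : ℝ} (hp : 0 < p) {L : ℂ → ℂ} (h : Cls p L) {ρ N : ℝ} (hρ : ρ ≤ 1)
    (hN : 0 < N) (hb : ∀ z ∈ ball (0 : ℂ) ρ, Real.exp (L z).re ≤ N) :
    ∫⁻ z in ball (0 : ℂ) ρ,
      ENNReal.ofReal (‖deriv (fun z => Complex.exp (((1 / 2 : ℝ) : ℂ) * L z)) z‖ ^ 2) ≤
      ENNReal.ofReal (Real.pi * (1 / 2 * p) * N) := by
  have hc := h.pow hp (l := 1 / 2) (by norm_num) (by norm_num)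
  have hsub : ball (0 : ℂ) ρ ⊆ ball 0 1 := ball_subset_ball hρ
  have hder : ∀ z ∈ ball (0 : ℂ) ρ,
      ‖deriv (fun z => Complex.exp (((1 / 2 : ℝ) : ℂ) * L z)) z‖ ^ 2 =
        Real.exp (2 * (((1 / 2 : ℝ) : ℂ) * L z).re) *
          ‖deriv (fun z => ((1 / 2 : ℝ) : ℂ) * L z) z‖ ^ 2 := by
    intro z hz
    have hd : DifferentiableAt ℂ (fun z => ((1 / 2 : ℝ) : ℂ) * L z) z :=
      hc.diff.differentiableAt (isOpen_ball.mem_nhds (hsub hz))
    rw [hd.hasDerivAt.cexp.deriv, norm_mul, mul_pow]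
    congr 1
    rw [Complex.norm_exp, ← Real.exp_nat_mul]
    congr 1
  have hU : ∀ U : ℝ, 1 / 2 * Real.log N < U → ∫⁻ z in ball (0 : ℂ) ρ,
      ENNReal.ofReal (‖deriv (fun z => Complex.exp (((1 / 2 : ℝ) : ℂ) * L z)) z‖ ^ 2) ≤
      ENNReal.ofReal (Real.pi * (1 / 2 * p) * Real.exp (2 * U)) := by
    intro U hU
    rw [setLIntegral_congr_fun isOpen_ball.measurableSet fun z hz =>
      congrArg ENNReal.ofReal (hder z hz)]
    refine (lintegral_mono_set ?_).trans (hc.area U)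
    intro z hz
    refine ⟨hsub hz, ?_⟩
    rw [Complex.re_ofReal_mul]
    have h1 : (L z).re ≤ Real.log N := by
      rw [Real.le_log_iff_exp_le hN]; exact hb z hz
    linarith
  have hlim : Filter.Tendsto (fun U : ℝ => ENNReal.ofReal (Real.pi * (1 / 2 * p) *
      Real.exp (2 * U))) (nhdsWithin (1 / 2 * Real.log N) (Set.Ioi (1 / 2 * Real.log N)))
      (nhds (ENNReal.ofReal (Real.pi * (1 / 2 * p) * N))) := by
    have h1 : Continuous fun U : ℝ => ENNReal.ofReal (Real.pi * (1 / 2 * p) *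
      Real.exp (2 * U)) := ENNReal.continuous_ofReal.comp (by fun_prop)
    have h2 := (h1.tendsto (1 / 2 * Real.log N)).mono_left
      (nhdsWithin_le_nhds (s := Set.Ioi (1 / 2 * Real.log N)))
    have h3 : Real.exp (2 * (1 / 2 * Real.log N)) = N := by
      rw [← mul_assoc]
      norm_num
      exact Real.exp_log hN
    rwa [h3] at h2
  refine ge_of_tendsto hlim ?_
  filter_upwards [self_mem_nhdsWithin] with U hU'
  exact hU U hU'

private theorem exp_growth {p : ℝ} (hp : 1 / 2 < p) {L : ℂ → ℂ} (h : Cls p L) (h0 : (L 0).re = 0)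
    {ρ : ℝ} (hρ : ρ < 1) {z : ℂ} (hz : ‖z‖ ≤ ρ) :
    Real.exp (L z).re ≤ ((1 + ρ) / (1 - ρ)) ^ (2 * p) := by
  have hz1 : ‖z‖ < 1 := hz.trans_lt hρ
  have hρ0 : 0 ≤ ρ := (norm_nonneg z).trans hz
  have h1 := h.growth hp.le (z := z) (by rwa [mem_ball_zero_iff])
  rw [h0, sub_zero] at h1
  have h2 : (1 + ‖z‖) / (1 - ‖z‖) ≤ (1 + ρ) / (1 - ρ) := by
    have : 0 < 1 - ρ := by linarith
    gcongr
  have h3 : 0 < (1 + ‖z‖) / (1 - ‖z‖) :=
    div_pos (by linarith [norm_nonneg z]) (by linarith)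
  calc Real.exp (L z).re ≤ Real.exp (2 * p * Real.log ((1 + ‖z‖) / (1 - ‖z‖))) :=
        Real.exp_le_exp.2 ((le_abs_self _).trans h1)
    _ = ((1 + ‖z‖) / (1 - ‖z‖)) ^ (2 * p) := by
        rw [Real.rpow_def_of_pos h3, mul_comm]
    _ ≤ ((1 + ρ) / (1 - ρ)) ^ (2 * p) :=
        Real.rpow_le_rpow h3.le h2 (by linarith)

private theorem circ_bound {p : ℝ} (hp : 1 / 2 < p) {L : ℂ → ℂ} (h : Cls p L)
    (h0 : (L 0).re = 0) {ρ : ℝ} (hρ0 : 0 ≤ ρ) (hρ : ρ ≤ 1 / 2) :
    ∫ t in (0 : ℝ)..2 * Real.pi, Real.exp (L (circleMap 0 ρ t)).re ≤ 2 * Real.pi * 9 ^ p := by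
  have h9 : ((1 + (1 / 2 : ℝ)) / (1 - 1 / 2)) ^ (2 * p) = 9 ^ p := by
    rw [Real.rpow_mul (by norm_num)]
    norm_num
  have h1 := intervalIntegral.norm_integral_le_of_norm_le_const (a := 0) (b := 2 * Real.pi)
    (C := 9 ^ p) (f := fun t => Real.exp (L (circleMap 0 ρ t)).re) (by
      intro t _
      rw [Real.norm_eq_abs, abs_of_pos (Real.exp_pos _), ← h9]
      refine exp_growth hp h h0 (by norm_num) ?_
      rw [norm_circleMap_zero, abs_of_nonneg hρ0]
      exact hρ)
  rw [sub_zero, abs_of_pos (by positivity)] at h1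
  refine (le_abs_self _).trans (h1.trans (le_of_eq ?_))
  ring

theorem Cls.mean_le {p : ℝ} (hp : 1 / 2 < p) {L : ℂ → ℂ} (h : Cls p L) (h0 : (L 0).re = 0)
    {r M : ℝ} (hr : 0 ≤ r) (hr1 : r < 1) (hM : 1 ≤ M)
    (hb : ∀ z : ℂ, ‖z‖ ≤ r → (L z).re ≤ Real.log M) :
    ∫ t in (0 : ℝ)..2 * Real.pi, Real.exp (L (circleMap 0 r t)).re ≤
      Cm p * M ^ (1 - 1 / (2 * p)) := by
  have hp0 : 0 < p := by linarith
  have hM0 : 0 < M := by linarith
  have h2p : 0 < 2 * p - 1 := by linarith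
  have hQ1 : 1 ≤ M ^ (1 - 1 / (2 * p)) := by
    refine Real.one_le_rpow hM ?_
    have : 1 / (2 * p) ≤ 1 := by
      rw [div_le_one (by linarith)]; linarith
    linarith
  by_cases hr2 : r ≤ 1 / 2
  · refine (circ_bound hp h h0 hr hr2).trans ?_
    have h1 : 2 * Real.pi * 9 ^ p ≤ Cm p := by
      unfold Cm
      have : 0 ≤ 16 * Real.pi * p ^ 2 / (2 * p - 1) := by positivity
      linarith
    have h2 : 0 ≤ Cm p := le_trans (by positivity) h1
    exact h1.trans (le_mul_of_one_le_right h2 hQ1)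
  · rw [not_le] at hr2
    set M' : ℝ → ℝ := fun ρ => min M ((2 / (1 - ρ)) ^ (2 * p)) with hM'
    set hh : ℂ → ℂ := fun z => Complex.exp (((1 / 2 : ℝ) : ℂ) * L z) with hhh
    have hM'c : ContinuousOn M' (Set.Icc (1 / 2) r) := by
      intro ρ hρ
      refine ContinuousAt.continuousWithinAt ?_
      have h1 : 0 < 1 - ρ := by linarith [hρ.2]
      refine continuousAt_const.min ?_
      refine ContinuousAt.rpow_const ?_ (Or.inl (by positivity))
      exact continuousAt_const.div (by fun_prop) h1.ne'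
    have hM'0 : ∀ ρ ∈ Set.Icc (1 / 2) r, 0 < M' ρ := by
      intro ρ hρ
      have h1 : 0 < 1 - ρ := by linarith [hρ.2]
      exact lt_min hM0 (by positivity)
    have hd : DifferentiableOn ℂ hh (ball 0 1) := (h.diff.const_mul _).cexp
    have hmg := mean_growth hd (J := fun ρ => Real.pi * (1 / 2 * p) * M' ρ) (s := 1 / 2) (r := r)
      (by norm_num) hr2.le hr1 (hM'c.const_mul _ |>.congr fun _ _ => rfl) (by
        intro ρ hρ
        have hρ1 : ρ < 1 := hρ.2.trans_lt hr1
        refine area_half hp0 h hρ1.le (hM'0 ρ hρ) fun z hz => ?_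
        rw [mem_ball_zero_iff] at hz
        refine le_min ?_ ?_
        · rw [← Real.le_log_iff_exp_le hM0]
          exact hb z (hz.le.trans hρ.2)
        · refine (exp_growth hp h h0 hρ1 hz.le).trans ?_
          have h1 : 0 < 1 - ρ := by linarith
          have h2 : 0 ≤ (1 + ρ) / (1 - ρ) := by
            have : 0 ≤ ρ := by linarith [hρ.1]
            positivity
          refine Real.rpow_le_rpow h2 ?_ (by linarith)
          gcongr
          linarith) (by
        intro ρ hρ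
        have := (hM'0 ρ hρ).le
        positivity)
    simp only [hhh, norm_half] at hmg
    have h3 := circ_bound hp h h0 (ρ := 1 / 2) (by norm_num) le_rfl
    have h4 : ∫ ρ in (1 / 2 : ℝ)..r, 4 / ρ * (Real.pi * (1 / 2 * p) * M' ρ)
        ≤ 16 * Real.pi * p ^ 2 / (2 * p - 1) * M ^ (1 - 1 / (2 * p)) := by
      have hi1 : IntervalIntegrable M' volume (1 / 2) r :=
        ContinuousOn.intervalIntegrable (by rwa [Set.uIcc_of_le hr2.le])
      have hi2 : IntervalIntegrable (fun ρ => 4 / ρ * (Real.pi * (1 / 2 * p) * M' ρ)) volume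
          (1 / 2) r := by
        refine ContinuousOn.intervalIntegrable ?_
        rw [Set.uIcc_of_le hr2.le]
        refine ContinuousOn.mul ?_ (continuousOn_const.mul hM'c)
        intro ρ hρ
        have : ρ ≠ 0 := by
          have := hρ.1
          intro h
          rw [h] at this
          norm_num at this
        exact (continuousAt_const.div continuousAt_id this).continuousWithinAt
      calc ∫ ρ in (1 / 2 : ℝ)..r, 4 / ρ * (Real.pi * (1 / 2 * p) * M' ρ)
          ≤ ∫ ρ in (1 / 2 : ℝ)..r, 4 * Real.pi * p * M' ρ := by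
            refine intervalIntegral.integral_mono_on hr2.le hi2 (hi1.const_mul _) fun ρ hρ => ?_
            have h5 := hM'0 ρ hρ
            have h6 : 4 / ρ ≤ 8 := by
              have h7 := hρ.1
              rw [div_le_iff₀ (by linarith)]
              linarith
            calc 4 / ρ * (Real.pi * (1 / 2 * p) * M' ρ)
                ≤ 8 * (Real.pi * (1 / 2 * p) * M' ρ) :=
                  mul_le_mul_of_nonneg_right h6 (by positivity)
              _ = 4 * Real.pi * p * M' ρ := by ring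
        _ = 4 * Real.pi * p * ∫ ρ in (1 / 2 : ℝ)..r, M' ρ :=
            intervalIntegral.integral_const_mul _ _
        _ = 4 * Real.pi * p * ∫ x in (1 - r)..(1 - 1 / 2), min M ((2 / x) ^ (2 * p)) := by
            congr 1
            exact intervalIntegral.integral_comp_sub_left
              (fun x => min M ((2 / x) ^ (2 * p))) 1
        _ ≤ 4 * Real.pi * p * (4 * p / (2 * p - 1) * M ^ (1 - 1 / (2 * p))) := by
            gcongr
            exact int_min hp hM (by linarith) (by linarith)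
        _ = 16 * Real.pi * p ^ 2 / (2 * p - 1) * M ^ (1 - 1 / (2 * p)) := by ring
    refine hmg.trans ((add_le_add h3 h4).trans ?_)
    unfold Cm
    rw [add_mul]
    have h5 : 2 * Real.pi * 9 ^ p ≤ 2 * Real.pi * 9 ^ p * M ^ (1 - 1 / (2 * p)) :=
      le_mul_of_one_le_right (by positivity) hQ1
    linarith

end MPV
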