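import Pool.Agent.MPV.Mea
import Pool.Agent.MPV.Cfi

set_option autoImplicit false

/-!
# MPV PEAK : coefficient bound, `L^1` bound, large coefficients force a large value

PROOFS. `r = exp (-1/m)`, `1/(2m) ≤ 1 - r ≤ 1/m`. By `Cls.growth`, `Re L z ≤ 2p log (2/(1-‖z‖)) ≤
2p log (4m) = log ((4m)^(2p))` for `‖z‖ ≤ r`. `‖exp (L z)‖ = exp (Re L z)`.
`l1_bound`: substitution `t = m θ` and `Cls.mean_le` with `M = (4m)^(2p) ≥ 1`: the integral is
`≤ m Cm p (4m)^(2p-1)`; `C = Cm p 4^(2p-1)`.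
`coef_bound`: `coef_norm_le` and the same.
`peak`: let `M = max over ‖z‖ = r of exp (Re L z)`, attained at `r e^{iα}`; by the maximum principle
(`Complex.norm_le_of_forall_mem_frontier_norm_le` / `Complex.exists_mem_frontier...` for `exp ∘ L` on the
closed disc) `exp (Re L z) ≤ M` for `‖z‖ ≤ r`, `M ≥ exp (Re L 0) = 1`. `coef_norm_le` and `Cls.mean_le`:
`ε m^(2p-1) ≤ (e/(2π)) Cm p M^(1-1/(2p)) = C1 M^((2p-1)/(2p))`, so `M ≥ (ε/C1)^(2p/(2p-1)) m^(2p)`:
`δ = (ε/C1)^(2p/(2p-1))`.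
-/

open MeasureTheory Metric

namespace MPV

private theorem pk_one_sub_exp_ge {x : ℝ} (hx : 0 ≤ x) (hx1 : x ≤ 1) :
    x / 2 ≤ 1 - Real.exp (-x) := by
  have h1 : Real.exp (-x) ≤ 1 / (1 + x) := by
    rw [Real.exp_neg, ← one_div]
    apply one_div_le_one_div_of_le (by linarith)
    have := Real.add_one_le_exp x
    linarith
  have h2 : x / 2 ≤ 1 - 1 / (1 + x) := by
    have h3 : 1 - 1 / (1 + x) = x / (1 + x) := by
      field_simp
      ring
    rw [h3]
    apply div_le_div_of_nonneg_left hx (by linarith) (by linarith)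
  linarith

private theorem pk_exp_lt {n : ℕ} (hn : 1 ≤ n) : Real.exp (-1 / (n : ℝ)) < 1 := by
  have hn0 : (1 : ℝ) ≤ n := by exact_mod_cast hn
  rw [Real.exp_lt_one_iff]
  apply div_neg_of_neg_of_pos <;> linarith

private theorem pk_general {p : ℝ} (hp : 1 / 2 < p) {L : ℂ → ℂ} (hL : Cls p L)
    (h0 : (L 0).re = 0) {n : ℕ} (hn : 1 ≤ n) {z : ℂ} (hz : ‖z‖ ≤ Real.exp (-1 / n)) :
    (L z).re ≤ 2 * p * Real.log (4 * n) := by
  have hn0 : (1 : ℝ) ≤ n := by exact_mod_cast hn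
  have hr1 : Real.exp (-1 / (n : ℝ)) < 1 := pk_exp_lt hn
  have hz1 : ‖z‖ < 1 := lt_of_le_of_lt hz hr1
  have h1 := hL.growth (by linarith) (z := z) (by rw [mem_ball_zero_iff]; exact hz1)
  rw [h0, sub_zero] at h1
  have h2 := (abs_le.1 h1).2
  refine h2.trans ?_
  refine mul_le_mul_of_nonneg_left ?_ (by linarith)
  have h3 : 1 / (n : ℝ) / 2 ≤ 1 - Real.exp (-(1 / (n : ℝ))) :=
    pk_one_sub_exp_ge (by positivity) (by rw [div_le_one (by linarith)]; exact hn0)
  have h4 : -(1 / (n : ℝ)) = -1 / n := by ring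
  rw [h4] at h3
  apply Real.log_le_log
  · apply div_pos
    · have := norm_nonneg z; linarith
    · linarith
  · rw [div_le_iff₀ (by linarith)]
    have h5 : 4 * (n : ℝ) * (1 / n / 2) = 2 := by field_simp; norm_num
    have h6 : 4 * (n : ℝ) * (1 / n / 2) ≤ 4 * n * (1 - Real.exp (-1 / n)) :=
      mul_le_mul_of_nonneg_left h3 (by linarith)
    have h7 : 4 * (n : ℝ) * (1 - Real.exp (-1 / n)) ≤ 4 * n * (1 - ‖z‖) :=
      mul_le_mul_of_nonneg_left (by linarith) (by linarith)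
    linarith

private theorem Cm_pos {p : ℝ} (hp : 1 / 2 < p) : 0 < Cm p := by
  unfold Cm
  have h1 : (0 : ℝ) < 9 ^ p := Real.rpow_pos_of_pos (by norm_num) p
  have h2 : 0 ≤ 16 * Real.pi * p ^ 2 / (2 * p - 1) :=
    div_nonneg (by positivity) (by linarith)
  have h3 : 0 < 2 * Real.pi * (9 : ℝ) ^ p := by positivity
  linarith

/-- mean over the circle of radius `exp (-1/m)` -/
private theorem pk_mean {p : ℝ} (hp : 1 / 2 < p) {L : ℂ → ℂ} (hL : Cls p L)
    (h0 : (L 0).re = 0) {m : ℕ} (hm : 1 ≤ m) :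
    ∫ t in (0 : ℝ)..2 * Real.pi, Real.exp (L (circleMap 0 (Real.exp (-1 / m)) t)).re ≤
      Cm p * 4 ^ (2 * p - 1) * (m : ℝ) ^ (2 * p - 1) := by
  have hm1 : (1 : ℝ) ≤ m := by exact_mod_cast hm
  have hm0 : (0 : ℝ) < m := by linarith
  have hp0 : 0 < p := by linarith
  have hM : (1 : ℝ) ≤ (4 * (m : ℝ)) ^ (2 * p) := Real.one_le_rpow (by linarith) (by linarith)
  have h1 := hL.mean_le hp h0 (r := Real.exp (-1 / m)) (Real.exp_pos _).le (pk_exp_lt hm) hM
    (fun z hz => by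
      rw [Real.log_rpow (by linarith)]
      exact pk_general hp hL h0 hm hz)
  refine h1.trans (le_of_eq ?_)
  rw [← Real.rpow_mul (by linarith)]
  have h2 : 2 * p * (1 - 1 / (2 * p)) = 2 * p - 1 := by field_simp
  rw [h2, Real.mul_rpow (by norm_num) hm0.le]
  ring

private theorem pk_subst {m : ℕ} (hm : 1 ≤ m) (F : ℂ → ℝ) :
    ∫ t in (-(Real.pi * m))..(Real.pi * m), F (Complex.exp ((-1 + t * Complex.I) / m)) =
      m * ∫ t in (0 : ℝ)..2 * Real.pi, F (circleMap 0 (Real.exp (-1 / m)) t) := by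
  have hm1 : (1 : ℝ) ≤ m := by exact_mod_cast hm
  have hm0 : (m : ℝ) ≠ 0 := by positivity
  have hmC : (m : ℂ) ≠ 0 := by exact_mod_cast hm0
  have h1 : ∀ t : ℝ, Complex.exp ((-1 + t * Complex.I) / m) =
      circleMap 0 (Real.exp (-1 / m)) (t / m) := by
    intro t
    rw [circleMap, zero_add, Complex.ofReal_exp, ← Complex.exp_add]
    congr 1
    push_cast
    field_simp
  simp_rw [h1]
  rw [intervalIntegral.integral_comp_div (fun t => F (circleMap 0 (Real.exp (-1 / m)) t)) hm0]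
  have h2 : -(Real.pi * m) / m = -Real.pi := by field_simp
  have h3 : Real.pi * m / m = -Real.pi + 2 * Real.pi := by field_simp; ring
  rw [h2, h3, smul_eq_mul]
  congr 1
  have hper : Function.Periodic (fun t : ℝ => F (circleMap 0 (Real.exp (-1 / m)) t))
      (2 * Real.pi) := by
    intro t
    simp only
    rw [periodic_circleMap]
  have := hper.intervalIntegral_add_eq (-Real.pi) 0
  rw [this, zero_add]

theorem l1_bound {p : ℝ} (hp : 1 / 2 < p) : ∃ C : ℝ, 0 < C ∧ ∀ L : ℂ → ℂ, Cls p L →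
    (L 0).re = 0 → ∀ m : ℕ, 1 ≤ m →
      ∫ t in (-(Real.pi * m))..(Real.pi * m),
        Real.exp (L (Complex.exp ((-1 + t * Complex.I) / m))).re ≤ C * (m : ℝ) ^ (2 * p) := by
  have hC := Cm_pos hp
  refine ⟨Cm p * 4 ^ (2 * p - 1), by positivity, ?_⟩
  intro L hL h0 m hm
  have hm1 : (1 : ℝ) ≤ m := by exact_mod_cast hm
  have hm0 : (0 : ℝ) < m := by linarith
  rw [pk_subst hm (fun z => Real.exp (L z).re)]
  have h1 := pk_mean hp hL h0 hm
  calc (m : ℝ) * ∫ t in (0 : ℝ)..2 * Real.pi,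
        Real.exp (L (circleMap 0 (Real.exp (-1 / m)) t)).re
      ≤ m * (Cm p * 4 ^ (2 * p - 1) * (m : ℝ) ^ (2 * p - 1)) :=
        mul_le_mul_of_nonneg_left h1 hm0.le
    _ = Cm p * 4 ^ (2 * p - 1) * (m : ℝ) ^ (2 * p) := by
        have : (m : ℝ) ^ (2 * p) = m * (m : ℝ) ^ (2 * p - 1) := by
          rw [Real.rpow_sub_one hm0.ne']
          field_simp
        rw [this]
        ring

private theorem diff_exp {p : ℝ} {L : ℂ → ℂ} (hL : Cls p L) :
    DifferentiableOn ℂ (fun z => Complex.exp (L z)) (ball 0 1) :=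
  hL.diff.cexp

private theorem int_norm_exp {L : ℂ → ℂ} {m : ℕ} :
    (∫ t in (0 : ℝ)..2 * Real.pi,
      ‖(fun z => Complex.exp (L z)) (circleMap 0 (Real.exp (-1 / m)) t)‖) =
    ∫ t in (0 : ℝ)..2 * Real.pi, Real.exp (L (circleMap 0 (Real.exp (-1 / m)) t)).re := by
  congr 1
  funext t
  simp only [Complex.norm_exp]

theorem coef_bound {p : ℝ} (hp : 1 / 2 < p) : ∃ C : ℝ, 0 < C ∧ ∀ L : ℂ → ℂ, Cls p L →
    (L 0).re = 0 → ∀ m : ℕ, 1 ≤ m →
      ‖coef (fun z => Complex.exp (L z)) m‖ ≤ C * (m : ℝ) ^ (2 * p - 1) := by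
  have hC := Cm_pos hp
  have hpi := Real.pi_pos
  refine ⟨Real.exp 1 / (2 * Real.pi) * (Cm p * 4 ^ (2 * p - 1)), by positivity, ?_⟩
  intro L hL h0 m hm
  have h1 := coef_norm_le (diff_exp hL) hm
  rw [int_norm_exp] at h1
  have h2 := pk_mean hp hL h0 hm
  refine h1.trans ?_
  rw [mul_assoc (Real.exp 1 / (2 * Real.pi))]
  exact mul_le_mul_of_nonneg_left h2 (by positivity)

theorem peak {p : ℝ} (hp : 1 / 2 < p) {ε : ℝ} (hε : 0 < ε) : ∃ δ : ℝ, 0 < δ ∧ ∀ L : ℂ → ℂ,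
    Cls p L → (L 0).re = 0 → ∀ m : ℕ, 1 ≤ m →
      ε * (m : ℝ) ^ (2 * p - 1) ≤ ‖coef (fun z => Complex.exp (L z)) m‖ →
      ∃ α : ℝ, Real.log (δ * (m : ℝ) ^ (2 * p)) ≤
        (L (Complex.exp (α * Complex.I) * Complex.exp (-1 / m))).re := by
  have hCm := Cm_pos hp
  have hpi := Real.pi_pos
  have hp0 : 0 < p := by linarith
  have hq : 0 < 2 * p - 1 := by linarith
  obtain ⟨C1, hC1⟩ : ∃ C1 : ℝ, C1 = Real.exp 1 / (2 * Real.pi) * Cm p := ⟨_, rfl⟩
  have hC10 : 0 < C1 := by rw [hC1]; positivity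
  refine ⟨(ε / C1) ^ (2 * p / (2 * p - 1)), by positivity, ?_⟩
  intro L hL h0 m hm hco
  have hm1 : (1 : ℝ) ≤ m := by exact_mod_cast hm
  have hm0 : (0 : ℝ) < m := by linarith
  obtain ⟨r, hr⟩ : ∃ r : ℝ, r = Real.exp (-1 / m) := ⟨_, rfl⟩
  have hr0 : 0 < r := by rw [hr]; exact Real.exp_pos _
  have hr1 : r < 1 := by rw [hr]; exact pk_exp_lt hm
  -- maximum on the sphere
  have hcont : ContinuousOn (fun z => (L z).re) (sphere (0 : ℂ) r) := by
    apply Complex.continuous_re.comp_continuousOn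
    apply hL.diff.continuousOn.mono
    intro z hz
    rw [mem_sphere_zero_iff_norm] at hz
    rw [mem_ball_zero_iff, hz]
    exact hr1
  obtain ⟨z0, hz0, hmax⟩ := (isCompact_sphere (0 : ℂ) r).exists_isMaxOn
    (NormedSpace.sphere_nonempty.2 hr0.le) hcont
  have hz0n : ‖z0‖ = r := by simpa using hz0
  obtain ⟨A, hA⟩ : ∃ A : ℝ, A = (L z0).re := ⟨_, rfl⟩
  have hclos : closure (ball (0 : ℂ) r) = closedBall 0 r := closure_ball 0 hr0.ne'
  have hDC : DiffContOnCl ℂ (fun z => Complex.exp (L z)) (ball 0 r) := by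
    apply DifferentiableOn.diffContOnCl
    rw [hclos]
    apply (diff_exp hL).mono
    intro z hz
    rw [mem_closedBall_zero_iff] at hz
    rw [mem_ball_zero_iff]
    linarith
  have hball : ∀ z : ℂ, ‖z‖ ≤ r → (L z).re ≤ A := by
    intro z hz
    have h1 := Complex.norm_le_of_forall_mem_frontier_norm_le (U := ball (0 : ℂ) r)
      isBounded_ball hDC (C := Real.exp A) (fun w hw => by
        rw [frontier_ball 0 hr0.ne'] at hw
        simp only [Complex.norm_exp]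
        rw [hA]
        exact Real.exp_le_exp.2 (hmax hw)) (z := z) (by
        rw [hclos, mem_closedBall_zero_iff]; exact hz)
    simp only [Complex.norm_exp] at h1
    exact Real.exp_le_exp.1 h1
  have hA0 : 0 ≤ A := by
    have := hball 0 (by simpa using hr0.le)
    rw [h0] at this
    exact this
  have hM1 : 1 ≤ Real.exp A := Real.one_le_exp hA0
  have hmean := hL.mean_le hp h0 hr0.le hr1 hM1 (fun z hz => by
    rw [Real.log_exp]; exact hball z hz)
  have h1 := coef_norm_le (diff_exp hL) hm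
  rw [int_norm_exp, ← hr] at h1
  have h2 : ε * (m : ℝ) ^ (2 * p - 1) ≤ C1 * Real.exp A ^ (1 - 1 / (2 * p)) := by
    refine hco.trans (h1.trans ?_)
    rw [hC1, mul_assoc]
    exact mul_le_mul_of_nonneg_left hmean (by positivity)
  -- take the power 2p/(2p-1)
  have h3 : (ε / C1) * (m : ℝ) ^ (2 * p - 1) ≤ Real.exp A ^ (1 - 1 / (2 * p)) := by
    rw [div_mul_eq_mul_div, div_le_iff₀ hC10]
    linarith
  have h4 : (ε / C1) ^ (2 * p / (2 * p - 1)) * (m : ℝ) ^ (2 * p) ≤ Real.exp A := by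
    have h5 := Real.rpow_le_rpow (by positivity) h3
      (show 0 ≤ 2 * p / (2 * p - 1) by positivity)
    rw [Real.mul_rpow (by positivity) (by positivity), ← Real.rpow_mul hm0.le,
      ← Real.rpow_mul (Real.exp_pos _).le] at h5
    have e1 : (2 * p - 1) * (2 * p / (2 * p - 1)) = 2 * p := by
      field_simp
    have e2 : (1 - 1 / (2 * p)) * (2 * p / (2 * p - 1)) = 1 := by
      field_simp
    rw [e1, e2, Real.rpow_one] at h5
    exact h5
  refine ⟨Complex.arg z0, ?_⟩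
  have h5 : Complex.exp (Complex.arg z0 * Complex.I) * Complex.exp (-1 / m) = z0 := by
    have h6 := Complex.norm_mul_exp_arg_mul_I z0
    rw [hz0n, hr, Complex.ofReal_exp] at h6
    rw [mul_comm]
    convert h6 using 3
    push_cast
    ring
  rw [h5, ← hA]
  have h6 : 0 < (ε / C1) ^ (2 * p / (2 * p - 1)) * (m : ℝ) ^ (2 * p) := by positivity
  have h7 := Real.log_le_log h6 h4
  rw [Real.log_exp] at h7
  exact h7

end MPV
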