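import Mathlib

set_option autoImplicit false

/-!
# MPV WIR : a Wirtinger type inequality (`Σ k (k - 1) |c_k|^2 ≥ 0`)

PROOF 1 (Fourier): `G = Σ c_k e^{ikt}`, `G' = Σ i k c_k e^{ikt}`; Parseval (`tsum_sq_fourierCoeff`, inner product
version) gives left side `2π Σ k |c_k|^2`, right side `2π Σ k^2 |c_k|^2`, and `k ≤ k^2` for integers.
PROOF 2 (elementary): put `Y t = exp (-i t/2) G t`; `Y (t + 2π) = - Y t`, `Y' = exp (-it/2) (G' - i G/2)`,
`‖Y'‖^2 = ‖G'‖^2 + ‖G‖^2/4 - Im (G' conj G)`, `‖Y‖ = ‖G‖`. So the claim is `∫ ‖Y'‖^2 ≥ (1/4) ∫ ‖Y‖^2` for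
antiperiodic `Y`; treat real and imaginary part separately: a real antiperiodic `y` has a zero `t0`
(intermediate value theorem), integrate over `[t0, t0 + 2π]` (the integrands are `2π`-periodic), where
`y t0 = y (t0 + 2π) = 0`: for `c = cot ((t - t0)/2)` one has `(y' - c y/2)^2 = y'^2 - y^2/4 - (c y^2/2)'` on the
open interval and `c y^2 → 0` at both ends (`y = O(t - t0)`).
-/

open MeasureTheory

namespace MPV

private lemma wir_two_pi : (0 : ℝ) < 2 * Real.pi := by positivity

private lemma wir_memLp {f : ℝ → ℂ} (hf : Continuous f) :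
    MemLp f 2 (volume.restrict (Set.Ioc (0 : ℝ) (2 * Real.pi))) := by
  obtain ⟨C, hC⟩ := isCompact_Icc.exists_bound_of_continuousOn
    (hf.continuousOn (s := Set.Icc (0 : ℝ) (2 * Real.pi)))
  have : IsFiniteMeasure (volume.restrict (Set.Ioc (0 : ℝ) (2 * Real.pi))) :=
    ⟨by rw [Measure.restrict_apply_univ]; exact measure_Ioc_lt_top⟩
  refine MemLp.of_bound hf.aestronglyMeasurable C ?_
  rw [ae_restrict_iff' measurableSet_Ioc]
  exact Filter.Eventually.of_forall (fun x hx => hC x (Set.Ioc_subset_Icc_self hx))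

private lemma wir_coef {G G' : ℝ → ℂ} (hG : ∀ t, HasDerivAt G (G' t) t) (hc : Continuous G')
    (hper : ∀ t, G (t + 2 * Real.pi) = G t) (n : ℤ) :
    fourierCoeffOn wir_two_pi G' n = Complex.I * n * fourierCoeffOn wir_two_pi G n := by
  have hend : G (2 * Real.pi) = G 0 := by
    have := hper 0
    rwa [zero_add] at this
  by_cases hn : n = 0
  · subst hn
    rw [fourierCoeffOn_eq_integral]
    have h1 : ∫ x in (0 : ℝ)..2 * Real.pi, fourier (-0) (x : AddCircle (2 * Real.pi - 0)) • G' x =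
        ∫ x in (0 : ℝ)..2 * Real.pi, G' x := by
      refine intervalIntegral.integral_congr (fun x _ => ?_)
      simp
    rw [h1, intervalIntegral.integral_eq_sub_of_hasDerivAt (fun x _ => hG x)
      (hc.intervalIntegrable _ _), hend]
    simp
  · have h1 := fourierCoeffOn_of_hasDerivAt wir_two_pi hn (fun x _ => hG x)
      (hc.intervalIntegrable _ _)
    rw [hend, sub_self, mul_zero, zero_sub] at h1
    rw [h1]
    have hn' : (n : ℂ) ≠ 0 := by exact_mod_cast hn
    have hpi : (Real.pi : ℂ) ≠ 0 := by exact_mod_cast Real.pi_ne_zero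
    have hI := Complex.I_ne_zero
    push_cast
    rw [sub_zero]
    field_simp

private lemma wir_coef2 {G G' : ℝ → ℂ} (hG : ∀ t, HasDerivAt G (G' t) t) (hc : Continuous G')
    (hper : ∀ t, G (t + 2 * Real.pi) = G t) (n : ℤ) :
    fourierCoeffOn wir_two_pi (fun t => G' t - Complex.I / 2 * G t) n =
      Complex.I * (n - 1 / 2) * fourierCoeffOn wir_two_pi G n := by
  have hGc : Continuous G := continuous_iff_continuousAt.2 (fun t => (hG t).continuousAt)
  have h1 := wir_coef hG hc hper n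
  have hfc : Continuous fun x : ℝ => fourier (-n) (x : AddCircle (2 * Real.pi - 0)) :=
    (map_continuous (fourier (-n))).comp (AddCircle.continuous_mk' _)
  have h2 : fourierCoeffOn wir_two_pi (fun t => G' t - Complex.I / 2 * G t) n =
      fourierCoeffOn wir_two_pi G' n - Complex.I / 2 * fourierCoeffOn wir_two_pi G n := by
    rw [fourierCoeffOn_eq_integral, fourierCoeffOn_eq_integral, fourierCoeffOn_eq_integral]
    have h3 : ∀ x : ℝ, fourier (-n) (x : AddCircle (2 * Real.pi - 0)) •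
        (G' x - Complex.I / 2 * G x) =
        fourier (-n) (x : AddCircle (2 * Real.pi - 0)) • G' x -
        Complex.I / 2 * (fourier (-n) (x : AddCircle (2 * Real.pi - 0)) • G x) := by
      intro x
      simp only [smul_eq_mul]
      ring
    rw [intervalIntegral.integral_congr (fun x _ => h3 x), intervalIntegral.integral_sub,
      intervalIntegral.integral_const_mul]
    · rw [smul_sub, mul_smul_comm]
    · exact (hfc.smul hc).intervalIntegrable _ _
    · exact ((hfc.smul hGc).const_mul _).intervalIntegrable _ _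
  rw [h2, h1]
  ring

theorem wirtinger {G G' : ℝ → ℂ} (hG : ∀ t, HasDerivAt G (G' t) t) (hc : Continuous G')
    (hper : ∀ t, G (t + 2 * Real.pi) = G t) :
    ∫ t in (0 : ℝ)..2 * Real.pi, (G' t * (starRingEnd ℂ) (G t)).im ≤
      ∫ t in (0 : ℝ)..2 * Real.pi, ‖G' t‖ ^ 2 := by
  have hGc : Continuous G := continuous_iff_continuousAt.2 (fun t => (hG t).continuousAt)
  have hHc : Continuous (fun t => G' t - Complex.I / 2 * G t) := by fun_prop
  have hs1 := hasSum_sq_fourierCoeffOn wir_two_pi (wir_memLp hHc)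
  have hs2 := hasSum_sq_fourierCoeffOn wir_two_pi (wir_memLp hGc)
  have hle : ∀ n : ℤ, 1 / 4 * ‖fourierCoeffOn wir_two_pi G n‖ ^ 2 ≤
      ‖fourierCoeffOn wir_two_pi (fun t => G' t - Complex.I / 2 * G t) n‖ ^ 2 := by
    intro n
    rw [wir_coef2 hG hc hper n, norm_mul, norm_mul, Complex.norm_I, one_mul, mul_pow]
    refine mul_le_mul_of_nonneg_right ?_ (by positivity)
    have h1 : ((n : ℂ) - 1 / 2) = (((n : ℝ) - 1 / 2 : ℝ) : ℂ) := by push_cast; ring
    rw [h1, Complex.norm_real, Real.norm_eq_abs, sq_abs]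
    have h2 : (0 : ℝ) ≤ (n : ℝ) * ((n : ℝ) - 1) := by
      rcases le_or_gt n 0 with h | h
      · have : (n : ℝ) ≤ 0 := by exact_mod_cast h
        nlinarith
      · have : (1 : ℝ) ≤ n := by exact_mod_cast h
        nlinarith
    nlinarith
  have h3 := hasSum_le hle (hs2.mul_left (1 / 4)) hs1
  rw [sub_zero, smul_eq_mul, smul_eq_mul] at h3
  have h4 : 1 / 4 * ∫ x in (0 : ℝ)..2 * Real.pi, ‖G x‖ ^ 2 ≤
      ∫ x in (0 : ℝ)..2 * Real.pi, ‖G' x - Complex.I / 2 * G x‖ ^ 2 := by
    have h5 := mul_le_mul_of_nonneg_left h3 wir_two_pi.le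
    have h6 : 2 * Real.pi * (1 / 4 * ((2 * Real.pi)⁻¹ *
        ∫ x in (0 : ℝ)..2 * Real.pi, ‖G x‖ ^ 2)) =
        1 / 4 * ∫ x in (0 : ℝ)..2 * Real.pi, ‖G x‖ ^ 2 := by
      have := wir_two_pi.ne'
      field_simp
    have h7 : 2 * Real.pi * ((2 * Real.pi)⁻¹ *
        ∫ x in (0 : ℝ)..2 * Real.pi, ‖G' x - Complex.I / 2 * G x‖ ^ 2) =
        ∫ x in (0 : ℝ)..2 * Real.pi, ‖G' x - Complex.I / 2 * G x‖ ^ 2 := by
      rw [← mul_assoc, mul_inv_cancel₀ wir_two_pi.ne', one_mul]
    rwa [h6, h7] at h5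
  have hid : ∀ x : ℝ, ‖G' x - Complex.I / 2 * G x‖ ^ 2 =
      ‖G' x‖ ^ 2 + 1 / 4 * ‖G x‖ ^ 2 - (G' x * (starRingEnd ℂ) (G x)).im := by
    intro x
    rw [← Complex.normSq_eq_norm_sq, ← Complex.normSq_eq_norm_sq, ← Complex.normSq_eq_norm_sq]
    simp only [Complex.normSq_apply, Complex.sub_re, Complex.sub_im, Complex.mul_re,
      Complex.mul_im, Complex.conj_re, Complex.conj_im, Complex.div_ofNat_re,
      Complex.div_ofNat_im, Complex.I_re, Complex.I_im]
    ring
  rw [intervalIntegral.integral_congr (fun x _ => hid x), intervalIntegral.integral_sub,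
    intervalIntegral.integral_add, intervalIntegral.integral_const_mul] at h4
  · linarith
  · exact (hc.norm.pow 2).intervalIntegrable _ _
  · exact ((hGc.norm.pow 2).const_mul _).intervalIntegrable _ _
  · exact ((hc.norm.pow 2).add ((hGc.norm.pow 2).const_mul _)).intervalIntegrable _ _
  · exact (Complex.continuous_im.comp (hc.mul
      (Complex.continuous_conj.comp hGc))).intervalIntegrable _ _

end MPV
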